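import Pool.Agent.Lib.MP_c7f57c_an.Peak

set_option autoImplicit false

namespace Pool.Agent.Lib.MP_c7f57c_an.Thr

open Filter Topology Uniq

/-- centre of the `r`-th cell of length `1 / Q` -/
noncomputable def xx (Q r : ℕ) : ℝ := (r + 1 / 2) / Q

/-- Fourier coefficients of the triangle on a cell -/
noncomputable def ww (Q n : ℕ) : ℝ := Real.sinc (n * (Real.pi * (1 / 2 / Q))) ^ 2

/-- the series tested against the triangle on the `r`-th cell -/
noncomputable def FF (a b : ℕ → ℝ) (Q r : ℕ) : ℝ := ∑' n, tm a b n (xx Q r) * ww Q n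

/-- discrete coefficient of the `n`-th term -/
noncomputable def TT (a b : ℕ → ℝ) (Q J n : ℕ) : ℂ :=
  ∑ r ∈ Finset.range Q, (tm a b n (xx Q r) : ℂ) * ch (-(J * xx Q r))

/-- a constant -/
noncomputable def ZZ : ℝ := ∑' l : ℕ, 1 / ((l + 1 : ℕ) : ℝ) ^ 2

lemma ZZ_nonneg : 0 ≤ ZZ := tsum_nonneg fun l => by positivity

lemma TT_eq (a b : ℕ → ℝ) (Q J n : ℕ) : TT a b Q J n =
    ((a n - b n * Complex.I) / 2) *
      ∑ r ∈ Finset.range Q, ch (((n : ℤ) - J : ℤ) * ((r + 1 / 2) / Q)) +
    ((a n + b n * Complex.I) / 2) *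
      ∑ r ∈ Finset.range Q, ch ((-((n : ℤ) + J) : ℤ) * ((r + 1 / 2) / Q)) := by
  simp only [TT, xx, tm_mul_ch, Finset.sum_add_distrib, Finset.mul_sum]

lemma norm_TT (a b : ℕ → ℝ) (Q J n : ℕ) : ‖TT a b Q J n‖ ≤ Q * (|a n| + |b n|) := by
  refine (norm_sum_le _ _).trans ((Finset.sum_le_card_nsmul _ _ (|a n| + |b n|)
    fun r _ => ?_).trans (by simp [mul_add]))
  rw [norm_mul, norm_ch, mul_one, Complex.norm_real, Real.norm_eq_abs]
  exact abs_tm_le a b n _

lemma ww_le {Q n l : ℕ} (hQ : 0 < Q) (h : l * Q ≤ n) :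
    ww Q n ≤ 2 * (1 / ((l + 1 : ℕ) : ℝ) ^ 2) := by
  rcases Nat.eq_zero_or_pos l with rfl | hl
  · exact (sinc_sq_le_one _).trans (by norm_num)
  · have hQr : (0 : ℝ) < Q := by exact_mod_cast hQ
    have hl1 : (1 : ℝ) ≤ l := by exact_mod_cast hl
    have h1 : (l : ℝ) * Q ≤ n := by exact_mod_cast h
    have hp := Real.pi_gt_three
    have h2 : (l : ℝ) * (3 / 2) ≤ n * (Real.pi * (1 / 2 / Q)) := by
      rw [← mul_div_assoc Real.pi, ← mul_div_assoc (n : ℝ), le_div_iff₀ hQr]
      nlinarith [mul_pos (show (0 : ℝ) < l by linarith) hQr]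
    have h3 : (0 : ℝ) < l * (3 / 2) := by positivity
    refine (sinc_sq_le (h3.trans_le h2).ne').trans ?_
    refine (one_div_le_one_div_of_le (by positivity) (pow_le_pow_left₀ h3.le h2 2)).trans ?_
    rw [mul_one_div, div_le_div_iff₀ (by positivity) (by positivity)]
    push_cast
    nlinarith

lemma grid {a b : ℕ → ℝ} {C : ℝ} (hC : ∀ n, |a n| + |b n| ≤ C) {Q J : ℕ} (hJ : J < Q) {δ : ℝ}
    (hδ0 : 0 ≤ δ) (hδ : ∀ n, Q ≤ n + J → |a n| + |b n| ≤ δ) :
    ‖∑ r ∈ Finset.range Q, (FF a b Q r : ℂ) * ch (-(J * xx Q r)) - TT a b Q J J * ww Q J‖ ≤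
      4 * ZZ * (Q * δ) := by
  have hQ0 : 0 < Q := by omega
  have hQr : (0 : ℝ) < Q := by exact_mod_cast hQ0
  have hp := Real.pi_pos
  have hz : Summable fun l : ℕ => 1 / ((l + 1 : ℕ) : ℝ) ^ 2 :=
    (summable_nat_add_iff 1).2 (Real.summable_one_div_nat_pow.2 one_lt_two)
  have hsum : HasSum (fun n => TT a b Q J n * ww Q n)
      (∑ r ∈ Finset.range Q, (FF a b Q r : ℂ) * ch (-(J * xx Q r))) := by
    have h1 : ∀ r ∈ Finset.range Q, HasSum (fun n => (tm a b n (xx Q r) : ℂ) *
        ch (-(J * xx Q r)) * ww Q n) ((FF a b Q r : ℂ) * ch (-(J * xx Q r))) := by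
      intro r _
      have h2 := (summable_sinc (u := fun n => tm a b n (xx Q r)) (C := C)
        (fun n => (abs_tm_le a b n _).trans (hC n))
        (show 0 < Real.pi * (1 / 2 / Q) by positivity)).hasSum
      have h3 := (Complex.hasSum_ofReal.2 h2).mul_right (ch (-(J * xx Q r)))
      have e : (fun n => (tm a b n (xx Q r) : ℂ) * ch (-(J * xx Q r)) * ww Q n) =
          fun n => ((tm a b n (xx Q r) * ww Q n : ℝ) : ℂ) * ch (-(J * xx Q r)) :=
        funext fun n => by push_cast; ring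
      rw [e]
      exact h3
    simpa only [TT, Finset.sum_mul] using hasSum_sum h1
  set B : ℝ := Q * δ * 2 with hB
  have hB0 : 0 ≤ B := by positivity
  have hbd : ∀ n l : ℕ, (l + 1) * Q ≤ n + J →
      ‖TT a b Q J n * ww Q n‖ ≤ B * (1 / ((l + 1 : ℕ) : ℝ) ^ 2) := fun n l hl => by
    rw [add_mul, one_mul] at hl
    have b1 : ‖TT a b Q J n‖ ≤ Q * δ :=
      (norm_TT a b Q J n).trans (mul_le_mul_of_nonneg_left (hδ n (by omega)) hQr.le)
    have b2 := ww_le (l := l) (n := n) hQ0 (by omega)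
    have b3 : 0 ≤ ww Q n := sq_nonneg _
    rw [norm_mul, Complex.norm_real, Real.norm_eq_abs, abs_of_nonneg b3, hB, mul_assoc (Q * δ)]
    exact mul_le_mul b1 b2 b3 (by positivity)
  set g1 : ℕ → ℕ := fun l => (l + 1) * Q + J with hg1
  set g2 : ℕ → ℕ := fun l => (l + 1) * Q - J with hg2
  have i1 : Function.Injective g1 := fun l l' e => by
    simp only [hg1] at e
    have := Nat.eq_of_mul_eq_mul_right hQ0 (Nat.add_right_cancel e)
    omega
  have hjQ : ∀ l : ℕ, J ≤ (l + 1) * Q := fun l => by nlinarith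
  have i2 : Function.Injective g2 := fun l l' e => by
    simp only [hg2] at e
    have h1 := hjQ l
    have h2 := hjQ l'
    have := Nat.eq_of_mul_eq_mul_right hQ0 (show (l + 1) * Q = (l' + 1) * Q by omega)
    omega
  set p : ℕ → ℝ := fun l => B * (1 / ((l + 1 : ℕ) : ℝ) ^ 2) with hpd
  have hp0 : ∀ (g : ℕ → ℕ) n, 0 ≤ Function.extend g p 0 n := fun g n => by
    classical
    rw [Function.extend_def]
    split_ifs
    · simp only [hpd]; positivity
    · exact le_rfl
  have hps : HasSum p (B * ZZ) := hz.hasSum.mul_left B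
  have hmaj := ((hasSum_extend_zero i1).2 hps).add ((hasSum_extend_zero i2).2 hps)
  have hrest := hasSum_ite_sub_hasSum hsum J
  have hle : ∀ n, ‖if n = J then 0 else TT a b Q J n * ww Q n‖ ≤
      Function.extend g1 p 0 n + Function.extend g2 p 0 n := fun n => by
    split_ifs with hn
    · rw [norm_zero]; exact add_nonneg (hp0 _ _) (hp0 _ _)
    by_cases d1 : (Q : ℤ) ∣ (n : ℤ) - J
    · obtain ⟨k, hk⟩ := d1
      have hk0 : 1 ≤ k := by
        by_contra hc
        rcases (show k = 0 ∨ k ≤ -1 by omega) with h0 | h0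
        · rw [h0] at hk; omega
        · have : (Q : ℤ) * k ≤ Q * (-1) := mul_le_mul_of_nonneg_left h0 (by positivity)
          omega
      obtain ⟨l, rfl⟩ : ∃ l : ℕ, k = (l + 1 : ℕ) := ⟨(k - 1).toNat, by omega⟩
      have e : n = g1 l := by
        simp only [hg1]; zify; push_cast at hk; linarith
      have := hbd n l (by rw [e]; simp only [hg1]; omega)
      refine this.trans (le_add_of_le_of_nonneg (le_of_eq ?_) (hp0 _ _))
      rw [e, i1.extend_apply]
    by_cases d2 : (Q : ℤ) ∣ -((n : ℤ) + J)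
    · obtain ⟨k, hk⟩ := (dvd_neg).1 d2
      have hk0 : 1 ≤ k := by
        by_contra hc
        have : (Q : ℤ) * k ≤ Q * 0 := mul_le_mul_of_nonneg_left (by omega) (by positivity)
        omega
      obtain ⟨l, rfl⟩ : ∃ l : ℕ, k = (l + 1 : ℕ) := ⟨(k - 1).toNat, by omega⟩
      have e0 : n + J = (l + 1) * Q := by zify; push_cast at hk; linarith
      have e : n = g2 l := by simp only [hg2]; omega
      have := hbd n l e0.ge
      refine this.trans (le_add_of_nonneg_of_le (hp0 _ _) (le_of_eq ?_))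
      rw [e, i2.extend_apply]
    rw [TT_eq, sum_ch_grid hQ0 _ d1, sum_ch_grid hQ0 _ d2]
    simpa using add_nonneg (hp0 g1 n) (hp0 g2 n)
  refine (hrest.norm_le_of_bounded hmaj hle).trans (le_of_eq ?_)
  rw [hB]
  ring

lemma sum_range_mul' (G : ℕ → ℂ) (P M : ℕ) : ∑ i ∈ Finset.range (P * M), G i =
    ∑ d ∈ Finset.range M, ∑ r ∈ Finset.range P, G (r * M + d) := by
  induction P with
  | zero => simp
  | succ P ih =>
    rw [add_mul, one_mul, Finset.sum_range_add, ih, ← Finset.sum_add_distrib]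
    exact Finset.sum_congr rfl fun d _ => (Finset.sum_range_succ _ _).symm

/-- A series that tends to zero on the cells of all omitted digits, for thin digit sets at
arbitrarily deep levels, vanishes. -/
theorem thin {a b : ℕ → ℝ} (C : ℝ)
    (h : ∀ N : ℕ, ∃ (P M : ℕ) (D : Finset ℕ), N ≤ P ∧ D ⊆ Finset.range M ∧ D.card < M ∧
      (D.card : ℝ) ≤ C * Real.log M ∧ ∀ r < P, ∀ e < M, e ∉ D →
        ∀ x ∈ Set.Ioo ((r + (e : ℝ) / M) / P) ((r + ((e : ℝ) + 1) / M) / P),
          Tendsto (fun N => ∑ n ∈ Finset.range N, tm a b n x) atTop (𝓝 0)) :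
    (∀ n, a n = 0) ∧ ∀ n, 1 ≤ n → b n = 0 := by
  have hCL : Tendsto (fun n => |a n| + |b n|) atTop (𝓝 0) := by
    obtain ⟨P, M, D, hP, -, hD, -, hQ'⟩ := h 1
    obtain ⟨e, he, he'⟩ : ∃ e ∈ Finset.range M, e ∉ D :=
      Finset.exists_mem_notMem_of_card_lt_card (by rwa [Finset.card_range])
    have hM : (0 : ℝ) < M := by exact_mod_cast (show 0 < M by omega)
    refine cantor_lebesgue (u := ((0 : ℕ) + (e : ℝ) / M) / P)
      (v := ((0 : ℕ) + ((e : ℝ) + 1) / M) / P)
      (div_lt_div_of_pos_right (by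
        have := div_lt_div_of_pos_right (lt_add_one (e : ℝ)) hM
        linarith) (by positivity)) fun x hx => ?_
    have h1 := hQ' 0 hP e (Finset.mem_range.1 he) he' x hx
    have h2 := (h1.comp (tendsto_add_atTop_nat 1)).sub h1
    rw [sub_zero] at h2
    exact h2.congr fun n => by simp [Finset.sum_range_succ]
  obtain ⟨C', hC⟩ : ∃ C, ∀ n, |a n| + |b n| ≤ C := by
    obtain ⟨B, hB⟩ := hCL.bddAbove_range
    exact ⟨B, fun n => hB ⟨n, rfl⟩⟩
  obtain ⟨B, hB, hpk⟩ := peak_thin C
  have hZ := ZZ_nonneg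
  have main : ∀ j : ℕ, (if j = 0 then (a 0 : ℂ) else (a j - b j * Complex.I) / 2) = 0 := by
    intro j
    set d : ℂ := if j = 0 then (a 0 : ℂ) else (a j - b j * Complex.I) / 2 with hd
    rw [← norm_le_zero_iff]
    refine le_of_forall_pos_le_add fun ε hε => ?_
    rw [zero_add]
    set K := 4 * (B * (4 * ZZ + 1) + 4 * ZZ) with hK
    have hK0 : 0 < K := by positivity
    set δ := ε / K with hδ
    have hδ0 : 0 < δ := div_pos hε hK0
    obtain ⟨N, hN⟩ := eventually_atTop.1 (hCL.eventually (gt_mem_nhds hδ0))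
    obtain ⟨P, M, D, hP, hDM, hD, hDC, hQ'⟩ := h (N + 4 * j + 1)
    have hM0 : 0 < M := by omega
    have hP0 : 0 < P := by omega
    have hMr : (0 : ℝ) < M := by exact_mod_cast hM0
    have hPr : (0 : ℝ) < P := by exact_mod_cast hP0
    have hPQ : P ≤ P * M := Nat.le_mul_of_pos_right _ hM0
    have hQr : (0 : ℝ) < (P * M : ℕ) := by positivity
    set μ : ℕ → ℂ := fun e => ∑ r ∈ Finset.range P,
      (FF a b (P * M) (r * M + e) : ℂ) * ch (-(j * xx (P * M) (r * M + e))) with hμ
    have μ0 : ∀ e ∈ Finset.range M, e ∉ D → μ e = 0 := fun e he he' => by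
      refine Finset.sum_eq_zero fun r hr => ?_
      have := gap_zero hC (hQ' r (Finset.mem_range.1 hr) e (Finset.mem_range.1 he) he')
        (xx (P * M) (r * M + e)) (1 / 2 / (P * M : ℕ)) (by positivity)
        (le_of_eq (by unfold xx; push_cast; field_simp; ring))
        (le_of_eq (by unfold xx; push_cast; field_simp; ring))
      unfold FF ww
      rw [this, Complex.ofReal_zero, zero_mul]
    have hat : ∀ s : ℕ, ∑ i ∈ Finset.range (P * M), (FF a b (P * M) i : ℂ) *
        ch (-((j + s * P : ℕ) * xx (P * M) i)) =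
        (∑ e ∈ D, μ e * ch (-(s * ((e : ℝ) / M)))) * ch (-(s / (2 * M))) := fun s => by
      rw [Finset.sum_subset hDM fun e he he' => by rw [μ0 e he he', zero_mul],
        sum_range_mul', Finset.sum_mul]
      refine Finset.sum_congr rfl fun e _ => ?_
      rw [hμ, Finset.sum_mul, Finset.sum_mul]
      refine Finset.sum_congr rfl fun r _ => ?_
      have e1 : -(((j + s * P : ℕ) : ℝ) * xx (P * M) (r * M + e)) =
          -(j * xx (P * M) (r * M + e)) + (-(s * ((e : ℝ) / M)) + (-(s / (2 * M)) +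
            ((-(s * r) : ℤ) : ℝ))) := by
        unfold xx; push_cast; field_simp; ring
      rw [e1, ch_add, ch_add, ch_add, ch_int]
      ring
    have hs := hpk M D hD hDC μ ((4 * ZZ + 1) * ((P * M : ℕ) * δ)) (by positivity) fun s hs => by
      obtain ⟨s1, s2⟩ := Finset.mem_Ico.1 hs
      have s3 : (s + 1) * P ≤ M * P := Nat.mul_le_mul_right _ s2
      have s4 : P ≤ s * P := Nat.le_mul_of_pos_left _ s1
      rw [add_mul, one_mul, mul_comm M] at s3
      have g1 := grid hC (Q := P * M) (J := j + s * P) (by omega) hδ0.le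
        fun n hn => (hN n (by omega)).le
      have g2 : ‖TT a b (P * M) (j + s * P) (j + s * P) * ww (P * M) (j + s * P)‖ ≤
          (P * M : ℕ) * δ := by
        have w0 : 0 ≤ ww (P * M) (j + s * P) := sq_nonneg _
        rw [norm_mul, Complex.norm_real, Real.norm_eq_abs, abs_of_nonneg w0]
        exact (mul_le_of_le_one_right (norm_nonneg _) (sinc_sq_le_one _)).trans
          ((norm_TT _ _ _ _ _).trans (mul_le_mul_of_nonneg_left (hN _ (by omega)).le hQr.le))
      have g3 := norm_sub_norm_le (∑ i ∈ Finset.range (P * M), (FF a b (P * M) i : ℂ) *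
        ch (-((j + s * P : ℕ) * xx (P * M) i)))
        (TT a b (P * M) (j + s * P) (j + s * P) * ww (P * M) (j + s * P))
      have g4 := congrArg norm (hat s)
      rw [norm_mul, norm_ch, mul_one] at g4
      linarith
    have h0 := hat 0
    simp only [zero_mul, add_zero, Nat.cast_zero, neg_zero, ch_zero, mul_one, zero_div] at h0
    have g1 := grid hC (Q := P * M) (J := j) (by omega) hδ0.le fun n hn => (hN n (by omega)).le
    have hTj : TT a b (P * M) j j = (P * M : ℕ) * d := by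
      rw [TT_eq, hd]
      split_ifs with h0
      · subst h0; simp [ch_zero]; ring
      · rw [sum_ch_grid (by omega) _ (m := -((j : ℤ) + j)) (fun hm => ?_)]
        · simp [ch_zero]; ring
        · have := Int.le_of_dvd (by omega) ((dvd_neg).1 hm)
          omega
    have hwj : 1 / 4 ≤ ww (P * M) j := by
      have c1 := sinc_lip (j * (Real.pi * (1 / 2 / (P * M : ℕ)))) 0
      rw [Real.sinc_zero, sub_zero, abs_of_nonneg (a := j * (Real.pi * (1 / 2 / (P * M : ℕ))))
        (by positivity)] at c1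
      have c2 : j * (Real.pi * (1 / 2 / (P * M : ℕ))) ≤ 1 / 2 := by
        have c3 : 4 * (j : ℝ) ≤ (P * M : ℕ) := by exact_mod_cast (show 4 * j ≤ P * M by omega)
        rw [← mul_div_assoc, ← mul_div_assoc (j : ℝ), div_le_iff₀ hQr]
        nlinarith [Real.pi_le_four, (Nat.cast_nonneg j : (0 : ℝ) ≤ j)]
      have c4 := (abs_le.1 c1).1
      unfold ww
      nlinarith
    rw [h0, hTj, norm_sub_rev] at g1
    have g3 := norm_sub_norm_le (((P * M : ℕ) : ℂ) * d * ww (P * M) j) (∑ e ∈ D, μ e)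
    rw [norm_mul, norm_mul, Complex.norm_natCast, Complex.norm_real, Real.norm_eq_abs,
      abs_of_nonneg (le_trans (by norm_num) hwj)] at g3
    have f1 := mul_le_mul_of_nonneg_left hwj (mul_nonneg hQr.le (norm_nonneg d))
    have f2 : K * δ = ε := by rw [hδ]; field_simp
    refine le_of_mul_le_mul_left ?_ hQr
    rw [← f2, hK]
    linarith
  refine ⟨fun n => ?_, fun n hn => ?_⟩
  · have := main n
    split_ifs at this with h0
    · rw [h0]; exact_mod_cast this
    · simpa using congrArg Complex.re this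
  · have := main n
    rw [if_neg (by omega)] at this
    simpa using congrArg Complex.im this

/-- Moran sets with thin digit sets at infinitely many levels are sets of uniqueness. -/
lemma thin_unique {M : ℕ → ℕ} (hM : ∀ n, 2 ≤ M n) {D : ℕ → Finset ℕ}
    (hD : ∀ n, D n ⊆ Finset.range (M n)) (C : ℝ)
    (hC : ∃ᶠ n in atTop, (D n).card < M n ∧ ((D n).card : ℝ) ≤ C * Real.log (M n))
    {a b : ℕ → ℝ} (h : ∀ x ∈ Set.Icc (0 : ℝ) 1 \
      {x : ℝ | ∃ d : ℕ → ℕ, (∀ n, d n ∈ D n) ∧ x = ∑' n, (d n : ℝ) / Gen.P M (n + 1)},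
      Tendsto (fun N => ∑ n ∈ Finset.range N, tm a b n x) atTop (𝓝 0)) :
    (∀ n, a n = 0) ∧ ∀ n, 1 ≤ n → b n = 0 := by
  refine thin C fun N => ?_
  obtain ⟨n, hn, h1, h2⟩ := frequently_atTop.1 hC N
  have hm : (0 : ℝ) < M n := by have := hM n; positivity
  refine ⟨Gen.P M n, M n, D n, hn.trans (Gen.lt_P hM n).le, hD n, h1, h2,
    fun r hr e he he' x hx => h x ⟨⟨?_, ?_⟩, ?_⟩⟩
  · exact le_trans (by positivity) hx.1.le
  · refine hx.2.le.trans (div_le_one_of_le₀ ?_ (Gen.P_posR hM n).le)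
    have h1 : (r : ℝ) + 1 ≤ Gen.P M n := by exact_mod_cast hr
    have h2 : ((e : ℝ) + 1) / M n ≤ 1 := div_le_one_of_le₀ (by exact_mod_cast he) hm.le
    linarith
  · rintro ⟨d, hd, rfl⟩
    exact he' (Gen.gap hM (fun k => Finset.mem_range.1 (hD k (hd k))) he hx ▸ hd n)

end Pool.Agent.Lib.MP_c7f57c_an.Thr
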