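import Mathlib

set_option autoImplicit false

namespace Pool.Agent.Lib.MP_c7f57c_an

open MeasureTheory Filter Topology Complex

/-- The character `t ↦ exp (2 π i t)`. -/
noncomputable def ch (t : ℝ) : ℂ := Complex.exp (2 * Real.pi * Complex.I * t)

lemma ch_add (s t : ℝ) : ch (s + t) = ch s * ch t := by
  simp only [ch, ← Complex.exp_add]; congr 1; push_cast; ring

lemma ch_zero : ch 0 = 1 := by simp [ch]

lemma ch_eq (t : ℝ) : ch t = Complex.exp (((2 * Real.pi * t : ℝ) : ℂ) * Complex.I) := by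
  simp only [ch]; congr 1; push_cast; ring

lemma norm_ch (t : ℝ) : ‖ch t‖ = 1 := by
  rw [ch_eq, Complex.norm_exp_ofReal_mul_I]

lemma ch_nat_mul (n : ℕ) (t : ℝ) : ch (n * t) = ch t ^ n := by
  simp only [ch, ← Complex.exp_nat_mul]; congr 1; push_cast; ring

lemma ch_re (t : ℝ) : (ch t).re = Real.cos (2 * Real.pi * t) := by
  rw [ch_eq, Complex.exp_ofReal_mul_I_re]

lemma ch_neg (t : ℝ) : ch (-t) = (starRingEnd ℂ) (ch t) := by
  simp only [ch, ← Complex.exp_conj]; congr 1; simp [map_ofNat]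

lemma continuous_ch : Continuous ch := by unfold ch; fun_prop

lemma fourier_eq_ch (n : ℤ) (t : ℝ) : fourier (T := 1) n (t : AddCircle (1 : ℝ)) = ch (n * t) := by
  rw [fourier_coe_apply, ch]; congr 1; push_cast; ring

variable {Ω : Type*} [MeasurableSpace Ω] {P : Measure Ω} [IsProbabilityMeasure P]

lemma integrable_aux {Y : Ω → ℝ} (hY : Measurable Y) (N : ℕ) (F : C(AddCircle (1 : ℝ), ℂ)) :
    Integrable (fun ω => ch (N * Y ω) * F (Y ω : AddCircle (1 : ℝ))) P := by
  have hc : Continuous (fun t : ℝ => ch (N * t) * F (t : AddCircle (1 : ℝ))) := by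
    apply Continuous.mul
    · exact continuous_ch.comp (by fun_prop)
    · exact F.continuous.comp (AddCircle.continuous_mk' 1)
  refine Integrable.of_bound (hc.measurable.comp hY).aestronglyMeasurable ‖F‖ ?_
  refine Eventually.of_forall fun ω => ?_
  rw [norm_mul, norm_ch, one_mul]
  exact F.norm_coe_le_norm _

/-- If the Fourier coefficients of the law of `Y` tend to zero, so do those of any continuous
density against it. -/
lemma tendsto_mul_continuous {Y : Ω → ℝ} (hY : Measurable Y)
    (h0 : Tendsto (fun N : ℕ => ∫ ω, ch (N * Y ω) ∂P) atTop (𝓝 0))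
    (F : C(AddCircle (1 : ℝ), ℂ)) :
    Tendsto (fun N : ℕ => ∫ ω, ch (N * Y ω) * F (Y ω : AddCircle (1 : ℝ)) ∂P) atTop (𝓝 0) := by
  have : Fact (0 < (1 : ℝ)) := ⟨one_pos⟩
  let S : Submodule ℂ C(AddCircle (1 : ℝ), ℂ) :=
    { carrier := {G | Tendsto (fun N : ℕ => ∫ ω, ch (N * Y ω) * G (Y ω : AddCircle (1 : ℝ)) ∂P)
        atTop (𝓝 0)}
      add_mem' := by
        intro G H hG hH
        have := Tendsto.add hG hH
        rw [add_zero] at this
        refine this.congr fun N => ?_
        rw [← integral_add (integrable_aux hY N G) (integrable_aux hY N H)]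
        congr 1; funext ω; simp [mul_add]
      zero_mem' := by simp
      smul_mem' := by
        intro c G hG
        have := Tendsto.const_mul c hG
        rw [mul_zero] at this
        refine this.congr fun N => ?_
        rw [← integral_const_mul]
        congr 1; funext ω; simp; ring }
  have hclosed : IsClosed (S : Set C(AddCircle (1 : ℝ), ℂ)) := by
    rw [← closure_subset_iff_isClosed]
    intro G hG
    show Tendsto (fun N : ℕ => ∫ ω, ch (N * Y ω) * G (Y ω : AddCircle (1 : ℝ)) ∂P) atTop (𝓝 0)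
    rw [Metric.tendsto_atTop]
    intro ε hε
    obtain ⟨H, hH, hGH⟩ := Metric.mem_closure_iff.1 hG (ε / 2) (by linarith)
    have hH' : Tendsto (fun N : ℕ => ∫ ω, ch (N * Y ω) * H (Y ω : AddCircle (1 : ℝ)) ∂P)
      atTop (𝓝 0) := hH
    obtain ⟨N0, hN0⟩ := Metric.tendsto_atTop.1 hH' (ε / 2) (by linarith)
    refine ⟨N0, fun N hN => ?_⟩
    have h1 := hN0 N hN
    rw [dist_zero_right] at h1 ⊢
    have h2 : ∫ ω, ch (N * Y ω) * G (Y ω : AddCircle (1 : ℝ)) ∂P =
        ∫ ω, ch (N * Y ω) * H (Y ω : AddCircle (1 : ℝ)) ∂P +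
        ∫ ω, ch (N * Y ω) * (G - H) (Y ω : AddCircle (1 : ℝ)) ∂P := by
      rw [← integral_add (integrable_aux hY N H) (integrable_aux hY N (G - H))]
      congr 1; funext ω; simp; ring
    have h3 : ‖∫ ω, ch (N * Y ω) * (G - H) (Y ω : AddCircle (1 : ℝ)) ∂P‖ ≤ ‖G - H‖ := by
      have := norm_integral_le_of_norm_le_const (μ := P)
        (f := fun ω => ch (N * Y ω) * (G - H) (Y ω : AddCircle (1 : ℝ))) (C := ‖G - H‖)
        (Eventually.of_forall fun ω => by
          rw [norm_mul, norm_ch, one_mul]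
          exact (G - H).norm_coe_le_norm _)
      simpa using this
    rw [dist_eq_norm] at hGH
    rw [h2]
    calc _ ≤ _ := norm_add_le _ _
      _ < ε / 2 + ε / 2 := add_lt_add h1 (h3.trans_lt hGH)
      _ = ε := by ring
  have hspan : Submodule.span ℂ (Set.range (fourier (T := 1))) ≤ S := by
    rw [Submodule.span_le]
    rintro _ ⟨k, rfl⟩
    show Tendsto (fun N : ℕ => ∫ ω, ch (N * Y ω) * fourier (T := 1) k (Y ω : AddCircle (1 : ℝ)) ∂P)
      atTop (𝓝 0)
    have ht : Tendsto (fun N : ℕ => ((N : ℤ) + k).toNat) atTop atTop := by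
      rw [tendsto_atTop_atTop]
      intro b
      exact ⟨b + k.natAbs, fun a ha => by omega⟩
    refine (h0.comp ht).congr' ?_
    filter_upwards [eventually_ge_atTop k.natAbs] with N hN
    simp only [Function.comp]
    congr 1; funext ω
    rw [fourier_eq_ch, ← ch_add]
    congr 1
    have : ((((N : ℤ) + k).toNat : ℤ) : ℝ) = (((N : ℤ) + k : ℤ) : ℝ) := by
      congr 1; omega
    push_cast at this
    rw [this]; ring
  have := Submodule.topologicalClosure_minimal _ hspan hclosed
  rw [span_fourier_closure_eq_top] at this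
  exact this (Submodule.mem_top (x := F))

lemma two_re_geom {z : ℂ} (hz : ‖z‖ = 1) (hz1 : z ≠ 1) (N : ℕ) :
    2 * (∑ n ∈ Finset.range N, z ^ n).re - 1 = 2 * (z ^ N * (z - 1)⁻¹).re := by
  rw [geom_sum_eq hz1]
  have h1 : (z ^ N - 1) / (z - 1) = z ^ N * (z - 1)⁻¹ - (z - 1)⁻¹ := by
    rw [div_eq_mul_inv]; ring
  have h2 : ((z - 1)⁻¹).re = -1 / 2 := by
    rw [Complex.inv_re]
    have h3 : Complex.normSq z = 1 := by rw [Complex.normSq_eq_norm_sq, hz]; norm_num
    have h4 : Complex.normSq (z - 1) ≠ 0 := by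
      rw [Ne, Complex.normSq_eq_zero, sub_eq_zero]; exact hz1
    rw [div_eq_div_iff h4 (by norm_num)]
    rw [Complex.normSq_apply] at h3 ⊢
    simp only [Complex.sub_re, Complex.one_re, Complex.sub_im, Complex.one_im]
    nlinarith
  rw [h1, Complex.sub_re, h2]; ring

/-- Localisation: the Fourier series of the law of `X` tends to zero at a point `x` that stays
away from the values of `X` modulo one, provided the Fourier coefficients tend to zero. -/
lemma tendsto_series {X : Ω → ℝ} (hX : Measurable X)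
    (h0 : Tendsto (fun N : ℕ => ∫ ω, ch (N * X ω) ∂P) atTop (𝓝 0))
    (x δ : ℝ) (hδ : 0 < δ) (hx : ∀ ω, δ ≤ ‖ch (x - X ω) - 1‖) :
    Tendsto (fun N : ℕ => ∑ n ∈ Finset.range N,
      ((2 * (∫ ω, Real.cos (2 * Real.pi * n * X ω) ∂P) - if n = 0 then 1 else 0) *
          Real.cos (2 * Real.pi * n * x) +
        (2 * ∫ ω, Real.sin (2 * Real.pi * n * X ω) ∂P) * Real.sin (2 * Real.pi * n * x)))
      atTop (𝓝 0) := by
  have : Fact (0 < (1 : ℝ)) := ⟨one_pos⟩
  let Y : Ω → ℝ := fun ω => x - X ω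
  have hY : Measurable Y := measurable_const.sub hX
  have hY0 : Tendsto (fun N : ℕ => ∫ ω, ch (N * Y ω) ∂P) atTop (𝓝 0) := by
    rw [tendsto_zero_iff_norm_tendsto_zero] at h0 ⊢
    refine h0.congr fun N => ?_
    have : ∀ ω, ch (N * Y ω) = ch (N * x) * (starRingEnd ℂ) (ch (N * X ω)) := by
      intro ω
      rw [← ch_neg, ← ch_add]; congr 1; simp only [Y]; ring
    simp_rw [this]
    rw [integral_const_mul, integral_conj, norm_mul, norm_ch, one_mul, RCLike.norm_conj]
  let F : C(AddCircle (1 : ℝ), ℂ) :=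
    ⟨fun t => (starRingEnd ℂ) (fourier (T := 1) 1 t - 1) /
        ((max (‖fourier (T := 1) 1 t - 1‖ ^ 2) (δ ^ 2) : ℝ) : ℂ), by
      apply Continuous.div
      · fun_prop
      · fun_prop
      · intro t
        have : 0 < max (‖fourier (T := 1) 1 t - 1‖ ^ 2) (δ ^ 2) :=
          lt_max_of_lt_right (by positivity)
        exact_mod_cast this.ne'⟩
  have hne : ∀ ω, ch (Y ω) ≠ 1 := by
    intro ω h
    have := hx ω
    simp only [Y] at h
    rw [h, sub_self, norm_zero] at this
    linarith
  have hF : ∀ ω, F (Y ω : AddCircle (1 : ℝ)) = (ch (Y ω) - 1)⁻¹ := by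
    intro ω
    simp only [F, ContinuousMap.coe_mk, fourier_eq_ch, Int.cast_one, one_mul]
    have h1 : δ ^ 2 ≤ ‖ch (Y ω) - 1‖ ^ 2 := pow_le_pow_left₀ hδ.le (hx ω) 2
    rw [max_eq_left h1, Complex.inv_def, Complex.normSq_eq_norm_sq, div_eq_mul_inv]
    push_cast; rfl
  have h1 := tendsto_mul_continuous (P := P) hY hY0 F
  have h2 : Tendsto (fun N : ℕ =>
      2 * (∫ ω, ch (N * Y ω) * F (Y ω : AddCircle (1 : ℝ)) ∂P).re) atTop (𝓝 0) := by
    have := ((Complex.continuous_re.tendsto 0).comp h1).const_mul 2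
    simpa using this
  refine h2.congr' ?_
  filter_upwards [eventually_ge_atTop 1] with N hN
  have hcos : ∀ n : ℕ, Integrable (fun ω => Real.cos (2 * Real.pi * n * X ω)) P := fun n =>
    Integrable.of_bound (by fun_prop) 1
      (Eventually.of_forall fun ω => by simpa using Real.abs_cos_le_one _)
  have hsin : ∀ n : ℕ, Integrable (fun ω => Real.sin (2 * Real.pi * n * X ω)) P := fun n =>
    Integrable.of_bound (by fun_prop) 1
      (Eventually.of_forall fun ω => by simpa using Real.abs_sin_le_one _)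
  have hterm : ∀ n : ℕ,
      ((2 * (∫ ω, Real.cos (2 * Real.pi * n * X ω) ∂P) - if n = 0 then 1 else 0) *
          Real.cos (2 * Real.pi * n * x) +
        (2 * ∫ ω, Real.sin (2 * Real.pi * n * X ω) ∂P) * Real.sin (2 * Real.pi * n * x)) =
      (∫ ω, 2 * (ch (Y ω) ^ n).re ∂P) - if n = 0 then 1 else 0 := by
    intro n
    have h3 : ∀ ω, 2 * (ch (Y ω) ^ n).re =
        Real.cos (2 * Real.pi * n * X ω) * (2 * Real.cos (2 * Real.pi * n * x)) +
        Real.sin (2 * Real.pi * n * X ω) * (2 * Real.sin (2 * Real.pi * n * x)) := by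
      intro ω
      rw [← ch_nat_mul, ch_re]
      have : 2 * Real.pi * (n * Y ω) = 2 * Real.pi * n * x - 2 * Real.pi * n * X ω := by
        simp only [Y]; ring
      rw [this, Real.cos_sub]; ring
    simp_rw [h3]
    rw [integral_add ((hcos n).mul_const _) ((hsin n).mul_const _), integral_mul_const,
      integral_mul_const]
    split_ifs with hn
    · subst hn; simp
    · ring
  have hint : ∀ n : ℕ, Integrable (fun ω => 2 * (ch (Y ω) ^ n).re) P := by
    intro n
    have hc : Continuous (fun t : ℝ => 2 * (ch t ^ n).re) := by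
      have := continuous_ch
      fun_prop
    refine Integrable.of_bound (hc.measurable.comp hY).aestronglyMeasurable 2
      (Eventually.of_forall fun ω => ?_)
    have h4 : |(ch (Y ω) ^ n).re| ≤ 1 := by
      refine (Complex.abs_re_le_norm _).trans ?_
      rw [norm_pow, norm_ch, one_pow]
    rw [Real.norm_eq_abs, abs_mul, abs_two]
    linarith
  simp_rw [hterm]
  rw [Finset.sum_sub_distrib, ← integral_finsetSum _ (fun n _ => hint n)]
  have h5 : ∑ n ∈ Finset.range N, (if n = 0 then (1 : ℝ) else 0) = 1 := by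
    rw [Finset.sum_ite_eq']
    simp; omega
  rw [h5]
  have h6 : (∫ ω, ∑ n ∈ Finset.range N, 2 * (ch (Y ω) ^ n).re ∂P) - 1 =
      ∫ ω, (∑ n ∈ Finset.range N, 2 * (ch (Y ω) ^ n).re - 1) ∂P := by
    rw [integral_sub (integrable_finsetSum _ (fun n _ => hint n)) (integrable_const _)]
    simp
  rw [h6]
  have h7 := integral_re (μ := P) (integrable_aux hY N F)
  simp only [RCLike.re_to_complex] at h7
  rw [← h7, ← integral_const_mul]
  congr 1; funext ω
  rw [hF, ch_nat_mul, ← two_re_geom (norm_ch _) (hne ω), Complex.re_sum, Finset.mul_sum]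

end Pool.Agent.Lib.MP_c7f57c_an
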