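import Pool.Agent.Lib.MP_c7f57c_an.Riemann
import Pool.Agent.Lib.MP_c7f57c_an.Localise

set_option autoImplicit false

namespace Pool.Agent.Lib.MP_c7f57c_an.Uniq

open Filter Topology MeasureTheory

/-- the `n`-th term of the trigonometric series -/
noncomputable def tm (a b : ℕ → ℝ) (n : ℕ) (x : ℝ) : ℝ :=
  a n * Real.cos (2 * Real.pi * n * x) + b n * Real.sin (2 * Real.pi * n * x)

lemma continuous_tm (a b : ℕ → ℝ) (n : ℕ) : Continuous (tm a b n) := by unfold tm; fun_prop

lemma abs_tm_le (a b : ℕ → ℝ) (n : ℕ) (x : ℝ) : |tm a b n x| ≤ |a n| + |b n| := by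
  refine (abs_add_le _ _).trans (add_le_add ?_ ?_) <;> rw [abs_mul]
  · exact mul_le_of_le_one_right (abs_nonneg _) (Real.abs_cos_le_one _)
  · exact mul_le_of_le_one_right (abs_nonneg _) (Real.abs_sin_le_one _)

lemma tm_quarter (a b : ℕ → ℝ) {n : ℕ} (hn : n ≠ 0) (x : ℝ) :
    tm a b n x ^ 2 + tm a b n (x + 1 / (4 * n)) ^ 2 = a n ^ 2 + b n ^ 2 := by
  have hn' : (n : ℝ) ≠ 0 := by exact_mod_cast hn
  have e : 2 * Real.pi * n * (x + 1 / (4 * n)) = 2 * Real.pi * n * x + Real.pi / 2 := by
    field_simp; ring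
  simp only [tm, e, Real.cos_add_pi_div_two, Real.sin_add_pi_div_two]
  linear_combination (a n ^ 2 + b n ^ 2) * Real.sin_sq_add_cos_sq (2 * Real.pi * n * x)

/-- Cantor-Lebesgue on an interval. -/
lemma cantor_lebesgue {a b : ℕ → ℝ} {u v : ℝ} (huv : u < v)
    (h : ∀ x ∈ Set.Ioo u v, Tendsto (fun n => tm a b n x) atTop (𝓝 0)) :
    Tendsto (fun n => |a n| + |b n|) atTop (𝓝 0) := by
  set r : ℕ → ℝ := fun n => a n ^ 2 + b n ^ 2 with hr
  have hr0 : ∀ n, 0 ≤ r n := fun n => by positivity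
  have hle : ∀ n, n ≠ 0 → ∀ x, tm a b n x ^ 2 ≤ r n := fun n hn x => by
    have := tm_quarter a b hn x
    simp only [hr]; nlinarith [sq_nonneg (tm a b n (x + 1 / (4 * n)))]
  have h1 : Tendsto (fun n => ∫ x in u..v, tm a b n x ^ 2 / (1 + r n)) atTop (𝓝 0) := by
    have := intervalIntegral.tendsto_integral_filter_of_dominated_convergence (μ := volume)
      (l := atTop) (a := u) (b := v) (F := fun n x => tm a b n x ^ 2 / (1 + r n))
      (f := fun _ => (0 : ℝ)) (fun _ => 1)
      (Eventually.of_forall fun n =>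
        (((continuous_tm a b n).pow 2).div_const _).aestronglyMeasurable)
      (by
        filter_upwards [eventually_ne_atTop 0] with n hn
        refine Eventually.of_forall fun x _ => ?_
        rw [Real.norm_eq_abs, abs_of_nonneg (div_nonneg (sq_nonneg _) (by linarith [hr0 n])),
          div_le_one (by linarith [hr0 n])]
        linarith [hle n hn x])
      intervalIntegrable_const
      (by
        filter_upwards [Measure.ae_ne volume v] with x hx hx'
        rw [Set.uIoc_of_le huv.le] at hx'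
        have h2 := (h x ⟨hx'.1, lt_of_le_of_ne hx'.2 hx⟩).pow 2
        rw [zero_pow two_ne_zero] at h2
        refine squeeze_zero (fun n => div_nonneg (sq_nonneg _) (by linarith [hr0 n]))
          (fun n => div_le_self (sq_nonneg _) (by linarith [hr0 n])) h2)
    simpa using this
  have h2 : ∀ᶠ n : ℕ in atTop, r n / (1 + r n) ≤
      4 / (v - u) * ∫ x in u..v, tm a b n x ^ 2 / (1 + r n) := by
    obtain ⟨N, hN⟩ := exists_nat_gt (1 / (v - u))
    filter_upwards [eventually_ge_atTop (N + 1)] with n hn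
    have hn0 : n ≠ 0 := by omega
    have hn1 : (N : ℝ) + 1 ≤ n := by exact_mod_cast hn
    have hnp : (0 : ℝ) < n := by positivity
    have hvu : 0 < v - u := by linarith
    have hs : 1 / (4 * (n : ℝ)) ≤ (v - u) / 2 := by
      rw [div_lt_iff₀ hvu] at hN
      rw [div_le_div_iff₀ (by positivity) two_pos]
      nlinarith
    have hs0 : 0 < 1 / (4 * (n : ℝ)) := by positivity
    set m := (u + v) / 2 with hm
    have hc : Continuous fun x => tm a b n x ^ 2 := (continuous_tm a b n).pow 2
    have i1 : ∫ x in u..m, tm a b n x ^ 2 ≤ ∫ x in u..v, tm a b n x ^ 2 :=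
      intervalIntegral.integral_mono_interval le_rfl (by linarith) (by linarith)
        (Eventually.of_forall fun x => sq_nonneg _) (hc.intervalIntegrable _ _)
    have i2 : ∫ x in u..m, tm a b n (x + 1 / (4 * n)) ^ 2 ≤ ∫ x in u..v, tm a b n x ^ 2 := by
      rw [intervalIntegral.integral_comp_add_right (fun x => tm a b n x ^ 2)]
      exact intervalIntegral.integral_mono_interval (by linarith) (by linarith) (by linarith)
        (Eventually.of_forall fun x => sq_nonneg _) (hc.intervalIntegrable _ _)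
    have i3 : (∫ x in u..m, tm a b n x ^ 2) + ∫ x in u..m, tm a b n (x + 1 / (4 * n)) ^ 2 =
        (m - u) * r n := by
      have hc2 : Continuous fun x => tm a b n (x + 1 / (4 * n)) ^ 2 :=
        hc.comp (by fun_prop : Continuous fun x : ℝ => x + 1 / (4 * (n : ℝ)))
      rw [← intervalIntegral.integral_add (hc.intervalIntegrable _ _)
        (hc2.intervalIntegrable _ _)]
      simp_rw [tm_quarter a b hn0]
      simp [hr, mul_add]
    rw [intervalIntegral.integral_div, ← mul_div_assoc]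
    refine div_le_div_of_nonneg_right ?_ (by linarith [hr0 n])
    rw [div_mul_eq_mul_div, le_div_iff₀ hvu]
    have : m - u = (v - u) / 2 := by rw [hm]; ring
    rw [this] at i3
    linarith
  have h3 : Tendsto (fun n => r n / (1 + r n)) atTop (𝓝 0) := by
    refine squeeze_zero' (Eventually.of_forall fun n =>
      div_nonneg (hr0 n) (by linarith [hr0 n])) h2 ?_
    simpa using h1.const_mul (4 / (v - u))
  have h4 : Tendsto r atTop (𝓝 0) := by
    have h5 := h3.div (h3.const_sub 1) (by norm_num)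
    rw [zero_div] at h5
    refine h5.congr fun n => ?_
    have : 1 + r n ≠ 0 := by linarith [hr0 n]
    simp only [Pi.div_apply]
    field_simp
    ring
  have h5 := (h4.sqrt).const_mul 2
  rw [Real.sqrt_zero, mul_zero] at h5
  refine squeeze_zero (fun n => by positivity) (fun n => ?_) h5
  have b1 : |a n| ≤ √(r n) := Real.abs_le_sqrt (by simp only [hr]; nlinarith [sq_nonneg (b n)])
  have b2 : |b n| ≤ √(r n) := Real.abs_le_sqrt (by simp only [hr]; nlinarith [sq_nonneg (a n)])
  linarith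

/-- Riemann's twice integrated series. -/
noncomputable def RF (a b : ℕ → ℝ) (x : ℝ) : ℝ :=
  a 0 * x ^ 2 / 2 - ∑' n : ℕ, tm a b n x / (2 * Real.pi * n) ^ 2

lemma summable_maj (C : ℝ) : Summable fun n : ℕ => C / (2 * Real.pi * n) ^ 2 := by
  have := (Real.summable_one_div_nat_pow.2 one_lt_two).mul_left (C / (2 * Real.pi) ^ 2)
  refine this.congr fun n => ?_
  rw [mul_pow (2 * Real.pi), mul_one_div, div_div]

lemma norm_RF_term {a b : ℕ → ℝ} {C : ℝ} (hC : ∀ n, |a n| + |b n| ≤ C) (n : ℕ) (x : ℝ) :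
    ‖tm a b n x / (2 * Real.pi * n) ^ 2‖ ≤ C / (2 * Real.pi * n) ^ 2 := by
  rw [Real.norm_eq_abs, abs_div, abs_of_nonneg (sq_nonneg (2 * Real.pi * n))]
  exact div_le_div_of_nonneg_right ((abs_tm_le a b n x).trans (hC n)) (sq_nonneg _)

lemma continuous_RF {a b : ℕ → ℝ} {C : ℝ} (hC : ∀ n, |a n| + |b n| ≤ C) : Continuous (RF a b) := by
  unfold RF
  exact (by fun_prop : Continuous fun x : ℝ => a 0 * x ^ 2 / 2).sub
    (continuous_tsum (fun n => (continuous_tm a b n).div_const _) (summable_maj C)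
      (norm_RF_term hC))

lemma RF_diff {a b : ℕ → ℝ} {C : ℝ} (hC : ∀ n, |a n| + |b n| ≤ C) (x : ℝ) {t : ℝ} (ht : 0 < t) :
    (RF a b (x + t) + RF a b (x - t) - 2 * RF a b x) / t ^ 2 =
      ∑' n : ℕ, tm a b n x * Real.sinc (n * (Real.pi * t)) ^ 2 := by
  have hs : ∀ y, Summable fun n : ℕ => tm a b n y / (2 * Real.pi * n) ^ 2 := fun y =>
    Summable.of_norm_bounded (summable_maj C) fun n => norm_RF_term hC n y
  have h1 := ((((hs (x + t)).hasSum.add (hs (x - t)).hasSum).sub
    ((hs x).hasSum.mul_left 2)).div_const (t ^ 2)).neg.add (hasSum_ite_eq 0 (a 0))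
  have h2 : ∀ n : ℕ, -((tm a b n (x + t) / (2 * Real.pi * n) ^ 2 +
      tm a b n (x - t) / (2 * Real.pi * n) ^ 2 - 2 * (tm a b n x / (2 * Real.pi * n) ^ 2)) /
      t ^ 2) + (if n = 0 then a 0 else 0) = tm a b n x * Real.sinc (n * (Real.pi * t)) ^ 2 := by
    intro n
    by_cases hn : n = 0
    · simp [hn, tm]
    · have hn' : (n : ℝ) ≠ 0 := by exact_mod_cast hn
      have hp := Real.pi_pos
      rw [if_neg hn, add_zero, Real.sinc_of_ne_zero (by positivity)]
      have e1 : 2 * Real.pi * n * (x + t) = 2 * Real.pi * n * x + 2 * (n * (Real.pi * t)) := by ring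
      have e2 : 2 * Real.pi * n * (x - t) = 2 * Real.pi * n * x - 2 * (n * (Real.pi * t)) := by ring
      have e3 := Real.cos_two_mul_eq_one_sub (n * (Real.pi * t))
      simp only [tm, e1, e2, Real.cos_add, Real.sin_add, Real.cos_sub, Real.sin_sub, e3]
      field_simp
      ring
  simp_rw [h2] at h1
  rw [h1.tsum_eq]
  simp only [RF]
  field_simp
  ring

lemma gap_zero {a b : ℕ → ℝ} {C : ℝ} (hC : ∀ n, |a n| + |b n| ≤ C) {u v : ℝ}
    (h : ∀ x ∈ Set.Ioo u v, Tendsto (fun N => ∑ n ∈ Finset.range N, tm a b n x) atTop (𝓝 0))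
    (x t : ℝ) (ht : 0 < t) (h1 : u ≤ x - t) (h2 : x + t ≤ v) :
    ∑' n : ℕ, tm a b n x * Real.sinc (n * (Real.pi * t)) ^ 2 = 0 := by
  rw [← RF_diff hC x ht, schwarz (continuous_RF hC) (fun y hy => ?_) x t ht h1 h2, zero_div]
  have hp : Tendsto (fun s : ℝ => Real.pi * s) (𝓝[>] 0) (𝓝[>] 0) := by
    refine tendsto_nhdsWithin_iff.2 ⟨?_, ?_⟩
    · have : Tendsto (fun s : ℝ => Real.pi * s) (𝓝 0) (𝓝 (Real.pi * 0)) :=
        (by fun_prop : Continuous fun s : ℝ => Real.pi * s).tendsto 0
      rw [mul_zero] at this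
      exact this.mono_left nhdsWithin_le_nhds
    · filter_upwards [self_mem_nhdsWithin] with s hs
      exact mul_pos Real.pi_pos hs
  refine ((riemann (h y hy)).comp hp).congr' ?_
  filter_upwards [self_mem_nhdsWithin] with s hs
  exact (RF_diff hC y hs).symm

lemma sum_ch_grid {Q : ℕ} (hQ : 0 < Q) (y : ℝ) {m : ℤ} (hm : ¬ (Q : ℤ) ∣ m) :
    ∑ r ∈ Finset.range Q, ch (m * ((r + y) / Q)) = 0 := by
  have hQ' : (Q : ℝ) ≠ 0 := by exact_mod_cast hQ.ne'
  have e : ∀ r : ℕ, ch (m * ((r + y) / Q)) = ch (m * y / Q) * ch (m / Q) ^ r := fun r => by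
    rw [← ch_nat_mul, ← ch_add]; congr 1; ring
  simp_rw [e]
  have h1 : ch (m / Q) ^ Q = 1 := by
    rw [← ch_nat_mul, mul_div_cancel₀ _ hQ', ch, Complex.exp_eq_one_iff]
    exact ⟨m, by push_cast; ring⟩
  have h2 : ch (m / Q) ≠ 1 := by
    intro h
    rw [ch, Complex.exp_eq_one_iff] at h
    obtain ⟨k, hk⟩ := h
    have h3 : ((m / Q : ℝ) : ℂ) = (k : ℂ) :=
      mul_left_cancel₀ Complex.two_pi_I_ne_zero (by rw [hk]; ring)
    have h4 : (m / Q : ℝ) = k := by exact_mod_cast h3
    rw [div_eq_iff hQ'] at h4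
    exact hm ⟨k, by rw [mul_comm]; exact_mod_cast h4⟩
  rw [← Finset.mul_sum, geom_sum_eq h2, h1, sub_self, zero_div, mul_zero]

lemma tm_mul_ch (a b : ℕ → ℝ) (n j : ℕ) (x : ℝ) :
    (tm a b n x : ℂ) * ch (-(j * x)) =
      ((a n - b n * Complex.I) / 2) * ch (((n : ℤ) - j : ℤ) * x) +
      ((a n + b n * Complex.I) / 2) * ch ((-((n : ℤ) + j) : ℤ) * x) := by
  have e1 : ch (((n : ℤ) - j : ℤ) * x) = ch (n * x) * ch (-(j * x)) := by
    rw [← ch_add]; congr 1; push_cast; ring
  have e2 : ch ((-((n : ℤ) + j) : ℤ) * x) = ch (-(n * x)) * ch (-(j * x)) := by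
    rw [← ch_add]; congr 1; push_cast; ring
  have e3 : ∀ s : ℝ, ch s = (Real.cos (2 * Real.pi * s) : ℝ) +
      (Real.sin (2 * Real.pi * s) : ℝ) * Complex.I := fun s => by
    rw [ch_eq, Complex.exp_mul_I, Complex.ofReal_cos, Complex.ofReal_sin]
  rw [e1, e2, e3 (n * x), e3 (-(n * x)), mul_neg, Real.cos_neg, Real.sin_neg,
    ← mul_assoc (2 * Real.pi), tm]
  generalize Real.cos (2 * Real.pi * n * x) = c
  generalize Real.sin (2 * Real.pi * n * x) = s
  push_cast
  linear_combination (b n * s * ch (-(j * x))) * Complex.I_sq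

/-- Rajchman: a series that tends to zero on the intervals `((r + α) / Q, (r + β) / Q)`, `r < Q`,
for arbitrarily large `Q` vanishes. -/
theorem hset {a b : ℕ → ℝ} {α β : ℝ} (hαβ : α < β)
    (h : ∀ N : ℕ, ∃ Q : ℕ, N ≤ Q ∧ ∀ r : ℕ, r < Q → ∀ x ∈ Set.Ioo ((r + α) / Q) ((r + β) / Q),
      Tendsto (fun N => ∑ n ∈ Finset.range N, tm a b n x) atTop (𝓝 0)) :
    (∀ n, a n = 0) ∧ ∀ n, 1 ≤ n → b n = 0 := by
  have hCL : Tendsto (fun n => |a n| + |b n|) atTop (𝓝 0) := by
    obtain ⟨Q, hQ, hQ'⟩ := h 1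
    refine cantor_lebesgue (u := ((0 : ℕ) + α) / Q) (v := ((0 : ℕ) + β) / Q)
      (div_lt_div_of_pos_right (by linarith) (by positivity)) fun x hx => ?_
    have h1 := hQ' 0 hQ x hx
    have h2 := (h1.comp (tendsto_add_atTop_nat 1)).sub h1
    rw [sub_zero] at h2
    exact h2.congr fun n => by simp [Finset.sum_range_succ]
  obtain ⟨C, hC⟩ : ∃ C, ∀ n, |a n| + |b n| ≤ C := by
    obtain ⟨B, hB⟩ := hCL.bddAbove_range
    exact ⟨B, fun n => hB ⟨n, rfl⟩⟩
  set η := (β - α) / 2 with hη
  have hη0 : 0 < η := by rw [hη]; linarith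
  set y := (α + β) / 2 with hy
  have hp := Real.pi_pos
  have hz : Summable fun l : ℕ => 1 / ((l + 1 : ℕ) : ℝ) ^ 2 :=
    (summable_nat_add_iff 1).2 (Real.summable_one_div_nat_pow.2 one_lt_two)
  set Z := ∑' l : ℕ, 1 / ((l + 1 : ℕ) : ℝ) ^ 2 with hZ
  have hZ0 : 0 ≤ Z := tsum_nonneg fun l => by positivity
  have main : ∀ j : ℕ, (if j = 0 then (a 0 : ℂ) else (a j - b j * Complex.I) / 2) = 0 := by
    intro j
    set d : ℂ := if j = 0 then (a 0 : ℂ) else (a j - b j * Complex.I) / 2 with hd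
    rw [← norm_le_zero_iff]
    refine le_of_forall_pos_le_add fun ε hε => ?_
    rw [zero_add]
    set K := 32 * Z / (Real.pi * η) ^ 2 + 1 with hK
    have hK0 : 0 < K := by positivity
    obtain ⟨N, hN⟩ := eventually_atTop.1 (hCL.eventually (gt_mem_nhds (div_pos hε hK0)))
    obtain ⟨N1, hN1⟩ := exists_nat_gt (2 * (j * (Real.pi * η)))
    obtain ⟨Q, hQ, hQ'⟩ := h (2 * N + 2 * j + N1 + 1)
    have hQ0 : 0 < Q := by omega
    have hQr : (0 : ℝ) < Q := by exact_mod_cast hQ0
    set w : ℕ → ℝ := fun n => Real.sinc (n * (Real.pi * (η / Q))) ^ 2 with hw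
    set T : ℕ → ℂ := fun n => ∑ r ∈ Finset.range Q,
      (tm a b n ((r + y) / Q) : ℂ) * ch (-(j * ((r + y) / Q))) with hT
    have hsum : HasSum (fun n => T n * w n) 0 := by
      have h1 : ∀ r ∈ Finset.range Q, HasSum (fun n => (tm a b n ((r + y) / Q) : ℂ) *
          ch (-(j * ((r + y) / Q))) * w n) 0 := by
        intro r hr
        have h2 := (summable_sinc (u := fun n => tm a b n ((r + y) / Q)) (C := C)
          (fun n => (abs_tm_le a b n _).trans (hC n))
          (show 0 < Real.pi * (η / Q) by positivity)).hasSum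
        rw [gap_zero hC (hQ' r (Finset.mem_range.1 hr)) _ _ (by positivity)
          (le_of_eq (by rw [hy, hη]; ring)) (le_of_eq (by rw [hy, hη]; ring))] at h2
        have h3 := (Complex.hasSum_ofReal.2 h2).mul_right (ch (-(j * ((r + y) / Q))))
        rw [Complex.ofReal_zero, zero_mul] at h3
        have e : (fun n => (tm a b n ((r + y) / Q) : ℂ) * ch (-(j * ((r + y) / Q))) * w n) =
            fun n => ((tm a b n ((r + y) / Q) * w n : ℝ) : ℂ) * ch (-(j * ((r + y) / Q))) :=
          funext fun n => by push_cast; ring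
        rw [e]
        exact h3
      have := hasSum_sum h1
      rw [Finset.sum_const_zero] at this
      simpa only [hT, Finset.sum_mul] using this
    have hTe : ∀ n : ℕ, T n =
        ((a n - b n * Complex.I) / 2) *
          ∑ r ∈ Finset.range Q, ch (((n : ℤ) - j : ℤ) * ((r + y) / Q)) +
        ((a n + b n * Complex.I) / 2) *
          ∑ r ∈ Finset.range Q, ch ((-((n : ℤ) + j) : ℤ) * ((r + y) / Q)) := fun n => by
      simp only [hT, tm_mul_ch, Finset.sum_add_distrib, Finset.mul_sum]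
    have hTj : T j = Q * d := by
      rw [hTe, hd]
      split_ifs with h0
      · subst h0; simp [ch_zero]; ring
      · rw [sum_ch_grid hQ0 y (m := -((j : ℤ) + j)) (fun hm => ?_)]
        · simp [ch_zero]; ring
        · have := Int.le_of_dvd (by omega) ((dvd_neg).1 hm)
          omega
    have hTle : ∀ n, ‖T n‖ ≤ Q * (|a n| + |b n|) := fun n => by
      refine (norm_sum_le _ _).trans ((Finset.sum_le_card_nsmul _ _ (|a n| + |b n|)
        fun r _ => ?_).trans (by simp [mul_add]))
      rw [norm_mul, norm_ch, mul_one, Complex.norm_real, Real.norm_eq_abs]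
      exact abs_tm_le a b n _
    set B : ℝ := Q * (ε / K) * (4 / (Real.pi * η) ^ 2) with hB
    have hB0 : 0 ≤ B := by positivity
    have hbd : ∀ n l : ℕ, (l + 1) * Q ≤ 2 * n →
        ‖T n * w n‖ ≤ B * (1 / ((l + 1 : ℕ) : ℝ) ^ 2) := fun n l hl => by
      have hn : N ≤ n := by nlinarith
      have hl' : ((l + 1 : ℕ) : ℝ) * Q ≤ 2 * n := by exact_mod_cast hl
      have hl0 : (0 : ℝ) < (l + 1 : ℕ) := by positivity
      have hn0 : (0 : ℝ) < n := by nlinarith
      have b1 : ‖T n‖ ≤ Q * (ε / K) := (hTle n).trans (by gcongr; exact (hN n hn).le)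
      have b2 : w n ≤ 4 / (Real.pi * η) ^ 2 * (1 / ((l + 1 : ℕ) : ℝ) ^ 2) := by
        refine (sinc_sq_le (by positivity)).trans ?_
        have e : 4 / (Real.pi * η) ^ 2 * (1 / ((l + 1 : ℕ) : ℝ) ^ 2) =
            1 / (((l + 1 : ℕ) : ℝ) * Q / 2 * (Real.pi * (η / Q))) ^ 2 := by field_simp; ring
        rw [e]
        gcongr
        linarith
      rw [norm_mul, Complex.norm_real, Real.norm_eq_abs, abs_of_nonneg (sq_nonneg _), hB,
        mul_assoc (Q * (ε / K))]
      exact mul_le_mul b1 b2 (sq_nonneg _) (by positivity)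
    set g1 : ℕ → ℕ := fun l => (l + 1) * Q + j with hg1
    set g2 : ℕ → ℕ := fun l => (l + 1) * Q - j with hg2
    have i1 : Function.Injective g1 := fun l l' e => by
      simp only [hg1] at e
      have := Nat.eq_of_mul_eq_mul_right hQ0 (Nat.add_right_cancel e)
      omega
    have hjQ : ∀ l : ℕ, 2 * j ≤ (l + 1) * Q := fun l => by nlinarith
    have i2 : Function.Injective g2 := fun l l' e => by
      simp only [hg2] at e
      have h1 := hjQ l
      have h2 := hjQ l'
      have := Nat.eq_of_mul_eq_mul_right hQ0 (show (l + 1) * Q = (l' + 1) * Q by omega)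
      omega
    set p : ℕ → ℝ := fun l => B * (1 / ((l + 1 : ℕ) : ℝ) ^ 2) with hpd
    have hp0 : ∀ (g : ℕ → ℕ) n, 0 ≤ Function.extend g p 0 n := fun g n => by
      classical
      rw [Function.extend_def]
      split_ifs
      · simp only [hpd]; positivity
      · exact le_rfl
    have hps : HasSum p (B * Z) := hz.hasSum.mul_left B
    have hmaj := ((hasSum_extend_zero i1).2 hps).add ((hasSum_extend_zero i2).2 hps)
    have hrest := hasSum_ite_sub_hasSum hsum j
    have hle : ∀ n, ‖if n = j then 0 else T n * w n‖ ≤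
        Function.extend g1 p 0 n + Function.extend g2 p 0 n := fun n => by
      split_ifs with hn
      · rw [norm_zero]; exact add_nonneg (hp0 _ _) (hp0 _ _)
      by_cases d1 : (Q : ℤ) ∣ (n : ℤ) - j
      · obtain ⟨k, hk⟩ := d1
        have hk0 : 1 ≤ k := by
          by_contra hc
          rcases (show k = 0 ∨ k ≤ -1 by omega) with h0 | h0
          · rw [h0] at hk; omega
          · have : (Q : ℤ) * k ≤ Q * (-1) := mul_le_mul_of_nonneg_left h0 (by positivity)
            omega
        obtain ⟨l, rfl⟩ : ∃ l : ℕ, k = (l + 1 : ℕ) := ⟨(k - 1).toNat, by omega⟩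
        have e : n = g1 l := by
          simp only [hg1]; zify; push_cast at hk; linarith
        have := hbd n l (by rw [e]; simp only [hg1]; omega)
        refine this.trans (le_add_of_le_of_nonneg (le_of_eq ?_) (hp0 _ _))
        rw [e, i1.extend_apply]
      by_cases d2 : (Q : ℤ) ∣ -((n : ℤ) + j)
      · obtain ⟨k, hk⟩ := (dvd_neg).1 d2
        have hk0 : 1 ≤ k := by
          by_contra hc
          have : (Q : ℤ) * k ≤ Q * 0 := mul_le_mul_of_nonneg_left (by omega) (by positivity)
          omega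
        obtain ⟨l, rfl⟩ : ∃ l : ℕ, k = (l + 1 : ℕ) := ⟨(k - 1).toNat, by omega⟩
        have e0 : n + j = (l + 1) * Q := by zify; push_cast at hk; linarith
        have e : n = g2 l := by simp only [hg2]; omega
        have := hbd n l (by have := hjQ l; omega)
        refine this.trans (le_add_of_nonneg_of_le (hp0 _ _) (le_of_eq ?_))
        rw [e, i2.extend_apply]
      rw [hTe, sum_ch_grid hQ0 y d1, sum_ch_grid hQ0 y d2]
      simpa using add_nonneg (hp0 g1 n) (hp0 g2 n)
    have hfin := hrest.norm_le_of_bounded hmaj hle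
    have hwj : 1 / 4 ≤ w j := by
      have c1 := sinc_lip (j * (Real.pi * (η / Q))) 0
      rw [Real.sinc_zero, sub_zero, abs_of_nonneg (a := j * (Real.pi * (η / Q)))
        (by positivity)] at c1
      have c2 : j * (Real.pi * (η / Q)) ≤ 1 / 2 := by
        have c3 : (N1 : ℝ) ≤ Q := by exact_mod_cast (show N1 ≤ Q by omega)
        rw [← mul_div_assoc, ← mul_div_assoc, div_le_iff₀ hQr]
        linarith
      have c4 := (abs_le.1 c1).1
      simp only [hw]
      nlinarith
    rw [zero_sub, norm_neg, hTj, norm_mul, norm_mul, Complex.norm_natCast, Complex.norm_real,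
      Real.norm_eq_abs, abs_of_nonneg (sq_nonneg _)] at hfin
    have f1 : Q * ‖d‖ * (1 / 4) ≤ B * Z + B * Z :=
      le_trans (mul_le_mul_of_nonneg_left hwj (by positivity)) hfin
    have f2 : B * Z + B * Z = Q * (ε / K * (K - 1)) * (1 / 4) := by
      rw [hB, hK]; field_simp; ring
    rw [f2] at f1
    have f3 : ‖d‖ ≤ ε / K * (K - 1) :=
      le_of_mul_le_mul_left (le_of_mul_le_mul_right f1 (by norm_num)) hQr
    have f4 : ε / K * (K - 1) = ε - ε / K := by field_simp
    have f5 := div_pos hε hK0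
    linarith
  refine ⟨fun n => ?_, fun n hn => ?_⟩
  · have := main n
    split_ifs at this with h0
    · rw [h0]; exact_mod_cast this
    · simpa using congrArg Complex.re this
  · have := main n
    rw [if_neg (by omega)] at this
    simpa using congrArg Complex.im this

end Pool.Agent.Lib.MP_c7f57c_an.Uniq
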