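import Pool.Agent.Lib.MP_c7f57c_an.Gen
import Pool.Agent.Lib.MP_c7f57c_an.HSet

set_option autoImplicit false

namespace Pool.Agent.Lib.MP_c7f57c_an.Gen

open MeasureTheory Filter Topology

variable {M : ℕ → ℕ}

/-- For unbounded bases one can remove few digits at both ends and still get a null set. -/
lemma exists_removal (hM : ∀ n, 2 ≤ M n) (hb : ¬ BddAbove (Set.range M)) :
    ∃ a c : ℕ → ℕ, (∀ n, c n + 1 + 2 * a n = M n) ∧ (∃ k, 1 ≤ a k) ∧
      Tendsto (fun n => (a n : ℝ) / M n) atTop (𝓝 0) ∧ volume (Set.range (X M a c)) = 0 := by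
  classical
  have hf : ∀ j : ℕ, ∃ᶠ n in atTop, j + 3 ≤ M n := fun j => by
    by_contra hc
    obtain ⟨N, hN⟩ := eventually_atTop.1 (not_frequently.1 hc)
    refine hb ⟨j + 3 + ∑ i ∈ Finset.range N, M i, ?_⟩
    rintro _ ⟨n, rfl⟩
    rcases lt_or_ge n N with h | h
    · have := Finset.single_le_sum (f := M) (fun _ _ => Nat.zero_le _) (Finset.mem_range.2 h)
      omega
    · have := hN n h
      omega
  obtain ⟨φ, hφ, hφM⟩ := extraction_forall_of_frequently hf
  set a : ℕ → ℕ := Function.extend φ (fun j => M (φ j) / (j + 3)) 0 with ha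
  have ha1 : ∀ j, a (φ j) = M (φ j) / (j + 3) := fun j => hφ.injective.extend_apply _ _ j
  have ha0 : ∀ n, (¬ ∃ j, φ j = n) → a n = 0 := fun n hn => Function.extend_apply' _ _ n hn
  have hp : ∀ j, 1 ≤ a (φ j) := fun j => by
    rw [ha1]; exact Nat.div_pos (hφM j) (by omega)
  have hu : ∀ j, a (φ j) * (j + 3) ≤ M (φ j) := fun j => by
    rw [ha1]; exact Nat.div_mul_le_self _ _
  have hl : ∀ j, M (φ j) ≤ 2 * a (φ j) * (j + 3) := fun j => by
    have h1 := Nat.lt_div_mul_add (a := M (φ j)) (show 0 < j + 3 by omega)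
    rw [← ha1] at h1
    have := hp j
    nlinarith
  have hlt : ∀ n, 2 * a n < M n := fun n => by
    by_cases hn : ∃ j, φ j = n
    · obtain ⟨j, rfl⟩ := hn
      have := hp j
      have := hu j
      nlinarith
    · rw [ha0 n hn]; have := hM n; omega
  set c : ℕ → ℕ := fun n => M n - 2 * a n - 1 with hc
  have h : ∀ n, c n + 1 + 2 * a n = M n := fun n => by
    have := hlt n
    simp only [hc]; omega
  have hMp : ∀ n, (0 : ℝ) < M n := fun n => by have := hM n; positivity
  refine ⟨a, c, h, ⟨φ 0, hp 0⟩, ?_, ?_⟩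
  · rw [Metric.tendsto_atTop]
    intro ε hε
    obtain ⟨J, hJ⟩ := exists_nat_one_div_lt hε
    refine ⟨φ J, fun n hn => ?_⟩
    rw [Real.dist_eq, sub_zero, abs_of_nonneg (by positivity)]
    by_cases hn' : ∃ j, φ j = n
    · obtain ⟨j, rfl⟩ := hn'
      have h1 : (J : ℝ) ≤ j := by exact_mod_cast hφ.le_iff_le.1 hn
      have h2 : (a (φ j) : ℝ) * (j + 3) ≤ M (φ j) := by exact_mod_cast hu j
      refine lt_of_le_of_lt ?_ hJ
      rw [div_le_div_iff₀ (hMp _) (by positivity)]
      have h3 : (0 : ℝ) ≤ a (φ j) := by positivity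
      nlinarith
    · rw [ha0 n hn']; simpa using hε
  · set R : ℕ → ℝ := fun N => ∏ i ∈ Finset.range N, ((c i : ℝ) + 1) / M i with hR
    have hR0 : ∀ N, 0 ≤ R N := fun N => Finset.prod_nonneg fun i _ => by positivity
    have hcM : ∀ n, (c n : ℝ) + 1 + 2 * a n = M n := fun n => by exact_mod_cast h n
    have hanti : Antitone R := antitone_nat_of_succ_le fun n => by
      simp only [hR, Finset.prod_range_succ]
      refine mul_le_of_le_one_right (hR0 n) (div_le_one_of_le₀ ?_ (hMp n).le)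
      have : (0 : ℝ) ≤ a n := by positivity
      linarith [hcM n]
    have hstep : ∀ j : ℕ, R (φ j + 1) ≤ R (φ j) * ((j + 2) / (j + 3)) := fun j => by
      simp only [hR, Finset.prod_range_succ]
      refine mul_le_mul_of_nonneg_left ?_ (hR0 _)
      have h2 : (M (φ j) : ℝ) ≤ 2 * a (φ j) * (j + 3) := by exact_mod_cast hl j
      rw [div_le_div_iff₀ (hMp _) (by positivity)]
      nlinarith [hcM (φ j)]
    have hkey : ∀ j : ℕ, R (φ j) ≤ 2 / (j + 2) := fun j => by
      induction j with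
      | zero => simpa [hR] using hanti (Nat.zero_le (φ 0))
      | succ j ih =>
        refine (hanti (hφ (Nat.lt_succ_self j))).trans ((hstep j).trans ?_)
        refine (mul_le_mul_of_nonneg_right ih (by positivity)).trans (le_of_eq ?_)
        push_cast; field_simp; ring
    have lim : Tendsto (fun j : ℕ => ENNReal.ofReal (2 / (j + 2))) atTop (𝓝 0) := by
      rw [← ENNReal.ofReal_zero]
      exact ENNReal.tendsto_ofReal (tendsto_const_nhds.div_atTop
        (tendsto_atTop_add_const_right _ _ tendsto_natCast_atTop_atTop))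
    exact le_antisymm (ge_of_tendsto' lim fun j => (volume_le hM h (φ j)).trans
      (ENNReal.ofReal_le_ofReal (hkey j))) zero_le

/-- Every point of `[0, 1 / P M N)` has an expansion that starts with `N` zeros. -/
lemma exists_digits (hM : ∀ n, 2 ≤ M n) (N : ℕ) {y : ℝ} (hy : y ∈ Set.Ico (0 : ℝ) (1 / P M N)) :
    ∃ e : ℕ → ℕ, (∀ n, e n < M n) ∧ (∀ n < N, e n = 0) ∧
      HasSum (fun n => (e n : ℝ) / P M (n + 1)) y := by
  have hMp : ∀ n, (0 : ℝ) < M n := fun n => by have := hM n; positivity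
  have hP := P_posR hM
  have hy1 : y * P M N < 1 := (lt_div_iff₀ (hP N)).1 hy.2
  have hz : ∀ n ≤ N, ⌊y * P M n⌋₊ = 0 := fun n hn => by
    have : (P M n : ℝ) ≤ P M N := by exact_mod_cast P_mono hM hn
    exact Nat.floor_eq_zero.2 ((mul_le_mul_of_nonneg_left this hy.1).trans_lt hy1)
  refine ⟨fun n => ⌊y * P M (n + 1)⌋₊ % M n, fun n => Nat.mod_lt _ (by have := hM n; omega),
    fun n hn => by simp [hz (n + 1) hn], ?_⟩
  rw [hasSum_iff_tendsto_nat_of_nonneg fun n => by positivity]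
  have h1 : ∀ k, ∑ n ∈ Finset.range k, ((⌊y * P M (n + 1)⌋₊ % M n : ℕ) : ℝ) / P M (n + 1) =
      (⌊y * P M k⌋₊ : ℝ) / P M k := fun k => by
    induction k with
    | zero => simp [hz 0 (Nat.zero_le _)]
    | succ k ih =>
      have e1 : ⌊y * P M k⌋₊ = ⌊y * P M (k + 1)⌋₊ / M k := by
        rw [← Nat.floor_div_natCast, P_succR, ← mul_assoc, mul_div_cancel_right₀ _ (hMp k).ne']
      have e2 : ((M k * (⌊y * P M (k + 1)⌋₊ / M k) + ⌊y * P M (k + 1)⌋₊ % M k : ℕ) : ℝ) =
          ⌊y * P M (k + 1)⌋₊ := by rw [Nat.div_add_mod]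
      rw [Finset.sum_range_succ, ih, e1, ← e2]
      generalize ⌊y * P M (k + 1)⌋₊ / M k = q
      generalize ⌊y * P M (k + 1)⌋₊ % M k = r
      have := hMp k
      have := hP k
      rw [P_succR]; push_cast; field_simp
  simp_rw [h1]
  refine tendsto_of_tendsto_of_tendsto_of_le_of_le (g := fun k => y - 1 / P M k) (h := fun _ => y)
    (by simpa using (tendsto_inv_P hM).const_sub y) tendsto_const_nhds (fun k => ?_) fun k => ?_
  · have := Nat.lt_floor_add_one (y * P M k)
    simp only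
    rw [sub_le_iff_le_add, ← add_div, le_div_iff₀ (hP k)]
    exact this.le
  · simp only
    rw [div_le_iff₀ (hP k)]
    exact Nat.floor_le (mul_nonneg hy.1 (hP k).le)

/-- A null Moran set omits a digit infinitely often. -/
lemma frequently_omit (hM : ∀ n, 2 ≤ M n) {D : ℕ → Finset ℕ} (hD : ∀ n, (D n).Nonempty)
    (h0 : volume {x : ℝ | ∃ d : ℕ → ℕ, (∀ n, d n ∈ D n) ∧ x = ∑' n, (d n : ℝ) / P M (n + 1)} = 0) :
    ∃ᶠ n in atTop, ∃ e < M n, e ∉ D n := by
  by_contra hc
  obtain ⟨N, hN⟩ := eventually_atTop.1 (not_frequently.1 hc)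
  choose d hd using hD
  set x0 : ℝ := ∑ n ∈ Finset.range N, (d n : ℝ) / P M (n + 1) with hx0
  have hsub : Set.Ico x0 (x0 + 1 / P M N) ⊆
      {x : ℝ | ∃ d : ℕ → ℕ, (∀ n, d n ∈ D n) ∧ x = ∑' n, (d n : ℝ) / P M (n + 1)} := by
    intro x hx
    obtain ⟨e, he, he0, hs⟩ := exists_digits hM N (y := x - x0)
      ⟨by linarith [hx.1], by linarith [hx.2]⟩
    refine ⟨fun n => if n < N then d n else e n, fun n => ?_, ?_⟩
    · simp only
      split_ifs with hn
      · exact hd n
      · by_contra h'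
        exact hN n (not_lt.1 hn) ⟨e n, he n, h'⟩
    · have h1 : HasSum (fun n => if n < N then (d n : ℝ) / P M (n + 1) else 0) x0 := by
        have := hasSum_sum_of_ne_finset_zero (L := SummationFilter.unconditional ℕ)
          (f := fun n => if n < N then (d n : ℝ) / P M (n + 1) else 0) (s := Finset.range N)
          fun n hn => if_neg (by simpa using hn)
        rwa [Finset.sum_congr rfl fun n hn => if_pos (Finset.mem_range.1 hn)] at this
      have h2 := h1.add hs
      rw [add_sub_cancel] at h2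
      rw [← h2.tsum_eq]
      refine tsum_congr fun n => ?_
      split_ifs with hn
      · simp [hn, he0 n hn]
      · simp [hn]
  have h3 := measure_mono_null hsub h0
  rw [Real.volume_Ico, add_sub_cancel_left, ENNReal.ofReal_eq_zero] at h3
  exact absurd h3 (not_le.2 (one_div_pos.2 (P_posR hM N)))

lemma head_int (hM : ∀ n, 2 ≤ M n) (d : ℕ → ℕ) (n : ℕ) :
    ∃ s : ℕ, ∑ k ∈ Finset.range n, (d k : ℝ) / P M (k + 1) = s / P M n := by
  induction n with
  | zero => exact ⟨0, by simp⟩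
  | succ n ih =>
    obtain ⟨s, hs⟩ := ih
    refine ⟨s * M n + d n, ?_⟩
    have h1 : (0 : ℝ) < M n := by have := hM n; positivity
    have h2 := P_posR hM n
    rw [Finset.sum_range_succ, hs, P_succR]; push_cast; field_simp

/-- The gaps left by an omitted digit. -/
lemma gap (hM : ∀ n, 2 ≤ M n) {d : ℕ → ℕ} (hd : ∀ n, d n < M n) {n e r : ℕ} (he : e < M n)
    (hx : ∑' k, (d k : ℝ) / P M (k + 1) ∈ Set.Ioo ((r + (e : ℝ) / M n) / P M n)
      ((r + ((e : ℝ) + 1) / M n) / P M n)) : d n = e := by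
  obtain ⟨s, hs⟩ := head_int hM d n
  have h1 : (0 : ℝ) < M n := by have := hM n; positivity
  have h2 := P_posR hM n
  have h3 := tail_bounds hM hd (n + 1)
  have h4 := P_posR hM (n + 1)
  rw [Finset.sum_range_succ, hs] at h3
  have e1 : (s : ℝ) / P M n + d n / P M (n + 1) = (s * M n + d n) / P M (n + 1) := by
    rw [P_succR]; field_simp
  have e2 : (r + (e : ℝ) / M n) / P M n = (r * M n + e) / P M (n + 1) := by
    rw [P_succR]; field_simp
  have e3 : (r + ((e : ℝ) + 1) / M n) / P M n = (r * M n + e + 1) / P M (n + 1) := by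
    rw [P_succR]; field_simp; ring
  rw [e1, ← add_div] at h3
  rw [e2, e3] at hx
  have a1 := (div_lt_div_iff_of_pos_right h4).1 (h3.1.trans_lt hx.2)
  have a2 := (div_lt_div_iff_of_pos_right h4).1 (hx.1.trans_le h3.2)
  have b1 : s * M n + d n < r * M n + e + 1 := by exact_mod_cast a1
  have b2 : r * M n + e < s * M n + d n + 1 := by exact_mod_cast a2
  have b3 := congrArg (· % M n) (show s * M n + d n = r * M n + e by omega)
  simpa [Nat.mul_add_mod_of_lt (hd n), Nat.mul_add_mod_of_lt he] using b3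

/-- Bounded bases: a null Moran set is an H-set. -/
lemma bounded_unique (hM : ∀ n, 2 ≤ M n) (hb : BddAbove (Set.range M)) {D : ℕ → Finset ℕ}
    (hD : ∀ n, (D n).Nonempty) (hD' : ∀ n, D n ⊆ Finset.range (M n))
    (h0 : volume {x : ℝ | ∃ d : ℕ → ℕ, (∀ n, d n ∈ D n) ∧ x = ∑' n, (d n : ℝ) / P M (n + 1)} = 0)
    {a b : ℕ → ℝ} (h : ∀ x ∈ Set.Icc (0 : ℝ) 1 \
      {x : ℝ | ∃ d : ℕ → ℕ, (∀ n, d n ∈ D n) ∧ x = ∑' n, (d n : ℝ) / P M (n + 1)},
      Tendsto (fun N => ∑ n ∈ Finset.range N, Uniq.tm a b n x) atTop (𝓝 0)) :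
    (∀ n, a n = 0) ∧ ∀ n, 1 ≤ n → b n = 0 := by
  obtain ⟨B, hB⟩ := hb
  obtain ⟨⟨m, e⟩, -, hme⟩ : ∃ p ∈ Finset.range (B + 1) ×ˢ Finset.range (B + 1),
      ∃ᶠ n in atTop, M n = p.1 ∧ p.2 < M n ∧ p.2 ∉ D n := by
    by_contra hc
    have h1 : ∀ᶠ n in atTop, ∀ p ∈ Finset.range (B + 1) ×ˢ Finset.range (B + 1),
        ¬ (M n = p.1 ∧ p.2 < M n ∧ p.2 ∉ D n) :=
      (eventually_all_finset _).2 fun p hp => not_frequently.1 fun h' => hc ⟨p, hp, h'⟩
    obtain ⟨n, ⟨e, he, he'⟩, hn⟩ := ((frequently_omit hM hD h0).and_eventually h1).exists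
    have := hB ⟨n, rfl⟩
    exact hn (M n, e) (by simp; omega) ⟨rfl, he, he'⟩
  have hm : (0 : ℝ) < m := by
    obtain ⟨n, hn, -⟩ := hme.exists
    have := hM n
    exact_mod_cast (show 0 < m by simp only at hn; omega)
  refine Uniq.hset (α := (e : ℝ) / m) (β := ((e : ℝ) + 1) / m)
    (div_lt_div_of_pos_right (by linarith) hm) fun N => ?_
  obtain ⟨n, hn, rfl, he, he'⟩ := frequently_atTop.1 hme N
  refine ⟨P M n, hn.trans (lt_P hM n).le, fun r hr x hx => h x ⟨⟨?_, ?_⟩, ?_⟩⟩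
  · exact le_trans (by positivity) hx.1.le
  · refine hx.2.le.trans (div_le_one_of_le₀ ?_ (P_posR hM n).le)
    have h1 : (r : ℝ) + 1 ≤ P M n := by exact_mod_cast hr
    have h2 : ((e : ℝ) + 1) / M n ≤ 1 := div_le_one_of_le₀ (by exact_mod_cast he) hm.le
    linarith
  · rintro ⟨d, hd, rfl⟩
    exact he' (gap hM (fun k => Finset.mem_range.1 (hD' k (hd k))) he hx ▸ hd n)

end Pool.Agent.Lib.MP_c7f57c_an.Gen
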