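import Pool.Agent.Lib.MP_c7f57c_an.Localise

set_option autoImplicit false

namespace Pool.Agent.Lib.MP_c7f57c_an

open MeasureTheory Filter Topology Complex

/-- `Q n = 3 * 4 * ... * (n+2)`. -/
def Q (n : ℕ) : ℕ := ∏ k ∈ Finset.range n, (k + 3)

lemma Q_succ (n : ℕ) : Q (n + 1) = Q n * (n + 3) := by simp [Q, Finset.prod_range_succ]

lemma Q_pos (n : ℕ) : 0 < Q n := Finset.prod_pos fun _ _ => by omega

lemma Q_posR (n : ℕ) : (0 : ℝ) < Q n := by exact_mod_cast Q_pos n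

lemma Q_succR (n : ℕ) : (Q (n + 1) : ℝ) = Q n * (n + 3) := by rw [Q_succ]; push_cast; ring

lemma lt_Q (n : ℕ) : n < Q n := by
  induction n with
  | zero => simp [Q]
  | succ n ih => rw [Q_succ]; nlinarith

lemma Q_mono : Monotone Q := monotone_nat_of_le_succ fun n => by
  rw [Q_succ]; have := Q_pos n; nlinarith

lemma Q_factorial (n : ℕ) : 2 * Q n = n.factorial * ((n + 1) * (n + 2)) := by
  induction n with
  | zero => simp [Q]
  | succ n ih =>
    rw [Q_succ, Nat.factorial_succ, ← mul_assoc, ih]; ring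

lemma tendsto_inv_Q : Tendsto (fun n => (1 : ℝ) / Q n) atTop (𝓝 0) := by
  apply tendsto_const_nhds.div_atTop
  exact tendsto_natCast_atTop_atTop.comp
    (tendsto_atTop_mono (fun n => (lt_Q n).le) tendsto_id)

lemma hasSum_tele (N : ℕ) :
    HasSum (fun i : ℕ => (1 : ℝ) / Q (i + N) - 1 / Q (i + N + 1)) (1 / Q N) := by
  have hnn : ∀ i : ℕ, 0 ≤ (1 : ℝ) / Q (i + N) - 1 / Q (i + N + 1) := by
    intro i
    rw [sub_nonneg]
    apply one_div_le_one_div_of_le (Q_posR _)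
    exact_mod_cast Q_mono (Nat.le_succ _)
  rw [hasSum_iff_tendsto_nat_of_nonneg hnn]
  have h1 : ∀ n : ℕ, ∑ i ∈ Finset.range n, ((1 : ℝ) / Q (i + N) - 1 / Q (i + N + 1)) =
      1 / Q N - 1 / Q (n + N) := by
    intro n
    induction n with
    | zero => simp
    | succ n ih =>
      rw [Finset.sum_range_succ, ih, show n + 1 + N = n + N + 1 by ring]; ring
  simp_rw [h1]
  have := (tendsto_inv_Q.comp (tendsto_add_atTop_nat N)).const_sub ((1 : ℝ) / Q N)
  simpa using this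

lemma term_le {d : ℕ → ℕ} (hd : ∀ n, d n ≤ n + 2) (n : ℕ) :
    (d n : ℝ) / Q (n + 1) ≤ 1 / Q n - 1 / Q (n + 1) := by
  have h1 : (d n : ℝ) ≤ n + 2 := by exact_mod_cast hd n
  have h2 := Q_posR n
  have h3 : (1 : ℝ) / Q n - 1 / Q (n + 1) = (n + 2) / Q (n + 1) := by
    rw [Q_succR]; field_simp; ring
  rw [h3]
  exact div_le_div_of_nonneg_right h1 (Q_posR _).le

lemma summable_digits {d : ℕ → ℕ} (hd : ∀ n, d n ≤ n + 2) :
    Summable (fun n => (d n : ℝ) / Q (n + 1)) :=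
  Summable.of_nonneg_of_le (fun n => by positivity) (term_le hd)
    (by simpa using (hasSum_tele 0).summable)

lemma tail_bounds {d : ℕ → ℕ} (hd : ∀ n, d n ≤ n + 2) (N : ℕ) :
    ∑ n ∈ Finset.range N, (d n : ℝ) / Q (n + 1) ≤ ∑' n, (d n : ℝ) / Q (n + 1) ∧
    ∑' n, (d n : ℝ) / Q (n + 1) ≤ ∑ n ∈ Finset.range N, (d n : ℝ) / Q (n + 1) + 1 / Q N := by
  have hs := summable_digits hd
  refine ⟨hs.sum_le_tsum _ (fun n _ => by positivity), ?_⟩
  rw [← hs.sum_add_tsum_nat_add N, ← (hasSum_tele N).tsum_eq]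
  have := ((summable_nat_add_iff N).2 hs).tsum_le_tsum (fun i => term_le hd (i + N))
    (hasSum_tele N).summable
  linarith

/-- digit space -/
abbrev Dig : Type := ∀ n : ℕ, Fin (n + 1)

/-- the point with digits `ω n + 1` -/
noncomputable def X (ω : Dig) : ℝ := ∑' n, (((ω n : ℕ) + 1 : ℕ) : ℝ) / Q (n + 1)

lemma dig_le (ω : Dig) (n : ℕ) : (ω n : ℕ) + 1 ≤ n + 2 := by have := (ω n).2; omega

lemma continuous_X : Continuous X := by
  unfold X
  refine continuous_tsum (u := fun n => (1 : ℝ) / Q n - 1 / Q (n + 1)) (fun n => ?_)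
    (by simpa using (hasSum_tele 0).summable) (fun n ω => ?_)
  · exact (continuous_of_discreteTopology
      (f := fun j : Fin (n + 1) => (((j : ℕ) + 1 : ℕ) : ℝ) / Q (n + 1))).comp (continuous_apply n)
  · rw [Real.norm_eq_abs, abs_of_nonneg (by positivity)]
    exact term_le (d := fun n => (ω n : ℕ) + 1) (dig_le ω) n

lemma X_bounds (ω : Dig) : 1 / 3 ≤ X ω ∧ X ω ≤ 2 / 3 := by
  have := tail_bounds (d := fun n => (ω n : ℕ) + 1) (dig_le ω) 1
  have h0 : (ω 0 : ℕ) = 0 := by have := (ω 0).2; omega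
  have hQ : (Q 1 : ℝ) = 3 := by simp [Q]
  simp only [Finset.sum_range_one, h0, zero_add, hQ, Nat.cast_one] at this
  unfold X
  constructor <;> linarith [this.1, this.2]

/-- uniform product measure on digit space -/
noncomputable def PP : Measure Dig :=
  Measure.infinitePi (fun n => (PMF.uniformOfFintype (Fin (n + 1))).toMeasure)

instance : IsProbabilityMeasure PP := by unfold PP; infer_instance

/-- one factor of the Fourier transform -/
noncomputable def phi (n : ℕ) (t : ℝ) : ℂ :=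
  (∑ j ∈ Finset.range (n + 1), ch (t * ((j + 1 : ℕ) / Q (n + 1)))) / (n + 1)

lemma integral_factor (n : ℕ) (t : ℝ) :
    ∫ j : Fin (n + 1), ch (t * ((((j : ℕ) + 1 : ℕ) : ℝ) / Q (n + 1)))
      ∂(PMF.uniformOfFintype (Fin (n + 1))).toMeasure = phi n t := by
  rw [PMF.integral_eq_sum, phi, Finset.sum_div,
    ← Fin.sum_univ_eq_sum_range (fun j => ch (t * ((j + 1 : ℕ) / Q (n + 1))) / (n + 1))]
  refine Finset.sum_congr rfl fun j _ => ?_
  simp only [PMF.uniformOfFintype_apply, Fintype.card_fin, ENNReal.toReal_inv,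
    ENNReal.toReal_natCast, Complex.real_smul]
  push_cast
  rw [mul_comm, ← div_eq_mul_inv]

lemma ch_sum (s : Finset ℕ) (f : ℕ → ℝ) : ch (∑ i ∈ s, f i) = ∏ i ∈ s, ch (f i) := by
  classical
  induction s using Finset.induction_on with
  | empty => simp [ch_zero]
  | insert a s ha ih => rw [Finset.sum_insert ha, Finset.prod_insert ha, ch_add, ih]

lemma integral_partial_sum (N : ℕ) (t : ℝ) :
    ∫ ω, ch (t * ∑ n ∈ Finset.range N, (((ω n : ℕ) + 1 : ℕ) : ℝ) / Q (n + 1)) ∂PP =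
      ∏ n ∈ Finset.range N, phi n t := by
  have h1 : ∀ ω : Dig, ch (t * ∑ n ∈ Finset.range N, (((ω n : ℕ) + 1 : ℕ) : ℝ) / Q (n + 1)) =
      (fun y : (∀ i : (Finset.range N), Fin (i + 1)) =>
        ∏ i : (Finset.range N), ch (t * ((((y i : ℕ) + 1 : ℕ) : ℝ) / Q (i + 1))))
        ((Finset.range N).restrict ω) := by
    intro ω
    rw [Finset.mul_sum, ch_sum]
    simp only [Finset.restrict]
    rw [Finset.prod_coe_sort (Finset.range N)
      (fun i => ch (t * ((((ω i : ℕ) + 1 : ℕ) : ℝ) / Q (i + 1))))]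
  rw [integral_congr_ae (Eventually.of_forall h1)]
  unfold PP
  refine (integral_restrict_infinitePi
    (μ := fun n => (PMF.uniformOfFintype (Fin (n + 1))).toMeasure) (s := Finset.range N)
    (f := fun y : (∀ i : (Finset.range N), Fin (i + 1)) =>
        ∏ i : (Finset.range N), ch (t * ((((y i : ℕ) + 1 : ℕ) : ℝ) / Q (i + 1))))
    (Measurable.of_discrete.aestronglyMeasurable)).trans ?_
  rw [integral_fintype_prod_eq_prod
    (f := fun (i : Finset.range N) (j : Fin (i + 1)) =>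
      ch (t * ((((j : ℕ) + 1 : ℕ) : ℝ) / Q (i + 1))))]
  simp_rw [integral_factor]
  exact Finset.prod_coe_sort (Finset.range N) (fun n => phi n t)

lemma tendsto_prod_phi (t : ℝ) :
    Tendsto (fun N => ∏ n ∈ Finset.range N, phi n t) atTop (𝓝 (∫ ω, ch (t * X ω) ∂PP)) := by
  simp_rw [← integral_partial_sum]
  refine tendsto_integral_of_dominated_convergence (fun _ => (1 : ℝ)) (fun N => ?_)
    (integrable_const _) (fun N => Eventually.of_forall fun ω => (norm_ch _).le)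
    (Eventually.of_forall fun ω => ?_)
  · apply Continuous.aestronglyMeasurable
    refine continuous_ch.comp (continuous_const.mul (continuous_finsetSum _ fun n _ => ?_))
    exact (continuous_of_discreteTopology
      (f := fun j : Fin (n + 1) => (((j : ℕ) + 1 : ℕ) : ℝ) / Q (n + 1))).comp (continuous_apply n)
  · refine (continuous_ch.tendsto _).comp (Tendsto.const_mul t ?_)
    exact (summable_digits (d := fun n => (ω n : ℕ) + 1) (dig_le ω)).hasSum.tendsto_sum_nat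

lemma norm_sum_ch_le (s : Finset ℕ) (f : ℕ → ℝ) : ‖∑ j ∈ s, ch (f j)‖ ≤ s.card := by
  refine (norm_sum_le _ _).trans ?_
  simp [norm_ch]

lemma norm_phi_le (n : ℕ) (t : ℝ) : ‖phi n t‖ ≤ 1 := by
  have h : ‖((n : ℂ) + 1)‖ = (n : ℝ) + 1 := by exact_mod_cast Complex.norm_natCast (n + 1)
  rw [phi, norm_div, h, div_le_one (by positivity)]
  simpa using norm_sum_ch_le (Finset.range (n + 1)) (fun j => t * ((j + 1 : ℕ) / Q (n + 1)))

lemma norm_coeff_le (n : ℕ) (t : ℝ) :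
    ‖∫ ω, ch (t * X ω) ∂PP‖ ≤ ‖phi n t‖ * ‖phi (n + 1) t‖ := by
  refine le_of_tendsto (tendsto_prod_phi t).norm ?_
  filter_upwards [eventually_ge_atTop (n + 2)] with N hN
  rw [norm_prod]
  have hsub : ({n, n + 1} : Finset ℕ) ⊆ Finset.range N := by
    intro i hi
    simp only [Finset.mem_insert, Finset.mem_singleton] at hi
    rw [Finset.mem_range]; omega
  have := Finset.prod_le_prod_of_subset_of_le_one (f := fun i => ‖phi i t‖) hsub
    (fun i _ => norm_nonneg _) (fun i _ _ => norm_phi_le i t)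
  rwa [Finset.prod_pair (by omega)] at this

/-- the full geometric sum at level `n` -/
noncomputable def A (n : ℕ) (t : ℝ) : ℂ := ∑ j ∈ Finset.range (n + 3), ch (t / Q (n + 1)) ^ j

lemma norm_A_le (n : ℕ) (t : ℝ) : ‖A n t‖ ≤ n + 3 := by
  refine (norm_sum_le _ _).trans ?_
  simp [norm_ch]

lemma norm_phi_le_A (n : ℕ) (t : ℝ) : ‖phi n t‖ ≤ (‖A n t‖ + 2) / (n + 1) := by
  have h : ‖((n : ℂ) + 1)‖ = (n : ℝ) + 1 := by exact_mod_cast Complex.norm_natCast (n + 1)
  rw [phi, norm_div, h]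
  gcongr
  have h1 : ∑ j ∈ Finset.range (n + 1), ch (t * ((j + 1 : ℕ) / Q (n + 1))) =
      A n t - 1 - ch (t / Q (n + 1)) ^ (n + 2) := by
    rw [A, Finset.sum_range_succ _ (n + 2), Finset.sum_range_succ' _ (n + 1)]
    have : ∀ j : ℕ, ch (t * ((j + 1 : ℕ) / Q (n + 1))) = ch (t / Q (n + 1)) ^ (j + 1) := by
      intro j; rw [← ch_nat_mul]; congr 1; ring
    simp_rw [this]; ring
  rw [h1]
  refine (norm_sub_le _ _).trans ?_
  have := norm_sub_le (A n t) 1
  rw [norm_pow, norm_ch, one_pow]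
  rw [norm_one] at this
  linarith

lemma norm_ch_sub_one {θ : ℝ} (h0 : 0 ≤ θ) (h1 : θ ≤ 1 / 2) : 4 * θ ≤ ‖ch θ - 1‖ := by
  rw [ch_eq, mul_comm _ Complex.I, Complex.norm_exp_I_mul_ofReal_sub_one]
  have hpi := Real.pi_pos
  have h2 : 2 * Real.pi * θ / 2 = Real.pi / 2 * (2 * θ) := by ring
  have h3 := Real.mul_le_sin (x := Real.pi / 2 * (2 * θ)) (by positivity) (by nlinarith)
  have h4 : 2 / Real.pi * (Real.pi / 2 * (2 * θ)) = 2 * θ := by field_simp
  rw [h2, Real.norm_eq_abs]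
  refine le_trans ?_ (le_abs_self _)
  linarith

lemma norm_AA_le (n : ℕ) (t : ℝ) (h1 : (Q (n + 1) : ℝ) ≤ 2 * t) (h2 : 2 * t ≤ Q (n + 2)) :
    ‖A n t‖ * ‖A (n + 1) t‖ ≤ n + 4 := by
  have hQ1 := Q_posR (n + 1)
  have hQ2 := Q_posR (n + 2)
  have hQ : (Q (n + 2) : ℝ) = Q (n + 1) * (n + 4) := by rw [Q_succR]; push_cast; ring
  set w := ch (t / Q (n + 2)) with hw
  have hu : ch (t / Q (n + 1)) = w ^ (n + 4) := by
    rw [hw, ← ch_nat_mul]; congr 1; rw [hQ]; push_cast; field_simp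
  have e1 : A (n + 1) t * (w - 1) = w ^ (n + 4) - 1 := geom_sum_mul w (n + 4)
  have e2 : A n t * (w ^ (n + 4) - 1) = (w ^ (n + 4)) ^ (n + 3) - 1 := by
    rw [A, hu]; exact geom_sum_mul _ (n + 3)
  have e3 : A n t * A (n + 1) t * (w - 1) = (w ^ (n + 4)) ^ (n + 3) - 1 := by
    rw [mul_assoc, e1, e2]
  have e4 : ‖A n t‖ * ‖A (n + 1) t‖ * ‖w - 1‖ ≤ 2 := by
    rw [← norm_mul, ← norm_mul, e3]
    refine (norm_sub_le _ _).trans ?_
    rw [norm_pow, norm_pow, hw, norm_ch]; norm_num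
  have e5 : 4 * (t / Q (n + 2)) ≤ ‖w - 1‖ := by
    apply norm_ch_sub_one
    · apply div_nonneg <;> linarith
    · rw [div_le_iff₀ hQ2]; linarith
  have e6 : 2 / ((n : ℝ) + 4) ≤ 4 * (t / Q (n + 2)) := by
    rw [hQ, div_le_iff₀ (by positivity)]
    have : 4 * (t / (Q (n + 1) * ((n : ℝ) + 4))) * (n + 4) = 4 * t / Q (n + 1) := by field_simp
    rw [this, le_div_iff₀ hQ1]; linarith
  have e7 : ‖A n t‖ * ‖A (n + 1) t‖ * (2 / ((n : ℝ) + 4)) ≤ 2 :=
    le_trans (mul_le_mul_of_nonneg_left (e6.trans e5) (by positivity)) e4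
  rw [← mul_div_assoc, div_le_iff₀ (by positivity)] at e7
  linarith

lemma norm_coeff_le' (n : ℕ) (t : ℝ) (h1 : (Q (n + 1) : ℝ) ≤ 2 * t) (h2 : 2 * t ≤ Q (n + 2)) :
    ‖∫ ω, ch (t * X ω) ∂PP‖ ≤ 22 / (n + 1) := by
  refine (norm_coeff_le n t).trans ?_
  have a1 := norm_phi_le_A n t
  have a2 := norm_phi_le_A (n + 1) t
  have a3 := norm_AA_le n t h1 h2
  have a4 := norm_A_le n t
  have a5 := norm_A_le (n + 1) t
  have hn : (0 : ℝ) ≤ n := Nat.cast_nonneg n
  push_cast at a2 a5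
  calc ‖phi n t‖ * ‖phi (n + 1) t‖
      ≤ ((‖A n t‖ + 2) / (n + 1)) * ((‖A (n + 1) t‖ + 2) / (n + 1 + 1)) := by gcongr
    _ = ((‖A n t‖ + 2) * (‖A (n + 1) t‖ + 2) / (n + 1 + 1)) / (n + 1) := by field_simp
    _ ≤ 22 / (n + 1) := by
      gcongr
      rw [div_le_iff₀ (by positivity)]
      nlinarith

lemma tendsto_coeff : Tendsto (fun N : ℕ => ∫ ω, ch (N * X ω) ∂PP) atTop (𝓝 0) := by
  rw [Metric.tendsto_atTop]
  intro ε hε
  obtain ⟨n0, hn0⟩ := exists_nat_gt (22 / ε)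
  refine ⟨Q (n0 + 1), fun k hk => ?_⟩
  have hex : ∃ m, 2 * k ≤ Q m := ⟨2 * k, (lt_Q _).le⟩
  classical
  have hm := Nat.find_spec hex
  have hQp := Q_pos (n0 + 1)
  have hlarge : n0 + 2 ≤ Nat.find hex := by
    by_contra hc
    have := Q_mono (show Nat.find hex ≤ n0 + 1 by omega)
    omega
  obtain ⟨n, hn⟩ : ∃ n, Nat.find hex = n + 2 := ⟨Nat.find hex - 2, by omega⟩
  have hm' := Nat.find_min hex (show n + 1 < Nat.find hex by omega)
  rw [hn] at hm
  have h := norm_coeff_le' n k (by exact_mod_cast (not_le.1 hm').le) (by exact_mod_cast hm)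
  rw [dist_zero_right]
  refine h.trans_lt ?_
  have h3 : (n0 : ℝ) ≤ n := by exact_mod_cast (show n0 ≤ n by omega)
  rw [div_lt_iff₀ hε] at hn0
  rw [div_lt_iff₀ (by positivity)]
  nlinarith

lemma exists_delta (x : ℝ) (hx : x ∈ Set.Icc (0 : ℝ) 1) (hK : x ∉ Set.range X) :
    ∃ δ > 0, ∀ ω, δ ≤ ‖ch (x - X ω) - 1‖ := by
  have hc : Continuous (fun ω => ‖ch (x - X ω) - 1‖) :=
    ((continuous_ch.comp (continuous_const.sub continuous_X)).sub continuous_const).norm
  obtain ⟨ω0, -, h0⟩ := isCompact_univ.exists_isMinOn Set.univ_nonempty hc.continuousOn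
  refine ⟨_, ?_, fun ω => h0 (Set.mem_univ ω)⟩
  rw [gt_iff_lt, norm_pos_iff, sub_ne_zero]
  intro h
  rw [ch, Complex.exp_eq_one_iff] at h
  obtain ⟨m, hm⟩ := h
  have h1 : ((x - X ω0 : ℝ) : ℂ) = (m : ℂ) := by
    have h2 : (2 * Real.pi * Complex.I : ℂ) ≠ 0 := Complex.two_pi_I_ne_zero
    apply mul_left_cancel₀ h2
    rw [hm]; ring
  have h2 : x - X ω0 = (m : ℝ) := by exact_mod_cast h1
  have hb := X_bounds ω0
  have h3 : (-1 : ℝ) < m := by linarith [hx.1, hb.2]
  have h4 : (m : ℝ) < 1 := by linarith [hx.2, hb.1]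
  have h5 : m = 0 := by
    have h3' : (-1 : ℤ) < m := by exact_mod_cast h3
    have h4' : m < (1 : ℤ) := by exact_mod_cast h4
    omega
  apply hK
  refine ⟨ω0, ?_⟩
  rw [h5] at h2
  simp at h2
  linarith

lemma volume_range_X : volume (Set.range X) = 0 := by
  have key : ∀ N : ℕ, volume (Set.range X) ≤ ENNReal.ofReal (2 / ((N + 1) * (N + 2))) := by
    intro N
    let s : (∀ i : Fin N, Fin (i + 1)) → ℝ := fun y =>
      ∑ i : Fin N, (((y i : ℕ) + 1 : ℕ) : ℝ) / Q (i + 1)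
    have hsub : Set.range X ⊆ ⋃ y, Set.Icc (s y) (s y + 1 / Q N) := by
      rintro _ ⟨ω, rfl⟩
      rw [Set.mem_iUnion]
      refine ⟨fun i => ω i, ?_⟩
      have := tail_bounds (d := fun n => (ω n : ℕ) + 1) (dig_le ω) N
      rw [← Fin.sum_univ_eq_sum_range (fun n => (((ω n : ℕ) + 1 : ℕ) : ℝ) / Q (n + 1))] at this
      exact this
    refine (measure_mono hsub).trans ((measure_iUnion_fintype_le _ _).trans ?_)
    simp only [Real.volume_Icc, add_sub_cancel_left, Finset.sum_const, Finset.card_univ,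
      Fintype.card_pi, Fintype.card_fin, nsmul_eq_mul]
    rw [Fin.prod_univ_eq_prod_range (fun i => i + 1), Finset.prod_range_add_one_eq_factorial,
      ← ENNReal.ofReal_natCast, ← ENNReal.ofReal_mul (by positivity)]
    apply le_of_eq
    congr 1
    have h1 : (2 * Q N : ℝ) = N.factorial * ((N + 1) * (N + 2)) := by exact_mod_cast Q_factorial N
    have h2 := Q_posR N
    field_simp
    linarith
  have lim : Tendsto (fun N : ℕ => ENNReal.ofReal (2 / ((N + 1) * (N + 2)))) atTop (𝓝 0) := by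
    rw [← ENNReal.ofReal_zero]
    apply ENNReal.tendsto_ofReal
    apply tendsto_const_nhds.div_atTop
    exact Tendsto.atTop_mul_atTop₀
      (tendsto_atTop_add_const_right _ _ tendsto_natCast_atTop_atTop)
      (tendsto_atTop_add_const_right _ _ tendsto_natCast_atTop_atTop)
  exact le_antisymm (ge_of_tendsto' lim key) zero_le

end Pool.Agent.Lib.MP_c7f57c_an
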