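import Pool.Agent.Lib.MP_c7f57c_an.Decay

set_option autoImplicit false

namespace Pool.Agent.Lib.MP_c7f57c_an.Gen

open MeasureTheory Filter Topology Complex

/-- `P M n = M 0 * ... * M (n-1)`. -/
def P (M : ℕ → ℕ) (n : ℕ) : ℕ := ∏ k ∈ Finset.range n, M k

variable {M a c : ℕ → ℕ}

lemma P_succ (M : ℕ → ℕ) (n : ℕ) : P M (n + 1) = P M n * M n := Finset.prod_range_succ _ _

lemma P_succR (M : ℕ → ℕ) (n : ℕ) : (P M (n + 1) : ℝ) = P M n * M n := by
  rw [P_succ, Nat.cast_mul]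

lemma P_pos (hM : ∀ n, 2 ≤ M n) (n : ℕ) : 0 < P M n :=
  Finset.prod_pos fun k _ => by have := hM k; omega

lemma P_posR (hM : ∀ n, 2 ≤ M n) (n : ℕ) : (0 : ℝ) < P M n := by exact_mod_cast P_pos hM n

lemma P_add (hM : ∀ n, 2 ≤ M n) (m k : ℕ) : (k + 1) * P M m ≤ P M (m + k) := by
  induction k with
  | zero => simp
  | succ k ih =>
    rw [← add_assoc, P_succ]
    have h1 := hM (m + k)
    have h2 := P_pos hM m
    nlinarith

lemma lt_P (hM : ∀ n, 2 ≤ M n) (n : ℕ) : n < P M n := by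
  simpa [P] using P_add hM 0 n

lemma P_mono (hM : ∀ n, 2 ≤ M n) : Monotone (P M) := monotone_nat_of_le_succ fun n => by
  rw [P_succ]; have := P_pos hM n; have := hM n; nlinarith

lemma tendsto_inv_P (hM : ∀ n, 2 ≤ M n) : Tendsto (fun n => (1 : ℝ) / P M n) atTop (𝓝 0) := by
  apply tendsto_const_nhds.div_atTop
  exact tendsto_natCast_atTop_atTop.comp
    (tendsto_atTop_mono (fun n => (lt_P hM n).le) tendsto_id)

lemma hasSum_tele (hM : ∀ n, 2 ≤ M n) (N : ℕ) :
    HasSum (fun i : ℕ => (1 : ℝ) / P M (i + N) - 1 / P M (i + N + 1)) (1 / P M N) := by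
  have hnn : ∀ i : ℕ, 0 ≤ (1 : ℝ) / P M (i + N) - 1 / P M (i + N + 1) := by
    intro i
    rw [sub_nonneg]
    apply one_div_le_one_div_of_le (P_posR hM _)
    exact_mod_cast P_mono hM (Nat.le_succ _)
  rw [hasSum_iff_tendsto_nat_of_nonneg hnn]
  have h1 : ∀ n : ℕ, ∑ i ∈ Finset.range n, ((1 : ℝ) / P M (i + N) - 1 / P M (i + N + 1)) =
      1 / P M N - 1 / P M (n + N) := by
    intro n
    induction n with
    | zero => simp
    | succ n ih =>
      rw [Finset.sum_range_succ, ih, show n + 1 + N = n + N + 1 by ring]; ring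
  simp_rw [h1]
  have := ((tendsto_inv_P hM).comp (tendsto_add_atTop_nat N)).const_sub ((1 : ℝ) / P M N)
  simpa using this

lemma tele_eq (hM : ∀ n, 2 ≤ M n) (n : ℕ) :
    (1 : ℝ) / P M n - 1 / P M (n + 1) = (M n - 1) / P M (n + 1) := by
  have h2 := P_posR hM n
  have h3 : (0 : ℝ) < M n := by have := hM n; positivity
  rw [P_succR]; field_simp

lemma term_le (hM : ∀ n, 2 ≤ M n) {d : ℕ → ℕ} (hd : ∀ n, d n < M n) (n : ℕ) :
    (d n : ℝ) / P M (n + 1) ≤ 1 / P M n - 1 / P M (n + 1) := by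
  have h1 : (d n : ℝ) + 1 ≤ M n := by exact_mod_cast hd n
  rw [tele_eq hM]
  exact div_le_div_of_nonneg_right (by linarith) (P_posR hM _).le

lemma summable_digits (hM : ∀ n, 2 ≤ M n) {d : ℕ → ℕ} (hd : ∀ n, d n < M n) :
    Summable (fun n => (d n : ℝ) / P M (n + 1)) :=
  Summable.of_nonneg_of_le (fun n => by positivity) (term_le hM hd)
    (by simpa using (hasSum_tele hM 0).summable)

lemma tail_bounds (hM : ∀ n, 2 ≤ M n) {d : ℕ → ℕ} (hd : ∀ n, d n < M n) (N : ℕ) :
    ∑ n ∈ Finset.range N, (d n : ℝ) / P M (n + 1) ≤ ∑' n, (d n : ℝ) / P M (n + 1) ∧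
    ∑' n, (d n : ℝ) / P M (n + 1) ≤
      ∑ n ∈ Finset.range N, (d n : ℝ) / P M (n + 1) + 1 / P M N := by
  have hs := summable_digits hM hd
  refine ⟨hs.sum_le_tsum _ (fun n _ => by positivity), ?_⟩
  rw [← hs.sum_add_tsum_nat_add N, ← (hasSum_tele hM N).tsum_eq]
  have := ((summable_nat_add_iff N).2 hs).tsum_le_tsum (fun i => term_le hM hd (i + N))
    (hasSum_tele hM N).summable
  linarith

/-- digit space -/
abbrev Dig (c : ℕ → ℕ) : Type := ∀ n : ℕ, Fin (c n + 1)

/-- the point with digits `ω n + a n` -/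
noncomputable def X (M a c : ℕ → ℕ) (ω : Dig c) : ℝ :=
  ∑' n, (((ω n : ℕ) + a n : ℕ) : ℝ) / P M (n + 1)

lemma dig_lt (h : ∀ n, c n + 1 + 2 * a n = M n) (ω : Dig c) (n : ℕ) : (ω n : ℕ) + a n < M n := by
  have := (ω n).2; have := h n; omega

lemma continuous_X (hM : ∀ n, 2 ≤ M n) (h : ∀ n, c n + 1 + 2 * a n = M n) :
    Continuous (X M a c) := by
  unfold X
  refine continuous_tsum (u := fun n => (1 : ℝ) / P M n - 1 / P M (n + 1)) (fun n => ?_)
    (by simpa using (hasSum_tele hM 0).summable) (fun n ω => ?_)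
  · exact (continuous_of_discreteTopology (f := fun j : Fin (c n + 1) =>
      (((j : ℕ) + a n : ℕ) : ℝ) / P M (n + 1))).comp (continuous_apply n)
  · rw [Real.norm_eq_abs, abs_of_nonneg (by positivity)]
    exact term_le hM (d := fun n => (ω n : ℕ) + a n) (dig_lt h ω) n

lemma X_bounds (hM : ∀ n, 2 ≤ M n) (h : ∀ n, c n + 1 + 2 * a n = M n) {k : ℕ} (hk : 1 ≤ a k)
    (ω : Dig c) : 0 < X M a c ω ∧ X M a c ω < 1 := by
  have hs := summable_digits hM (d := fun n => (ω n : ℕ) + a n) (dig_lt h ω)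
  have hP := P_posR hM (k + 1)
  constructor
  · refine hs.tsum_pos (fun n => by positivity) k (div_pos ?_ hP)
    exact_mod_cast (show 0 < (ω k : ℕ) + a k by omega)
  · have h1 := hasSum_tele hM 0
    simp only [add_zero] at h1
    have h2 := hasSum_lt (i := k) (term_le hM (d := fun n => (ω n : ℕ) + a n) (dig_lt h ω)) (by
      rw [tele_eq hM]
      refine div_lt_div_of_pos_right ?_ hP
      have h3 : (ω k : ℕ) + a k + 1 < M k := by have := (ω k).2; have := h k; omega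
      have h4 : (((ω k : ℕ) + a k : ℕ) : ℝ) + 1 < M k := by exact_mod_cast h3
      linarith) hs.hasSum h1
    simpa [P, X] using h2

/-- uniform product measure on digit space -/
noncomputable def PP (c : ℕ → ℕ) : Measure (Dig c) :=
  Measure.infinitePi (fun n => (PMF.uniformOfFintype (Fin (c n + 1))).toMeasure)

lemma prob_PP (c : ℕ → ℕ) : IsProbabilityMeasure (PP c) := by unfold PP; infer_instance

/-- one factor of the Fourier transform -/
noncomputable def phi (M a c : ℕ → ℕ) (n : ℕ) (t : ℝ) : ℂ :=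
  (∑ j ∈ Finset.range (c n + 1), ch (t * ((j + a n : ℕ) / P M (n + 1)))) / (c n + 1)

lemma integral_factor (M a c : ℕ → ℕ) (n : ℕ) (t : ℝ) :
    ∫ j : Fin (c n + 1), ch (t * ((((j : ℕ) + a n : ℕ) : ℝ) / P M (n + 1)))
      ∂(PMF.uniformOfFintype (Fin (c n + 1))).toMeasure = phi M a c n t := by
  rw [PMF.integral_eq_sum, phi, Finset.sum_div, ← Fin.sum_univ_eq_sum_range
    (fun j => ch (t * ((j + a n : ℕ) / P M (n + 1))) / (c n + 1))]
  refine Finset.sum_congr rfl fun j _ => ?_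
  simp only [PMF.uniformOfFintype_apply, Fintype.card_fin, ENNReal.toReal_inv,
    ENNReal.toReal_natCast, Complex.real_smul]
  push_cast
  rw [mul_comm, ← div_eq_mul_inv]

lemma integral_partial_sum (M a c : ℕ → ℕ) (N : ℕ) (t : ℝ) :
    ∫ ω, ch (t * ∑ n ∈ Finset.range N, (((ω n : ℕ) + a n : ℕ) : ℝ) / P M (n + 1)) ∂(PP c) =
      ∏ n ∈ Finset.range N, phi M a c n t := by
  have h1 : ∀ ω : Dig c,
      ch (t * ∑ n ∈ Finset.range N, (((ω n : ℕ) + a n : ℕ) : ℝ) / P M (n + 1)) =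
      (fun y : (∀ i : (Finset.range N), Fin (c i + 1)) =>
        ∏ i : (Finset.range N), ch (t * ((((y i : ℕ) + a i : ℕ) : ℝ) / P M (i + 1))))
        ((Finset.range N).restrict ω) := by
    intro ω
    rw [Finset.mul_sum, ch_sum]
    simp only [Finset.restrict]
    rw [Finset.prod_coe_sort (Finset.range N)
      (fun i => ch (t * ((((ω i : ℕ) + a i : ℕ) : ℝ) / P M (i + 1))))]
  rw [integral_congr_ae (Eventually.of_forall h1)]
  unfold PP
  refine (integral_restrict_infinitePi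
    (μ := fun n => (PMF.uniformOfFintype (Fin (c n + 1))).toMeasure) (s := Finset.range N)
    (f := fun y : (∀ i : (Finset.range N), Fin (c i + 1)) =>
        ∏ i : (Finset.range N), ch (t * ((((y i : ℕ) + a i : ℕ) : ℝ) / P M (i + 1))))
    (Measurable.of_discrete.aestronglyMeasurable)).trans ?_
  rw [integral_fintype_prod_eq_prod
    (f := fun (i : Finset.range N) (j : Fin (c i + 1)) =>
      ch (t * ((((j : ℕ) + a i : ℕ) : ℝ) / P M (i + 1))))]
  simp_rw [integral_factor]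
  exact Finset.prod_coe_sort (Finset.range N) (fun n => phi M a c n t)

lemma tendsto_prod_phi (hM : ∀ n, 2 ≤ M n) (h : ∀ n, c n + 1 + 2 * a n = M n) (t : ℝ) :
    Tendsto (fun N => ∏ n ∈ Finset.range N, phi M a c n t) atTop
      (𝓝 (∫ ω, ch (t * X M a c ω) ∂(PP c))) := by
  have := prob_PP c
  simp_rw [← integral_partial_sum]
  refine tendsto_integral_of_dominated_convergence (fun _ => (1 : ℝ)) (fun N => ?_)
    (integrable_const _) (fun N => Eventually.of_forall fun ω => (norm_ch _).le)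
    (Eventually.of_forall fun ω => ?_)
  · apply Continuous.aestronglyMeasurable
    refine continuous_ch.comp (continuous_const.mul (continuous_finsetSum _ fun n _ => ?_))
    exact (continuous_of_discreteTopology (f := fun j : Fin (c n + 1) =>
      (((j : ℕ) + a n : ℕ) : ℝ) / P M (n + 1))).comp (continuous_apply n)
  · refine (continuous_ch.tendsto _).comp (Tendsto.const_mul t ?_)
    exact (summable_digits hM (d := fun n => (ω n : ℕ) + a n)
      (dig_lt h ω)).hasSum.tendsto_sum_nat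

lemma norm_phi_le (M a c : ℕ → ℕ) (n : ℕ) (t : ℝ) : ‖phi M a c n t‖ ≤ 1 := by
  have h : ‖((c n : ℂ) + 1)‖ = (c n : ℝ) + 1 := by exact_mod_cast Complex.norm_natCast (c n + 1)
  rw [phi, norm_div, h, div_le_one (by positivity)]
  simpa using norm_sum_ch_le (Finset.range (c n + 1))
    (fun j => t * ((j + a n : ℕ) / P M (n + 1)))

lemma norm_coeff_le (hM : ∀ n, 2 ≤ M n) (h : ∀ n, c n + 1 + 2 * a n = M n) (m L : ℕ) (t : ℝ) :
    ‖∫ ω, ch (t * X M a c ω) ∂(PP c)‖ ≤ ∏ i ∈ Finset.range L, ‖phi M a c (m + i) t‖ := by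
  refine le_of_tendsto (tendsto_prod_phi hM h t).norm ?_
  filter_upwards [eventually_ge_atTop (m + L)] with N hN
  have e := Finset.prod_Ico_eq_prod_range (fun i => ‖phi M a c i t‖) m (m + L)
  rw [Nat.add_sub_cancel_left] at e
  rw [norm_prod, ← e]
  refine Finset.prod_le_prod_of_subset_of_le_one (fun i hi => ?_) (fun i _ => norm_nonneg _)
    fun i _ _ => norm_phi_le M a c i t
  rw [Finset.mem_Ico] at hi
  rw [Finset.mem_range]; omega

/-- the norm of the full geometric average at level `n` -/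
noncomputable def psi (M : ℕ → ℕ) (n : ℕ) (t : ℝ) : ℝ :=
  ‖∑ j ∈ Finset.range (M n), ch (t / P M (n + 1)) ^ j‖ / M n

lemma psi_nonneg (M : ℕ → ℕ) (n : ℕ) (t : ℝ) : 0 ≤ psi M n t := by unfold psi; positivity

lemma psi_le (M : ℕ → ℕ) (n : ℕ) (t : ℝ) : psi M n t ≤ 1 := by
  refine div_le_one_of_le₀ ((norm_sum_le _ _).trans ?_) (by positivity)
  simp [norm_ch]

lemma norm_phi_le_psi (h : ∀ n, c n + 1 + 2 * a n = M n) (n : ℕ) (t : ℝ) :
    ‖phi M a c n t‖ ≤ psi M n t + 4 * (a n / M n) := by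
  have h0 : ‖((c n : ℂ) + 1)‖ = (c n : ℝ) + 1 := by exact_mod_cast Complex.norm_natCast (c n + 1)
  set z := ch (t / P M (n + 1)) with hz
  have h1 : ∀ j : ℕ, ch (t * ((j + a n : ℕ) / P M (n + 1))) = z ^ (a n + j) := by
    intro j; rw [hz, ← ch_nat_mul]; congr 1; push_cast; ring
  have h2 : ∑ j ∈ Finset.range (M n), z ^ j = ∑ j ∈ Finset.range (a n), z ^ j +
      ∑ j ∈ Finset.range (c n + 1), z ^ (a n + j) +
      ∑ j ∈ Finset.range (a n), z ^ (a n + (c n + 1) + j) := by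
    rw [← Finset.sum_range_add, ← Finset.sum_range_add]
    congr 2
    have := h n; omega
  have h3 : ∀ (k l : ℕ), ‖∑ j ∈ Finset.range l, z ^ (k + j)‖ ≤ l := fun k l =>
    (norm_sum_le _ _).trans (by simp [hz, norm_ch])
  have hM : (M n : ℝ) = c n + 1 + 2 * a n := by exact_mod_cast (h n).symm
  have h4 := norm_phi_le M a c n t
  have h5 : ‖phi M a c n t‖ * (c n + 1) ≤ ‖∑ j ∈ Finset.range (M n), z ^ j‖ + 2 * a n := by
    rw [phi, norm_div, h0, div_mul_cancel₀ _ (by positivity)]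
    simp_rw [h1]
    have e : ∑ j ∈ Finset.range (c n + 1), z ^ (a n + j) = ∑ j ∈ Finset.range (M n), z ^ j -
        ∑ j ∈ Finset.range (a n), z ^ (0 + j) -
        ∑ j ∈ Finset.range (a n), z ^ (a n + (c n + 1) + j) := by
      rw [h2]; simp only [zero_add]; ring
    rw [e]
    refine (norm_sub_le _ _).trans ?_
    have b1 := norm_sub_le (∑ j ∈ Finset.range (M n), z ^ j) (∑ j ∈ Finset.range (a n), z ^ (0 + j))
    linarith [h3 0 (a n), h3 (a n + (c n + 1)) (a n)]
  have hMp : (0 : ℝ) < M n := by rw [hM]; positivity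
  rw [psi, ← mul_div_assoc, ← add_div, le_div_iff₀ hMp, ← hz]
  have h6 := mul_le_mul_of_nonneg_right h4 (show (0 : ℝ) ≤ 2 * a n by positivity)
  nth_rewrite 1 [hM]
  linarith

lemma prod_phi_le (h : ∀ n, c n + 1 + 2 * a n = M n) (m L : ℕ) (t : ℝ) :
    ∏ i ∈ Finset.range L, ‖phi M a c (m + i) t‖ ≤ ∏ i ∈ Finset.range L, psi M (m + i) t +
      ∑ i ∈ Finset.range L, 4 * ((a (m + i) : ℝ) / M (m + i)) := by
  induction L with
  | zero => simp
  | succ L ih =>
    rw [Finset.prod_range_succ, Finset.prod_range_succ, Finset.sum_range_succ]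
    have a1 := norm_phi_le M a c (m + L) t
    have a2 := norm_phi_le_psi h (m + L) t
    have a3 : ∏ i ∈ Finset.range L, psi M (m + i) t ≤ 1 :=
      Finset.prod_le_one (fun i _ => psi_nonneg _ _ _) fun i _ => psi_le _ _ _
    have a4 : 0 ≤ ∏ i ∈ Finset.range L, psi M (m + i) t :=
      Finset.prod_nonneg fun i _ => psi_nonneg _ _ _
    have a5 : 0 ≤ ∑ i ∈ Finset.range L, 4 * ((a (m + i) : ℝ) / M (m + i)) :=
      Finset.sum_nonneg fun i _ => by positivity
    have a6 : 0 ≤ 4 * ((a (m + L) : ℝ) / M (m + L)) := by positivity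
    have a7 := mul_le_mul_of_nonneg_right ih (norm_nonneg (phi M a c (m + L) t))
    have a8 := mul_le_mul_of_nonneg_left a2 a4
    have a9 := mul_le_mul_of_nonneg_left a1 a5
    have a10 := mul_le_mul_of_nonneg_right a3 a6
    nlinarith

lemma prod_psi (hM : ∀ n, 2 ≤ M n) (m L : ℕ) (t : ℝ) :
    (∏ i ∈ Finset.range L, psi M (m + i) t) * (P M (m + L) * ‖ch (t / P M (m + L)) - 1‖) =
      P M m * ‖ch (t / P M m) - 1‖ := by
  induction L with
  | zero => simp
  | succ L ih =>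
    rw [Finset.prod_range_succ, ← ih, mul_assoc, ← add_assoc]
    congr 1
    have hMp : (0 : ℝ) < M (m + L) := by have := hM (m + L); positivity
    have hP := P_posR hM (m + L)
    have e : ch (t / P M (m + L)) = ch (t / P M (m + L + 1)) ^ M (m + L) := by
      rw [← ch_nat_mul]; congr 1; rw [P_succR]; field_simp
    rw [e, ← geom_sum_mul, norm_mul, psi]
    nth_rewrite 2 [P_succR]
    field_simp

lemma prod_psi_le (hM : ∀ n, 2 ≤ M n) (m L : ℕ) (t : ℝ) (h1 : (P M (m + L) : ℝ) ≤ 2 * t)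
    (h2 : 2 * t ≤ P M (m + (L + 1))) :
    ∏ i ∈ Finset.range (L + 1), psi M (m + i) t ≤ 1 / (L + 1) := by
  have a1 := prod_psi hM m (L + 1) t
  have a0 := P_posR hM (m + L)
  have a2 := P_posR hM (m + (L + 1))
  have a3 := P_posR hM m
  have a4 : 4 * (t / P M (m + (L + 1))) ≤ ‖ch (t / P M (m + (L + 1))) - 1‖ :=
    norm_ch_sub_one (div_nonneg (by linarith) a2.le) (by rw [div_le_iff₀ a2]; linarith)
  have a5 : ‖ch (t / P M m) - 1‖ ≤ 2 :=
    (norm_sub_le _ _).trans (by rw [norm_ch, norm_one]; norm_num)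
  have a6 : ((L : ℝ) + 1) * P M m ≤ P M (m + L) := by exact_mod_cast P_add hM m L
  have a7 : 0 ≤ ∏ i ∈ Finset.range (L + 1), psi M (m + i) t :=
    Finset.prod_nonneg fun i _ => psi_nonneg _ _ _
  have a8 : 4 * t ≤ P M (m + (L + 1)) * ‖ch (t / P M (m + (L + 1))) - 1‖ := by
    rw [← mul_div_assoc, div_le_iff₀ a2] at a4; linarith
  have a9 := mul_le_mul_of_nonneg_left a8 a7
  have a10 := mul_le_mul_of_nonneg_left a5 a3.le
  have a11 := mul_le_mul_of_nonneg_left (a6.trans h1) a7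
  rw [le_div_iff₀ (by positivity)]
  refine le_of_mul_le_mul_right ?_ a3
  nlinarith

lemma tendsto_coeff (hM : ∀ n, 2 ≤ M n) (h : ∀ n, c n + 1 + 2 * a n = M n)
    (ha : Tendsto (fun n => (a n : ℝ) / M n) atTop (𝓝 0)) :
    Tendsto (fun N : ℕ => ∫ ω, ch (N * X M a c ω) ∂(PP c)) atTop (𝓝 0) := by
  rw [Metric.tendsto_atTop]
  intro ε hε
  obtain ⟨L, hL⟩ := exists_nat_one_div_lt (half_pos hε)
  obtain ⟨m0, hm0⟩ := eventually_atTop.1 (ha.eventually
    (gt_mem_nhds (show 0 < ε / (8 * (L + 1)) by positivity)))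
  refine ⟨P M (m0 + L), fun k hk => ?_⟩
  have hex : ∃ m, 2 * k ≤ P M m := ⟨2 * k, (lt_P hM _).le⟩
  classical
  have hm := Nat.find_spec hex
  have hQp := P_pos hM (m0 + L)
  have hlarge : m0 + L + 1 ≤ Nat.find hex := by
    by_contra hc
    have := P_mono hM (show Nat.find hex ≤ m0 + L by omega)
    omega
  obtain ⟨m, hn⟩ : ∃ m, Nat.find hex = m + (L + 1) := ⟨Nat.find hex - (L + 1), by omega⟩
  have hm' := Nat.find_min hex (show m + L < Nat.find hex by omega)
  rw [hn] at hm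
  have b1 := prod_psi_le hM m L k (by exact_mod_cast (not_le.1 hm').le) (by exact_mod_cast hm)
  have b2 := (norm_coeff_le hM h m (L + 1) k).trans (prod_phi_le h m (L + 1) k)
  have b3 : ∑ i ∈ Finset.range (L + 1), 4 * ((a (m + i) : ℝ) / M (m + i)) ≤ ε / 2 := by
    refine (Finset.sum_le_card_nsmul _ _ (4 * (ε / (8 * (L + 1)))) fun i _ => ?_).trans
      (le_of_eq ?_)
    · linarith [hm0 (m + i) (by omega)]
    · rw [Finset.card_range, nsmul_eq_mul]; push_cast; field_simp; ring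
  rw [dist_zero_right]
  linarith

lemma exists_delta (hM : ∀ n, 2 ≤ M n) (h : ∀ n, c n + 1 + 2 * a n = M n) {k : ℕ} (hk : 1 ≤ a k)
    (x : ℝ) (hx : x ∈ Set.Icc (0 : ℝ) 1) (hK : x ∉ Set.range (X M a c)) :
    ∃ δ > 0, ∀ ω, δ ≤ ‖ch (x - X M a c ω) - 1‖ := by
  have hc : Continuous (fun ω => ‖ch (x - X M a c ω) - 1‖) :=
    ((continuous_ch.comp (continuous_const.sub (continuous_X hM h))).sub continuous_const).norm
  obtain ⟨ω0, -, h0⟩ := isCompact_univ.exists_isMinOn Set.univ_nonempty hc.continuousOn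
  refine ⟨_, ?_, fun ω => h0 (Set.mem_univ ω)⟩
  rw [gt_iff_lt, norm_pos_iff, sub_ne_zero]
  intro h'
  rw [ch, Complex.exp_eq_one_iff] at h'
  obtain ⟨m, hm⟩ := h'
  have h1 : ((x - X M a c ω0 : ℝ) : ℂ) = (m : ℂ) :=
    mul_left_cancel₀ Complex.two_pi_I_ne_zero (by rw [hm]; ring)
  have h2 : x - X M a c ω0 = (m : ℝ) := by exact_mod_cast h1
  have hb := X_bounds hM h hk ω0
  have h3 : (-1 : ℤ) < m := by exact_mod_cast (show (-1 : ℝ) < m by linarith [hx.1, hb.2])
  have h4 : m < (1 : ℤ) := by exact_mod_cast (show (m : ℝ) < 1 by linarith [hx.2, hb.1])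
  rw [show m = 0 by omega, Int.cast_zero] at h2
  exact hK ⟨ω0, by linarith⟩

lemma volume_le (hM : ∀ n, 2 ≤ M n) (h : ∀ n, c n + 1 + 2 * a n = M n) (N : ℕ) :
    volume (Set.range (X M a c)) ≤
      ENNReal.ofReal (∏ i ∈ Finset.range N, ((c i : ℝ) + 1) / M i) := by
  let s : (∀ i : Fin N, Fin (c i + 1)) → ℝ := fun y =>
    ∑ i : Fin N, (((y i : ℕ) + a i : ℕ) : ℝ) / P M (i + 1)
  have hsub : Set.range (X M a c) ⊆ ⋃ y, Set.Icc (s y) (s y + 1 / P M N) := by
    rintro _ ⟨ω, rfl⟩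
    rw [Set.mem_iUnion]
    refine ⟨fun i => ω i, ?_⟩
    have := tail_bounds hM (d := fun n => (ω n : ℕ) + a n) (dig_lt h ω) N
    rw [← Fin.sum_univ_eq_sum_range (fun n => (((ω n : ℕ) + a n : ℕ) : ℝ) / P M (n + 1))] at this
    exact this
  refine (measure_mono hsub).trans ((measure_iUnion_fintype_le _ _).trans ?_)
  simp only [Real.volume_Icc, add_sub_cancel_left, Finset.sum_const, Finset.card_univ,
    Fintype.card_pi, Fintype.card_fin, nsmul_eq_mul]
  rw [Fin.prod_univ_eq_prod_range (fun i => c i + 1),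
    ← ENNReal.ofReal_natCast, ← ENNReal.ofReal_mul (by positivity), Finset.prod_div_distrib]
  apply le_of_eq
  congr 1
  rw [P]; push_cast; ring

end Pool.Agent.Lib.MP_c7f57c_an.Gen
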