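import Pool.Agent.Lib.MP_c7f57c_an.Peak

set_option autoImplicit false

namespace Pool.Agent.Lib.MP_c7f57c_an.Thr

open Finset

lemma cosh_step (u : ℝ) {y l : ℝ} (hy : |y| ≤ l) (hl : l ≤ 1) :
    Real.cosh (u + y) ≤ Real.cosh u * (1 + l ^ 2) + y * Real.sinh u := by
  have h0 : y ^ 2 ≤ l ^ 2 := by
    rw [← sq_abs y]
    exact pow_le_pow_left₀ (abs_nonneg _) hy 2
  have h1 := (abs_le.1 (Real.abs_exp_sub_one_sub_id_le (hy.trans hl))).2
  have h2 := (abs_le.1 (Real.abs_exp_sub_one_sub_id_le (x := -y)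
    (by rw [abs_neg]; exact hy.trans hl))).2
  rw [neg_sq] at h2
  rw [Real.cosh_eq, Real.cosh_eq, Real.sinh_eq, neg_add, Real.exp_add, Real.exp_add]
  have a1 := mul_le_mul_of_nonneg_left (show Real.exp y ≤ 1 + y + l ^ 2 by linarith)
    (Real.exp_pos u).le
  have a2 := mul_le_mul_of_nonneg_left (show Real.exp (-y) ≤ 1 - y + l ^ 2 by linarith)
    (Real.exp_pos (-u)).le
  nlinarith

/-- Greedy choice of `k` elements on which finitely many balanced functions have small sums. -/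
lemma greedy {τ : Type} (T : Finset τ) (f : τ → ℕ → ℝ) (X : Finset ℕ)
    (hf : ∀ t ∈ T, ∀ d ∈ X, |f t d| ≤ 1) (h0 : ∀ t ∈ T, ∑ d ∈ X, f t d = 0) {l : ℝ}
    (hl0 : 0 ≤ l) (hl : l ≤ 1) (k : ℕ) (hk : k ≤ X.card) :
    ∃ D ⊆ X, D.card = k ∧
      ∑ t ∈ T, Real.cosh (l * ∑ d ∈ D, f t d) ≤ T.card * (1 + l ^ 2) ^ k := by
  induction k with
  | zero => exact ⟨∅, empty_subset _, rfl, by simp⟩
  | succ k ih =>
    obtain ⟨D, hD, hc, hs⟩ := ih (by omega)
    have hne : (X \ D).Nonempty := by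
      rw [← card_pos, card_sdiff_of_subset hD]
      omega
    obtain ⟨e, he, h⟩ := exists_le_of_sum_le hne
      (f := fun e => ∑ t ∈ T, Real.cosh (l * ∑ d ∈ D, f t d + l * f t e))
      (g := fun _ => ∑ t ∈ T, Real.cosh (l * ∑ d ∈ D, f t d) * (1 + l ^ 2)) (by
        rw [sum_comm, sum_comm (s := X \ D)]
        refine sum_le_sum fun t ht => ?_
        have h1 : ∑ e ∈ X \ D, f t e = -∑ d ∈ D, f t d := by
          have := sum_sdiff (f := f t) hD
          rw [h0 t ht] at this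
          linarith
        refine (sum_le_sum fun e he => cosh_step (l := l) _ (by
          rw [abs_mul, abs_of_nonneg hl0]
          exact mul_le_of_le_one_right hl0 (hf t ht e (mem_sdiff.1 he).1)) hl).trans ?_
        rw [sum_add_distrib, add_le_iff_nonpos_right, ← sum_mul, ← mul_sum, h1, mul_neg, neg_mul,
          neg_nonpos]
        rcases le_total 0 (l * ∑ d ∈ D, f t d) with h2 | h2
        · exact mul_nonneg h2 (Real.sinh_nonneg_iff.2 h2)
        · exact mul_nonneg_of_nonpos_of_nonpos h2 (Real.sinh_nonpos_iff.2 h2))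
    obtain ⟨he1, he2⟩ := mem_sdiff.1 he
    refine ⟨insert e D, insert_subset he1 hD, by rw [card_insert_of_notMem he2, hc], ?_⟩
    simp only [sum_insert he2]
    rw [← sum_mul] at h
    have h3 := mul_le_mul_of_nonneg_right hs (show 0 ≤ 1 + l ^ 2 by positivity)
    rw [pow_succ, ← mul_assoc]
    refine le_trans (le_of_eq (sum_congr rfl fun t _ => ?_)) (h.trans h3)
    congr 1
    ring

lemma balanced {τ : Type} (T : Finset τ) (f : τ → ℕ → ℝ) (X : Finset ℕ)
    (hf : ∀ t ∈ T, ∀ d ∈ X, |f t d| ≤ 1) (h0 : ∀ t ∈ T, ∑ d ∈ X, f t d = 0) {ε : ℝ}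
    (hε : 0 < ε) (hε1 : ε ≤ 1) (k : ℕ) (hk : k ≤ X.card)
    (hT : 2 * (T.card : ℝ) ≤ Real.exp (ε ^ 2 * k)) :
    ∃ D ⊆ X, D.card = k ∧ ∀ t ∈ T, |∑ d ∈ D, f t d| ≤ 2 * ε * k := by
  obtain ⟨D, hD, hc, hs⟩ := greedy T f X hf h0 hε.le hε1 k hk
  refine ⟨D, hD, hc, fun t ht => ?_⟩
  have h1 := (single_le_sum (f := fun t => Real.cosh (ε * ∑ d ∈ D, f t d))
    (fun t _ => (Real.cosh_pos _).le) ht).trans hs
  have h2 := Real.exp_abs_le (ε * ∑ d ∈ D, f t d)
  have h3 : (1 + ε ^ 2) ^ k ≤ Real.exp (ε ^ 2 * k) := by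
    rw [mul_comm, Real.exp_nat_mul]
    exact pow_le_pow_left₀ (by positivity) (by linarith [Real.add_one_le_exp (ε ^ 2)]) _
  rw [Real.cosh_eq] at h1
  have h4 := mul_le_mul hT h3 (by positivity) (Real.exp_pos _).le
  rw [← Real.exp_add] at h4
  have h5 : |ε * ∑ d ∈ D, f t d| ≤ ε ^ 2 * k + ε ^ 2 * k :=
    Real.exp_le_exp.1 (by linarith)
  rw [abs_mul, abs_of_pos hε] at h5
  exact le_of_mul_le_mul_left (by linarith) hε

lemma norm_ch_sub (s t : ℝ) : ‖ch s - ch t‖ ≤ 8 * |s - t| := by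
  have e : ch s - ch t = ch t * (ch (s - t) - 1) := by
    rw [mul_sub, ← ch_add, add_sub_cancel, mul_one]
  rw [e, norm_mul, norm_ch, one_mul, ch_eq, mul_comm]
  refine Real.norm_exp_I_mul_ofReal_sub_one_le.trans ?_
  rw [Real.norm_eq_abs, abs_mul, abs_of_pos (by positivity : 0 < 2 * Real.pi)]
  exact mul_le_mul_of_nonneg_right (by linarith [Real.pi_le_four]) (abs_nonneg _)

lemma sum_ch_close (S : Finset ℕ) {M : ℕ} (hS : S ⊆ range M) {t θ η : ℝ}
    (h : |Int.fract t - θ| * M ≤ η) :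
    ‖∑ d ∈ S, ch (t * d) - ∑ d ∈ S, ch (θ * d)‖ ≤ S.card * (8 * η) := by
  rw [← sum_sub_distrib]
  refine (norm_sum_le _ _).trans ((sum_le_card_nsmul _ _ (8 * η) fun d hd => ?_).trans
    (by rw [nsmul_eq_mul]))
  have e : ch (t * d) = ch (Int.fract t * d) := by
    have : t * d = Int.fract t * d + ((⌊t⌋ * d : ℤ) : ℝ) := by
      push_cast
      rw [← add_mul, Int.fract_add_floor]
    rw [this, ch_add, ch_int, mul_one]
  rw [e]
  refine (norm_ch_sub _ _).trans ?_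
  have h1 : (d : ℝ) ≤ M := by exact_mod_cast (mem_range.1 (hS hd)).le
  rw [← sub_mul, abs_mul, Nat.abs_cast]
  have := mul_le_mul_of_nonneg_left h1 (abs_nonneg (Int.fract t - θ))
  linarith

/-- Sets of `k ≥ C log M` digits whose exponential sums imitate those of all `M` digits. -/
lemma exists_sparse {ε : ℝ} (hε : 0 < ε) : ∃ C : ℝ, ∀ M k : ℕ, 2 ≤ M → 1 ≤ k → k ≤ M →
    C * Real.log M ≤ k → ∃ D ⊆ range M, D.card = k ∧ ∀ t : ℝ,
      ‖∑ d ∈ D, ch (t * d)‖ / k ≤ ‖∑ d ∈ range M, ch t ^ d‖ / M + ε := by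
  obtain ⟨L, hL⟩ := exists_nat_one_div_lt (show 0 < ε / 24 by positivity)
  obtain ⟨η, hη⟩ : ∃ η : ℝ, η = 1 / (L + 1) := ⟨_, rfl⟩
  rw [← hη] at hL
  have hL0 : (0 : ℝ) < L + 1 := by positivity
  have hη0 : 0 < η := by rw [hη]; positivity
  have hη1 : η ≤ 1 := by
    rw [hη, div_le_one hL0]
    linarith [(Nat.cast_nonneg L : (0 : ℝ) ≤ L)]
  refine ⟨(8 * (L + 1) + 1) / η ^ 2, fun M k hM hk1 hk hC => ?_⟩
  have M2 : (2 : ℝ) ≤ M := by exact_mod_cast hM
  have M0 : (0 : ℝ) < M := by linarith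
  have k0 : (0 : ℝ) < k := by exact_mod_cast hk1
  let θ : ℕ → ℝ := fun i => i / ((L + 1) * M)
  let g : ℕ → ℕ → ℂ := fun i d => ch (θ i * d) - (∑ e ∈ range M, ch (θ i * e)) / M
  have g0 : ∀ i, ∑ d ∈ range M, g i d = 0 := fun i => by
    have : (M : ℂ) ≠ 0 := by exact_mod_cast M0.ne'
    simp only [g, sum_sub_distrib, sum_const, card_range, nsmul_eq_mul]
    field_simp
    ring
  have g2 : ∀ i d, ‖g i d‖ ≤ 2 := fun i d => by
    refine (norm_sub_le _ _).trans ?_
    have := norm_sum_ch_le (range M) (fun e => θ i * e)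
    rw [card_range, ← div_le_one M0] at this
    rw [norm_ch, norm_div, Complex.norm_natCast]
    linarith
  obtain ⟨D, hD, hc, hs⟩ := balanced (range ((L + 1) * M) ×ˢ (univ : Finset Bool))
    (fun x d => (if x.2 then (g x.1 d).re else (g x.1 d).im) / 2) (range M)
    (fun x _ d _ => by
      have h1 := (Complex.abs_re_le_norm (g x.1 d)).trans (g2 _ _)
      have h2 := (Complex.abs_im_le_norm (g x.1 d)).trans (g2 _ _)
      rw [abs_div, abs_two, div_le_one two_pos]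
      split_ifs <;> assumption)
    (fun x _ => by
      rw [← sum_div]
      split_ifs
      · rw [← Complex.re_sum, g0]; simp
      · rw [← Complex.im_sum, g0]; simp)
    hη0 hη1 k (by rwa [card_range]) (by
      rw [card_product, card_range, card_univ, Fintype.card_bool]
      rw [div_mul_eq_mul_div, div_le_iff₀ (by positivity)] at hC
      have l1 : 1 / 2 ≤ Real.log M :=
        le_trans (by linarith [Real.log_two_gt_d9]) (Real.log_le_log two_pos M2)
      have l2 : Real.exp (4 * (L + 1) + Real.log M) ≤ Real.exp (η ^ 2 * k) :=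
        Real.exp_le_exp.2 (by nlinarith)
      rw [Real.exp_add, Real.exp_log M0] at l2
      have l3 := Real.add_one_le_exp (4 * ((L : ℝ) + 1))
      push_cast
      nlinarith)
  refine ⟨D, hD, hc, fun t => ?_⟩
  obtain ⟨i, hi⟩ : ∃ i, i = ⌊Int.fract t * ((L + 1) * M)⌋₊ := ⟨_, rfl⟩
  have W0 : (0 : ℝ) < (L + 1) * M := by positivity
  have i1 : (i : ℝ) ≤ Int.fract t * ((L + 1) * M) :=
    hi ▸ Nat.floor_le (mul_nonneg (Int.fract_nonneg t) W0.le)
  have i2 : Int.fract t * ((L + 1) * M) < i + 1 := hi ▸ Nat.lt_floor_add_one _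
  have i3 : i < (L + 1) * M := by
    have : (i : ℝ) < (L + 1) * M :=
      i1.trans_lt (mul_lt_of_lt_one_left W0 (Int.fract_lt_one t))
    exact_mod_cast this
  have i4 : |Int.fract t - θ i| * M ≤ η := by
    have e : Int.fract t - θ i = (Int.fract t * ((L + 1) * M) - i) / ((L + 1) * M) := by
      simp only [θ]; field_simp
    rw [e, abs_of_nonneg (div_nonneg (by linarith) W0.le), hη, div_mul_eq_mul_div,
      div_le_div_iff₀ W0 hL0]
    nlinarith
  have c1 := sum_ch_close D hD i4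
  have c2 := sum_ch_close (range M) subset_rfl i4
  rw [hc] at c1
  rw [card_range] at c2
  have r1 := hs (i, true) (mem_product.2 ⟨mem_range.2 i3, mem_univ _⟩)
  have r2 := hs (i, false) (mem_product.2 ⟨mem_range.2 i3, mem_univ _⟩)
  simp only [if_true, Bool.false_eq_true, if_false] at r1 r2
  rw [← sum_div, ← Complex.re_sum, abs_div, abs_two] at r1
  rw [← sum_div, ← Complex.im_sum, abs_div, abs_two] at r2
  have r3 := Complex.norm_le_abs_re_add_abs_im (∑ d ∈ D, g i d)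
  have e1 : ∑ d ∈ D, ch (θ i * d) =
      ∑ d ∈ D, g i d + k * ((∑ e ∈ range M, ch (θ i * e)) / M) := by
    simp only [g, sum_sub_distrib, sum_const, hc, nsmul_eq_mul]
    ring
  have e2 : ∑ d ∈ range M, ch t ^ d = ∑ d ∈ range M, ch (t * d) :=
    sum_congr rfl fun d _ => by rw [mul_comm, ch_nat_mul]
  have b1 : ‖∑ d ∈ D, ch (θ i * d)‖ ≤ 8 * η * k + k * (‖∑ e ∈ range M, ch (θ i * e)‖ / M) := by
    rw [e1]
    refine (norm_add_le _ _).trans ?_
    rw [norm_mul, norm_div, Complex.norm_natCast, Complex.norm_natCast]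
    linarith
  have b2 : ‖∑ e ∈ range M, ch (θ i * e)‖ / M ≤ ‖∑ d ∈ range M, ch (t * d)‖ / M + 8 * η := by
    have := norm_sub_norm_le (∑ e ∈ range M, ch (θ i * e)) (∑ d ∈ range M, ch (t * d))
    rw [norm_sub_rev] at this
    rw [div_add' _ _ _ M0.ne', div_le_div_iff_of_pos_right M0]
    linarith
  have b3 := norm_sub_norm_le (∑ d ∈ D, ch (t * d)) (∑ d ∈ D, ch (θ i * d))
  have b4 := mul_le_mul_of_nonneg_left b2 k0.le
  rw [e2, div_le_iff₀ k0]
  have b5 := mul_le_mul_of_nonneg_left hL.le k0.le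
  nlinarith

end Pool.Agent.Lib.MP_c7f57c_an.Thr
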