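import Pool.Agent.Lib.MP_c7f57c_an.Choice

set_option autoImplicit false

namespace Pool.Agent.Lib.MP_c7f57c_an.Thr

open MeasureTheory Filter Topology Gen

variable {M : ℕ → ℕ} {D : ℕ → Finset ℕ}

/-- indices of the cells of level `N` that are kept -/
def RR (M : ℕ → ℕ) (D : ℕ → Finset ℕ) : ℕ → Finset ℕ
  | 0 => {0}
  | N + 1 => (RR M D N ×ˢ D N).image fun x => x.1 * M N + x.2

lemma card_RR (hD : ∀ n, D n ⊆ Finset.range (M n)) (N : ℕ) :
    (RR M D N).card = ∏ n ∈ Finset.range N, (D n).card := by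
  induction N with
  | zero => rfl
  | succ N ih =>
    rw [RR, Finset.card_image_of_injOn, Finset.card_product, ih, Finset.prod_range_succ]
    intro x hx y hy h
    have h1 := Finset.mem_range.1 (hD N (Finset.mem_product.1 hx).2)
    have h2 := Finset.mem_range.1 (hD N (Finset.mem_product.1 hy).2)
    have h3 := congrArg (· % M N) h
    simp only [Nat.mul_add_mod_of_lt h1, Nat.mul_add_mod_of_lt h2] at h3
    simp only [h3] at h
    exact Prod.ext (Nat.eq_of_mul_eq_mul_right (by omega) (Nat.add_right_cancel h)) h3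

/-- the union of the kept cells -/
def KK (M : ℕ → ℕ) (D : ℕ → Finset ℕ) (N : ℕ) : Set ℝ :=
  ⋃ r ∈ RR M D N, Set.Ico ((r : ℝ) / P M N) (((r : ℝ) + 1) / P M N)

lemma mem_KK (hM : ∀ n, 2 ≤ M n) {N : ℕ} {x : ℝ} :
    x ∈ KK M D N ↔ 0 ≤ x ∧ ⌊x * P M N⌋₊ ∈ RR M D N := by
  have hP := P_posR hM N
  simp only [KK, Set.mem_iUnion, Set.mem_Ico, div_le_iff₀ hP, lt_div_iff₀ hP]
  constructor
  · rintro ⟨r, hr, h1, h2⟩
    have h3 : 0 ≤ x * P M N := (Nat.cast_nonneg r).trans h1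
    rw [(Nat.floor_eq_iff h3).2 ⟨h1, h2⟩]
    exact ⟨nonneg_of_mul_nonneg_left h3 hP, hr⟩
  · rintro ⟨h1, h2⟩
    exact ⟨_, h2, Nat.floor_le (mul_nonneg h1 hP.le), Nat.lt_floor_add_one _⟩

lemma step_RR (hM : ∀ n, 2 ≤ M n) (hD : ∀ n, D n ⊆ Finset.range (M n)) {N : ℕ} {x : ℝ}
    (h : ⌊x * P M (N + 1)⌋₊ ∈ RR M D (N + 1)) :
    ⌊x * P M N⌋₊ ∈ RR M D N ∧ ⌊x * P M (N + 1)⌋₊ % M N ∈ D N := by
  have hMp : (0 : ℝ) < M N := by have := hM N; positivity
  have e1 : ⌊x * P M N⌋₊ = ⌊x * P M (N + 1)⌋₊ / M N := by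
    rw [← Nat.floor_div_natCast, P_succR, ← mul_assoc, mul_div_cancel_right₀ _ hMp.ne']
  obtain ⟨y, hy, e2⟩ := Finset.mem_image.1 h
  obtain ⟨h1, h2⟩ := Finset.mem_product.1 hy
  have h3 := Finset.mem_range.1 (hD N h2)
  rw [e1, ← e2, Nat.mul_add_mod_of_lt h3, mul_comm, Nat.mul_add_div (by omega),
    Nat.div_eq_of_lt h3, add_zero]
  exact ⟨h1, h2⟩

lemma vol_KK (hM : ∀ n, 2 ≤ M n) (hD : ∀ n, D n ⊆ Finset.range (M n)) (N : ℕ) :
    volume (KK M D N) = ENNReal.ofReal (∏ n ∈ Finset.range N, ((D n).card : ℝ) / M n) := by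
  have hP := P_posR hM N
  rw [KK, measure_biUnion_finset _ fun _ _ => measurableSet_Ico]
  · simp only [Real.volume_Ico, ← sub_div, add_sub_cancel_left, Finset.sum_const, nsmul_eq_mul]
    rw [card_RR hD, ← ENNReal.ofReal_natCast, ← ENNReal.ofReal_mul (by positivity),
      Finset.prod_div_distrib, P]
    congr 1
    push_cast; ring
  · intro r _ s _ hrs
    rw [Function.onFun, Set.disjoint_left]
    intro x hx hx'
    simp only [Set.mem_Ico, div_le_iff₀ hP, lt_div_iff₀ hP] at hx hx'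
    have h1 : r < s + 1 := by exact_mod_cast hx.1.trans_lt hx'.2
    have h2 : s < r + 1 := by exact_mod_cast hx'.1.trans_lt hx.2
    omega

lemma iInter_KK (hM : ∀ n, 2 ≤ M n) (hD : ∀ n, D n ⊆ Finset.range (M n)) : ⋂ N, KK M D N ⊆
    {x : ℝ | ∃ d : ℕ → ℕ, (∀ n, d n ∈ D n) ∧ x = ∑' n, (d n : ℝ) / P M (n + 1)} := by
  intro y hy
  have h := fun N => (mem_KK hM).1 (Set.mem_iInter.1 hy N)
  have hMp : ∀ n, (0 : ℝ) < M n := fun n => by have := hM n; positivity
  have hP := P_posR hM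
  refine ⟨fun n => ⌊y * P M (n + 1)⌋₊ % M n, fun n => (step_RR hM hD (h (n + 1)).2).2,
    (HasSum.tsum_eq ?_).symm⟩
  rw [hasSum_iff_tendsto_nat_of_nonneg fun n => by positivity]
  have h1 : ∀ k, ∑ n ∈ Finset.range k, ((⌊y * P M (n + 1)⌋₊ % M n : ℕ) : ℝ) / P M (n + 1) =
      (⌊y * P M k⌋₊ : ℝ) / P M k := fun k => by
    induction k with
    | zero => simp [Finset.mem_singleton.1 (h 0).2]
    | succ k ih =>
      have e1 : ⌊y * P M k⌋₊ = ⌊y * P M (k + 1)⌋₊ / M k := by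
        rw [← Nat.floor_div_natCast, P_succR, ← mul_assoc, mul_div_cancel_right₀ _ (hMp k).ne']
      have e2 : ((M k * (⌊y * P M (k + 1)⌋₊ / M k) + ⌊y * P M (k + 1)⌋₊ % M k : ℕ) : ℝ) =
          ⌊y * P M (k + 1)⌋₊ := by rw [Nat.div_add_mod]
      rw [Finset.sum_range_succ, ih, e1, ← e2]
      generalize ⌊y * P M (k + 1)⌋₊ / M k = q
      generalize ⌊y * P M (k + 1)⌋₊ % M k = r
      have := hMp k
      have := hP k
      rw [P_succR]; push_cast; field_simp
  simp_rw [h1]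
  refine tendsto_of_tendsto_of_tendsto_of_le_of_le (g := fun k => y - 1 / P M k) (h := fun _ => y)
    (by simpa using (tendsto_inv_P hM).const_sub y) tendsto_const_nhds (fun k => ?_) fun k => ?_
  · have := Nat.lt_floor_add_one (y * P M k)
    simp only
    rw [sub_le_iff_le_add, ← add_div, le_div_iff₀ (hP k)]
    exact this.le
  · simp only
    rw [div_le_iff₀ (hP k)]
    exact Nat.floor_le (mul_nonneg (h 0).1 (hP k).le)

/-- For a null Moran set the product of the densities tends to zero. -/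
lemma prod_tendsto (hM : ∀ n, 2 ≤ M n) (hD : ∀ n, D n ⊆ Finset.range (M n))
    (h0 : volume {x : ℝ | ∃ d : ℕ → ℕ, (∀ n, d n ∈ D n) ∧ x = ∑' n, (d n : ℝ) / P M (n + 1)} = 0) :
    Tendsto (fun N => ∏ n ∈ Finset.range N, ((D n).card : ℝ) / M n) atTop (𝓝 0) := by
  have h1 := tendsto_measure_iInter_atTop (μ := volume) (s := KK M D)
    (fun N => (Finset.measurableSet_biUnion _ fun _ _ => measurableSet_Ico).nullMeasurableSet)
    (antitone_nat_of_succ_le fun N x hx => (mem_KK hM).2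
      ⟨((mem_KK hM).1 hx).1, (step_RR hM hD ((mem_KK hM).1 hx).2).1⟩)
    ⟨0, by rw [vol_KK hM hD]; exact ENNReal.ofReal_ne_top⟩
  rw [measure_mono_null (iInter_KK hM hD) h0] at h1
  have h2 := (ENNReal.tendsto_toReal ENNReal.zero_ne_top).comp h1
  refine h2.congr fun N => ?_
  simp only [Function.comp_apply, vol_KK hM hD]
  exact ENNReal.toReal_ofReal (Finset.prod_nonneg fun _ _ => by positivity)

/-- If the product of the densities tends to zero, infinitely many levels omit a digit. -/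
lemma frequently_lt {k : ℕ → ℕ} (hM : ∀ n, 2 ≤ M n) (hk : ∀ n, 1 ≤ k n ∧ k n ≤ M n)
    (h : Tendsto (fun N => ∏ n ∈ Finset.range N, (k n : ℝ) / M n) atTop (𝓝 0)) :
    ∃ᶠ n in atTop, k n < M n := by
  by_contra hc
  obtain ⟨N, hN⟩ := eventually_atTop.1 (not_frequently.1 hc)
  have hp : ∀ n, (0 : ℝ) < (k n : ℝ) / M n := fun n => by
    have := hM n
    have := (hk n).1
    positivity
  have h1 : ∀ j, ∏ n ∈ Finset.range (j + N), (k n : ℝ) / M n =
      ∏ n ∈ Finset.range N, (k n : ℝ) / M n := fun j => by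
    induction j with
    | zero => rw [zero_add]
    | succ j ih =>
      have e : k (j + N) = M (j + N) := le_antisymm (hk _).2 (not_lt.1 (hN _ (by omega)))
      have : (M (j + N) : ℝ) ≠ 0 := by have := hM (j + N); positivity
      rw [add_right_comm, Finset.prod_range_succ, ih, e, div_self this, mul_one]
  have h2 := (tendsto_add_atTop_iff_nat N).2 h
  simp only [h1] at h2
  exact (Finset.prod_pos fun n _ => hp n).ne' (tendsto_const_nhds_iff.1 h2)

end Pool.Agent.Lib.MP_c7f57c_an.Thr
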