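import Pool.Agent.Lib.MP_c7f57c_an.Choice

set_option autoImplicit false

namespace Pool.Agent.Lib.MP_c7f57c_an.Thr

open Finset

lemma ch_int (m : ℤ) : ch m = 1 := by
  rw [ch, Complex.exp_eq_one_iff]
  exact ⟨m, by push_cast; ring⟩

lemma card_piAnti (D : Finset ℕ) (p : ℕ) :
    (piAntidiag D p).card = (D.card + p - 1).choose p := by
  rw [← card_finsuppAntidiag_nat_eq_choose, finsuppAntidiag, card_map, card_attach]

/-- If the `p`-fold sums of `D` miss a residue, a function on `D` has a large coefficient. -/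
lemma peak {M p : ℕ} (D : Finset ℕ) (μ : ℕ → ℂ) (h : (D.card + p - 1).choose p < M) :
    ‖∑ d ∈ D, μ d‖ ^ p ≤ ∑ s ∈ Ico 1 M, ‖∑ d ∈ D, μ d * ch (-(s * ((d : ℝ) / M)))‖ ^ p := by
  classical
  have hM : 0 < M := by omega
  obtain ⟨x, hx, hx'⟩ : ∃ x ∈ range M,
      x ∉ (piAntidiag D p).image (fun κ => (∑ d ∈ D, d * κ d) % M) :=
    exists_mem_notMem_of_card_lt_card (card_image_le.trans_lt (by
      rw [card_piAnti, card_range]; exact h))
  have hx0 := mem_range.1 hx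
  have e1 : ∀ s : ℕ, ch (s * ((x : ℝ) / M)) * (∑ d ∈ D, μ d * ch (-(s * ((d : ℝ) / M)))) ^ p =
      ∑ κ ∈ piAntidiag D p, (Nat.multinomial D κ * ∏ d ∈ D, μ d ^ κ d) *
        ch (((x : ℤ) - (∑ d ∈ D, d * κ d : ℕ) : ℤ) * ((s + (0 : ℝ)) / M)) := by
    intro s
    rw [sum_pow_eq_sum_piAntidiag, mul_sum]
    refine sum_congr rfl fun κ _ => ?_
    have e2 : ∏ d ∈ D, ch (-(s * ((d : ℝ) / M))) ^ κ d =
        ch (-(s * (((∑ d ∈ D, d * κ d : ℕ) : ℝ) / M))) := by
      have e3 : -(s * (((∑ d ∈ D, d * κ d : ℕ) : ℝ) / M)) =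
          ∑ d ∈ D, (κ d : ℝ) * -(s * ((d : ℝ) / M)) := by
        push_cast
        rw [sum_div, mul_sum, ← sum_neg_distrib]
        exact sum_congr rfl fun d _ => by ring
      rw [e3, ch_sum]
      exact prod_congr rfl fun d _ => (ch_nat_mul _ _).symm
    have e4 : ch (((x : ℤ) - (∑ d ∈ D, d * κ d : ℕ) : ℤ) * ((s + (0 : ℝ)) / M)) =
        ch (s * ((x : ℝ) / M)) * ch (-(s * (((∑ d ∈ D, d * κ d : ℕ) : ℝ) / M))) := by
      rw [← ch_add]
      congr 1
      rw [Int.cast_sub, Int.cast_natCast, Int.cast_natCast]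
      ring
    simp only [mul_pow, prod_mul_distrib]
    rw [e2, e4]
    ring
  have e5 : ∑ s ∈ range M, ch (s * ((x : ℝ) / M)) *
      (∑ d ∈ D, μ d * ch (-(s * ((d : ℝ) / M)))) ^ p = 0 := by
    simp_rw [e1]
    rw [sum_comm]
    refine sum_eq_zero fun κ hκ => ?_
    rw [← mul_sum, Uniq.sum_ch_grid hM 0, mul_zero]
    intro hd
    refine hx' (mem_image.2 ⟨κ, hκ, ?_⟩)
    have h1 : (∑ d ∈ D, d * κ d) ≡ x [MOD M] := (Nat.modEq_iff_dvd).2 hd
    rw [Nat.ModEq, Nat.mod_eq_of_lt hx0] at h1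
    exact h1
  rw [range_eq_Ico, sum_eq_sum_Ico_succ_bot hM] at e5
  simp only [Nat.cast_zero, zero_mul, neg_zero, ch_zero, mul_one, one_mul, zero_add] at e5
  rw [← norm_pow, eq_neg_of_add_eq_zero_left e5, norm_neg]
  refine (norm_sum_le _ _).trans (sum_le_sum fun s _ => le_of_eq ?_)
  rw [norm_mul, norm_ch, one_mul, norm_pow]

lemma choose_le_exp (k p : ℕ) {y : ℝ} (hy : 0 < y) :
    ((k + p).choose p : ℝ) ≤ Real.exp ((k + p) / y + p * y) := by
  have h1 : (1 / y) ^ p * ((k + p).choose p : ℝ) ≤ (1 / y + 1) ^ (k + p) := by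
    rw [add_pow]
    have := single_le_sum (f := fun m => (1 / y) ^ m * (1 : ℝ) ^ (k + p - m) * ((k + p).choose m))
      (s := range (k + p + 1)) (fun m _ => by positivity) (mem_range.2 (show p < k + p + 1 by omega))
    simpa using this
  have h2 : (1 / y + 1) ^ (k + p) ≤ Real.exp ((k + p) / y) := by
    refine (pow_le_pow_left₀ (by positivity) (Real.add_one_le_exp _) _).trans (le_of_eq ?_)
    rw [← Real.exp_nat_mul]
    congr 1
    push_cast
    ring
  have h3 : y ^ p ≤ Real.exp (p * y) := by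
    rw [Real.exp_nat_mul]
    exact pow_le_pow_left₀ hy.le (by linarith [Real.add_one_le_exp y]) _
  have h4 : ((k + p).choose p : ℝ) = (1 / y) ^ p * ((k + p).choose p : ℝ) * y ^ p := by
    rw [one_div, inv_pow]
    field_simp
  rw [h4, Real.exp_add]
  exact mul_le_mul (h1.trans h2) h3 (by positivity) (by positivity)

lemma choose_p (C : ℝ) : ∃ B : ℝ, 0 < B ∧ ∀ M k : ℕ, k < M → (k : ℝ) ≤ C * Real.log M →
    ∃ p, 1 ≤ p ∧ (k + p - 1).choose p < M ∧ (M : ℝ) ≤ B ^ p := by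
  obtain ⟨y, hy⟩ : ∃ y : ℝ, y = 4 * (|C| + 1) := ⟨_, rfl⟩
  have hC := abs_nonneg C
  have hy0 : 0 < y := by rw [hy]; positivity
  have hy4 : 4 ≤ y := by linarith
  refine ⟨Real.exp (8 * y), Real.exp_pos _, fun M k hk hC' => ?_⟩
  have hM : (1 : ℝ) ≤ M := by exact_mod_cast (show 1 ≤ M by omega)
  obtain ⟨l, hl⟩ : ∃ l, l = Real.log M := ⟨_, rfl⟩
  have hl0 : 0 ≤ l := hl ▸ Real.log_nonneg hM
  have hMl : (M : ℝ) = Real.exp l := by rw [hl, Real.exp_log (by linarith)]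
  rw [← hl] at hC'
  rcases lt_or_ge l (4 * y) with h | h
  · refine ⟨1, le_rfl, by simpa using hk, ?_⟩
    rw [pow_one, hMl]
    exact Real.exp_le_exp.2 (by linarith)
  · obtain ⟨p, hp⟩ : ∃ p, p = ⌊l / (4 * y)⌋₊ := ⟨_, rfl⟩
    have h1 : (p : ℝ) * (4 * y) ≤ l := by
      rw [← le_div_iff₀ (by positivity), hp]
      exact Nat.floor_le (by positivity)
    have h2 : l < (p + 1) * (4 * y) := by
      rw [← div_lt_iff₀ (by positivity), hp]
      exact Nat.lt_floor_add_one _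
    have h3 : 1 ≤ p := by
      rw [hp]
      exact (Nat.one_le_floor_iff _).2 ((one_le_div (by positivity)).2 h)
    have h4 : (1 : ℝ) ≤ p := by exact_mod_cast h3
    refine ⟨p, h3, ?_, ?_⟩
    · have h5 : ((k + p - 1).choose p : ℝ) ≤ (k + p).choose p := by
        exact_mod_cast Nat.choose_le_choose p (Nat.sub_le _ _)
      have h6 : ((k : ℝ) + p) / y ≤ l / 4 := by
        rw [div_le_div_iff₀ hy0 (by norm_num)]
        have h7 := mul_le_mul_of_nonneg_right (le_abs_self C) hl0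
        have h8 : (p : ℝ) ≤ l := by nlinarith
        rw [hy]
        nlinarith
      have h7 : Real.exp ((k + p) / y + p * y) < M := by
        rw [hMl]
        exact Real.exp_lt_exp.2 (by nlinarith)
      exact_mod_cast (h5.trans (choose_le_exp k p hy0)).trans_lt h7
    · rw [hMl, ← Real.exp_nat_mul]
      exact Real.exp_le_exp.2 (by nlinarith)

/-- Thin sets of residues carry no function with a single large coefficient. -/
lemma peak_thin (C : ℝ) : ∃ B : ℝ, 0 < B ∧ ∀ (M : ℕ) (D : Finset ℕ), D.card < M →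
    (D.card : ℝ) ≤ C * Real.log M → ∀ (μ : ℕ → ℂ) (m : ℝ), 0 ≤ m →
      (∀ s ∈ Ico 1 M, ‖∑ d ∈ D, μ d * ch (-(s * ((d : ℝ) / M)))‖ ≤ m) →
        ‖∑ d ∈ D, μ d‖ ≤ B * m := by
  obtain ⟨B, hB, h⟩ := choose_p C
  refine ⟨B, hB, fun M D h1 h2 μ m hm hs => ?_⟩
  obtain ⟨p, hp, h3, h4⟩ := h M D.card h1 h2
  refine le_of_pow_le_pow_left₀ (show p ≠ 0 by omega) (by positivity) ((peak D μ h3).trans ?_)
  refine (sum_le_card_nsmul _ _ (m ^ p) fun s hs' =>
    pow_le_pow_left₀ (norm_nonneg _) (hs s hs') p).trans ?_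
  rw [Nat.card_Ico, nsmul_eq_mul, mul_pow]
  refine mul_le_mul_of_nonneg_right (le_trans ?_ h4) (by positivity)
  exact_mod_cast Nat.sub_le M 1

end Pool.Agent.Lib.MP_c7f57c_an.Thr
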