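import Mathlib

set_option autoImplicit false

namespace Pool.Agent.Lib.MP_c7f57c_an.Uniq

open Filter Topology

/-- Schwarz: a continuous function whose symmetric second differences are `o(h^2)` at every point
of an open interval has vanishing second differences inside the interval. -/
lemma schwarz_le {F : ℝ → ℝ} (hF : Continuous F) {u v : ℝ} (huv : u < v)
    (h : ∀ x ∈ Set.Ioo u v, Tendsto (fun t => (F (x + t) + F (x - t) - 2 * F x) / t ^ 2)
      (𝓝[>] 0) (𝓝 0)) (x : ℝ) (hx : x ∈ Set.Icc u v) :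
    F x ≤ F u + (x - u) / (v - u) * (F v - F u) := by
  by_contra hc
  rw [not_le] at hc
  set L : ℝ → ℝ := fun y => F u + (y - u) / (v - u) * (F v - F u) with hL
  have hvu : 0 < v - u := by linarith
  set e : ℝ := (F x - L x) / (2 * (v - u) ^ 2) with he
  have he0 : 0 < e := div_pos (by simp only [hL]; linarith) (by positivity)
  set G : ℝ → ℝ := fun y => F y - L y - e * ((y - u) * (v - y)) with hG
  have hGc : Continuous G := by simp only [hG, hL]; fun_prop
  obtain ⟨y, hy, hmax⟩ := isCompact_Icc.exists_isMaxOn ⟨x, hx⟩ (hGc.continuousOn (s := Set.Icc u v))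
  have hGx : 0 < G x := by
    have h1 : (x - u) * (v - x) ≤ (v - u) ^ 2 := by nlinarith [hx.1, hx.2]
    have h2 : e * (v - u) ^ 2 = (F x - L x) / 2 := by rw [he]; field_simp
    have h3 : 0 < F x - L x := by simp only [hL]; linarith
    have h4 := mul_le_mul_of_nonneg_left h1 he0.le
    simp only [hG]; linarith
  have hGy : 0 < G y := hGx.trans_le (hmax hx)
  have hyu : u < y := lt_of_le_of_ne hy.1 (by rintro rfl; simp [hG, hL] at hGy)
  have hyv : y < v := lt_of_le_of_ne hy.2 (by
    rintro rfl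
    simp only [hG, hL, div_self hvu.ne'] at hGy
    simp at hGy)
  have h1 := (h y ⟨hyu, hyv⟩).eventually (lt_mem_nhds (show -(2 * e) < 0 by linarith))
  have h2 : ∀ᶠ t in 𝓝[>] (0 : ℝ), t < min (y - u) (v - y) :=
    nhdsWithin_le_nhds (gt_mem_nhds (lt_min (by linarith) (by linarith)))
  obtain ⟨t, ⟨ht1, ht2⟩, ht0⟩ := ((h1.and h2).and self_mem_nhdsWithin).exists
  have ht0 : 0 < t := ht0
  rw [lt_min_iff] at ht2
  have a1 : G (y + t) ≤ G y := hmax ⟨by linarith, by linarith⟩
  have a2 : G (y - t) ≤ G y := hmax ⟨by linarith, by linarith⟩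
  rw [lt_div_iff₀ (by positivity)] at ht1
  have a3 : L (y + t) + L (y - t) - 2 * L y = 0 := by simp only [hL]; ring
  simp only [hG] at a1 a2
  nlinarith

lemma schwarz {F : ℝ → ℝ} (hF : Continuous F) {u v : ℝ}
    (h : ∀ x ∈ Set.Ioo u v, Tendsto (fun t => (F (x + t) + F (x - t) - 2 * F x) / t ^ 2)
      (𝓝[>] 0) (𝓝 0)) (x t : ℝ) (ht : 0 < t) (h1 : u ≤ x - t) (h2 : x + t ≤ v) :
    F (x + t) + F (x - t) - 2 * F x = 0 := by
  have hs : Set.Ioo (x - t) (x + t) ⊆ Set.Ioo u v := Set.Ioo_subset_Ioo h1 h2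
  have hx : x ∈ Set.Icc (x - t) (x + t) := ⟨by linarith, by linarith⟩
  have a1 := schwarz_le hF (show x - t < x + t by linarith) (fun y hy => h y (hs hy)) x hx
  have a2 := schwarz_le (F := fun y => -F y) hF.neg (show x - t < x + t by linarith)
    (fun y hy => by
      have := (h y (hs hy)).neg
      rw [neg_zero] at this
      exact this.congr fun s => by ring) x hx
  have e : (x - (x - t)) / (x + t - (x - t)) = 1 / 2 := by
    rw [div_eq_iff (by linarith)]; ring
  rw [e] at a1 a2
  linarith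

lemma sinc_eq_integral (x : ℝ) : Real.sinc x = ∫ s in (0 : ℝ)..1, Real.cos (s * x) := by
  by_cases hx : x = 0
  · simp [hx]
  · rw [intervalIntegral.integral_comp_mul_right (fun s => Real.cos s) hx, integral_cos,
      Real.sinc_of_ne_zero hx]
    simp [div_eq_inv_mul]

lemma sinc_lip (x y : ℝ) : |Real.sinc x - Real.sinc y| ≤ |x - y| := by
  rw [sinc_eq_integral, sinc_eq_integral, ← intervalIntegral.integral_sub
    (Continuous.intervalIntegrable (by fun_prop) _ _)
    (Continuous.intervalIntegrable (by fun_prop) _ _)]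
  have := intervalIntegral.norm_integral_le_of_norm_le_const (a := (0 : ℝ)) (b := 1)
    (f := fun s => Real.cos (s * x) - Real.cos (s * y)) (C := |x - y|) (fun s hs => by
      rw [Set.uIoc_of_le zero_le_one] at hs
      rw [Real.norm_eq_abs]
      refine (Real.abs_cos_sub_cos_le _ _).trans ?_
      rw [← mul_sub, abs_mul, abs_of_pos hs.1]
      exact mul_le_of_le_one_left (abs_nonneg _) hs.2)
  simpa using this

lemma sinc_sq_le {x : ℝ} (hx : x ≠ 0) : Real.sinc x ^ 2 ≤ 1 / x ^ 2 := by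
  rw [Real.sinc_of_ne_zero hx, div_pow]
  exact div_le_div_of_nonneg_right (Real.sin_sq_le_one x) (sq_nonneg x)

lemma sinc_sq_le_one (x : ℝ) : Real.sinc x ^ 2 ≤ 1 :=
  (sq_le_one_iff_abs_le_one _).2 (Real.abs_sinc_le_one x)

lemma sinc_sq_var {x t : ℝ} (hx : 0 ≤ x) (ht : 0 < t) (ht1 : t ≤ 1) :
    |Real.sinc x ^ 2 - Real.sinc (x + t) ^ 2| ≤ 16 * (1 / (1 + x) - 1 / (1 + (x + t))) := by
  have e : 1 / (1 + x) - 1 / (1 + (x + t)) = t / ((1 + x) * (1 + (x + t))) := by
    field_simp; ring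
  rw [e, ← mul_div_assoc, le_div_iff₀ (by positivity)]
  rcases le_total x 1 with h | h
  · have h1 := sinc_lip x (x + t)
    rw [show x - (x + t) = -t by ring, abs_neg, abs_of_pos ht] at h1
    have h2 : |Real.sinc x + Real.sinc (x + t)| ≤ 2 :=
      (abs_add_le _ _).trans (by linarith [Real.abs_sinc_le_one x, Real.abs_sinc_le_one (x + t)])
    have h3 : |Real.sinc x ^ 2 - Real.sinc (x + t) ^ 2| ≤ 2 * t := by
      rw [sq_sub_sq, abs_mul]; gcongr
    have h4 : (1 + x) * (1 + (x + t)) ≤ 6 := by nlinarith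
    calc _ ≤ (2 * t) * 6 := by gcongr
      _ ≤ _ := by linarith
  · set y := x + t with hy
    have hx0 : 0 < x := by linarith
    have hxy : x < y := by linarith
    have hy0 : 0 < y := by linarith
    have h1 : |Real.sin x ^ 2 - Real.sin y ^ 2| ≤ 2 * t := by
      rw [sq_sub_sq, abs_mul]
      have a := Real.abs_sin_sub_sin_le x y
      rw [show x - y = -t by rw [hy]; ring, abs_neg, abs_of_pos ht] at a
      have b : |Real.sin x + Real.sin y| ≤ 2 :=
        (abs_add_le _ _).trans (by linarith [Real.abs_sin_le_one x, Real.abs_sin_le_one y])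
      gcongr
    have e2 : Real.sinc x ^ 2 - Real.sinc y ^ 2 = (Real.sin x ^ 2 - Real.sin y ^ 2) / y ^ 2 +
        Real.sin x ^ 2 * (t * (x + y) / (x ^ 2 * y ^ 2)) := by
      rw [Real.sinc_of_ne_zero hx0.ne', Real.sinc_of_ne_zero hy0.ne',
        show t = y - x by rw [hy]; ring]
      field_simp; ring
    have b1 : |(Real.sin x ^ 2 - Real.sin y ^ 2) / y ^ 2| ≤ 2 * t / (x * y) := by
      rw [abs_div, abs_of_pos (by positivity : 0 < y ^ 2)]
      exact div_le_div₀ (by positivity) h1 (by positivity) (by nlinarith)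
    have b2 : |Real.sin x ^ 2 * (t * (x + y) / (x ^ 2 * y ^ 2))| ≤ 2 * t / (x * y) := by
      rw [abs_of_nonneg (by positivity)]
      refine (mul_le_of_le_one_left (by positivity) (Real.sin_sq_le_one x)).trans ?_
      rw [div_le_div_iff₀ (by positivity) (by positivity)]
      have c1 : x + y ≤ 2 * (x * y) := by nlinarith
      have c2 := mul_le_mul_of_nonneg_left c1 (show 0 ≤ t * (x * y) by positivity)
      nlinarith
    have b3 : |Real.sinc x ^ 2 - Real.sinc y ^ 2| ≤ 4 * t / (x * y) := by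
      rw [e2]
      refine (abs_add_le _ _).trans ?_
      have : 4 * t / (x * y) = 2 * t / (x * y) + 2 * t / (x * y) := by ring
      linarith
    have b4 : (1 + x) * (1 + y) ≤ 4 * (x * y) := by nlinarith
    calc _ ≤ (4 * t / (x * y)) * (4 * (x * y)) := by gcongr
      _ = _ := by field_simp; ring

lemma summable_sinc {u : ℕ → ℝ} {C : ℝ} (hu : ∀ n, |u n| ≤ C) {t : ℝ} (ht : 0 < t) :
    Summable fun n : ℕ => u n * Real.sinc (n * t) ^ 2 := by
  rw [← summable_nat_add_iff 1]
  have h0 : Summable fun n : ℕ => C / t ^ 2 * (1 / ((n + 1 : ℕ) : ℝ) ^ 2) :=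
    ((summable_nat_add_iff 1).2 (Real.summable_one_div_nat_pow.2 one_lt_two)).mul_left _
  refine Summable.of_norm_bounded h0 fun n => ?_
  have hC : 0 ≤ C := (abs_nonneg _).trans (hu 0)
  have hn : (0 : ℝ) < (n + 1 : ℕ) := by positivity
  rw [Real.norm_eq_abs, abs_mul, abs_of_nonneg (sq_nonneg (Real.sinc _))]
  calc _ ≤ C * (1 / (((n + 1 : ℕ) : ℝ) * t) ^ 2) :=
        mul_le_mul (hu _) (sinc_sq_le (by positivity)) (sq_nonneg _) hC
    _ = _ := by field_simp

/-- Riemann's first lemma. -/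
lemma riemann {u : ℕ → ℝ} (hu : Tendsto (fun N => ∑ n ∈ Finset.range N, u n) atTop (𝓝 0)) :
    Tendsto (fun t : ℝ => ∑' n : ℕ, u n * Real.sinc (n * t) ^ 2) (𝓝[>] 0) (𝓝 0) := by
  set S : ℕ → ℝ := fun N => ∑ n ∈ Finset.range N, u n with hS
  obtain ⟨C, hC⟩ : ∃ C, ∀ n, |u n| ≤ C := by
    obtain ⟨B, hB⟩ := hu.abs.bddAbove_range
    refine ⟨B + B, fun n => ?_⟩
    have : u n = S (n + 1) - S n := by simp [hS, Finset.sum_range_succ]
    rw [this]
    exact (abs_sub _ _).trans (add_le_add (hB ⟨_, rfl⟩) (hB ⟨_, rfl⟩))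
  rw [Metric.tendsto_nhds]
  intro ε hε
  obtain ⟨N, hN⟩ := (Metric.tendsto_atTop.1 hu) (ε / 40) (by positivity)
  simp only [Real.dist_eq, sub_zero] at hN ⊢
  have hhead : Tendsto (fun t : ℝ => ∑ n ∈ Finset.range N, u n * Real.sinc (n * t) ^ 2 -
      S N * Real.sinc (N * t) ^ 2) (𝓝[>] 0) (𝓝 0) := by
    have hc : Continuous fun t : ℝ => ∑ n ∈ Finset.range N, u n * Real.sinc (n * t) ^ 2 -
        S N * Real.sinc (N * t) ^ 2 := by
      have := Real.continuous_sinc
      fun_prop
    have := (hc.tendsto 0).mono_left (nhdsWithin_le_nhds (s := Set.Ioi 0))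
    simpa [hS] using this
  have h1 : ∀ᶠ t in 𝓝[>] (0 : ℝ), t < 1 := nhdsWithin_le_nhds (gt_mem_nhds one_pos)
  filter_upwards [(Metric.tendsto_nhds.1 hhead) (ε / 2) (by positivity), h1,
    self_mem_nhdsWithin] with t ht ht1 ht0
  have ht0 : 0 < t := ht0
  simp only [Real.dist_eq, sub_zero] at ht
  set w : ℕ → ℝ := fun n => Real.sinc (n * t) ^ 2 with hw
  have key : ∀ k, |∑ n ∈ Finset.range (N + k), u n * w n - S (N + k) * w (N + k) -
      (∑ n ∈ Finset.range N, u n * w n - S N * w N)| ≤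
      ε / 40 * (16 * (1 / (1 + N * t) - 1 / (1 + (N + k : ℕ) * t))) := by
    intro k
    induction k with
    | zero => simp
    | succ k ih =>
      have e : ∑ n ∈ Finset.range (N + (k + 1)), u n * w n - S (N + (k + 1)) * w (N + (k + 1)) -
          (∑ n ∈ Finset.range N, u n * w n - S N * w N) =
          (∑ n ∈ Finset.range (N + k), u n * w n - S (N + k) * w (N + k) -
          (∑ n ∈ Finset.range N, u n * w n - S N * w N)) +
          S (N + k + 1) * (w (N + k) - w (N + k + 1)) := by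
        simp only [hS, ← add_assoc, Finset.sum_range_succ]; ring
      rw [e]
      refine (abs_add_le _ _).trans ?_
      have v := sinc_sq_var (x := (N + k : ℕ) * t) (by positivity) ht0 ht1.le
      have e2 : ((N + k : ℕ) : ℝ) * t + t = (N + k + 1 : ℕ) * t := by push_cast; ring
      rw [e2] at v
      have v2 : |S (N + k + 1) * (w (N + k) - w (N + k + 1))| ≤
          ε / 40 * (16 * (1 / (1 + (N + k : ℕ) * t) - 1 / (1 + (N + k + 1 : ℕ) * t))) := by
        rw [abs_mul]
        exact mul_le_mul (hN _ (by omega)).le v (abs_nonneg _) (by positivity)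
      rw [← add_assoc]
      linarith
  have hlim : Tendsto (fun k => |∑ n ∈ Finset.range (N + k), u n * w n|) atTop
      (𝓝 |∑' n, u n * w n|) := by
    have := ((summable_sinc hC ht0).hasSum.tendsto_sum_nat.comp (tendsto_add_atTop_nat N)).abs
    simpa only [Function.comp_def, add_comm] using this
  refine lt_of_le_of_lt (le_of_tendsto' hlim (b := ε / 2 + ε / 40 * 16 + ε / 40) fun k => ?_)
    (by linarith)
  have a1 := key k
  have a2 : |S (N + k) * w (N + k)| ≤ ε / 40 := by
    rw [abs_mul, abs_of_nonneg (sq_nonneg (Real.sinc _))]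
    exact (mul_le_of_le_one_right (abs_nonneg _) (sinc_sq_le_one _)).trans (hN _ (by omega)).le
  have a3 : 1 / (1 + N * t) - 1 / (1 + (N + k : ℕ) * t) ≤ 1 := by
    have b1 : 1 / (1 + N * t) ≤ 1 := by
      rw [div_le_one (by positivity)]; have : 0 ≤ N * t := by positivity
      linarith
    have b2 : 0 ≤ 1 / (1 + (N + k : ℕ) * t) := by positivity
    linarith
  have a4 := mul_le_mul_of_nonneg_left a3 (show 0 ≤ ε / 40 * 16 by positivity)
  rw [abs_le] at a1 a2 ⊢
  rw [abs_lt] at ht
  constructor <;> nlinarith [a1.1, a1.2, a2.1, a2.2, ht.1, ht.2]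

end Pool.Agent.Lib.MP_c7f57c_an.Uniq
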