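import Pool.Agent.Lib.MP_c7f57c_an.Greedy

set_option autoImplicit false

namespace Pool.Agent.Lib.MP_c7f57c_an.Thr

open MeasureTheory Filter Topology Complex Gen

variable {M c : ℕ → ℕ} {g : ℕ → ℕ → ℕ}

/-- the point with digits `g n (ω n)` -/
noncomputable def Y (M : ℕ → ℕ) (g : ℕ → ℕ → ℕ) (c : ℕ → ℕ) (ω : Gen.Dig c) : ℝ :=
  ∑' n, (g n (ω n) : ℝ) / P M (n + 1)

lemma continuous_Y (hM : ∀ n, 2 ≤ M n) (h : ∀ n j, g n j < M n) : Continuous (Y M g c) := by
  unfold Y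
  refine continuous_tsum (u := fun n => (1 : ℝ) / P M n - 1 / P M (n + 1)) (fun n => ?_)
    (by simpa using (Gen.hasSum_tele hM 0).summable) (fun n ω => ?_)
  · exact (continuous_of_discreteTopology (f := fun j : Fin (c n + 1) =>
      (g n j : ℝ) / P M (n + 1))).comp (continuous_apply n)
  · rw [Real.norm_eq_abs, abs_of_nonneg (by positivity)]
    exact Gen.term_le hM (d := fun n => g n (ω n)) (fun n => h n _) n

lemma Y_bounds (hM : ∀ n, 2 ≤ M n) (h : ∀ n j, g n j < M n) {k l : ℕ} (hk : ∀ j, 0 < g k j)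
    (hl : ∀ j, g l j + 1 < M l) (ω : Gen.Dig c) : 0 < Y M g c ω ∧ Y M g c ω < 1 := by
  have hs := Gen.summable_digits hM (d := fun n => g n (ω n)) (fun n => h n _)
  constructor
  · refine hs.tsum_pos (fun n => by positivity) k (div_pos ?_ (P_posR hM _))
    exact_mod_cast hk _
  · have h1 := Gen.hasSum_tele hM 0
    simp only [add_zero] at h1
    have h2 := hasSum_lt (i := l) (Gen.term_le hM (d := fun n => g n (ω n)) (fun n => h n _)) (by
      rw [tele_eq hM]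
      refine div_lt_div_of_pos_right ?_ (P_posR hM _)
      have h4 : (g l (ω l) : ℝ) + 1 < M l := by exact_mod_cast hl _
      linarith) hs.hasSum h1
    simpa [P, Y] using h2

/-- one factor of the Fourier transform -/
noncomputable def ph (M : ℕ → ℕ) (g : ℕ → ℕ → ℕ) (c : ℕ → ℕ) (n : ℕ) (t : ℝ) : ℂ :=
  (∑ j ∈ Finset.range (c n + 1), ch (t * (g n j / P M (n + 1)))) / (c n + 1)

lemma integral_fac (M : ℕ → ℕ) (g : ℕ → ℕ → ℕ) (c : ℕ → ℕ) (n : ℕ) (t : ℝ) :
    ∫ j : Fin (c n + 1), ch (t * ((g n j : ℝ) / P M (n + 1)))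
      ∂(PMF.uniformOfFintype (Fin (c n + 1))).toMeasure = ph M g c n t := by
  rw [PMF.integral_eq_sum, ph, Finset.sum_div, ← Fin.sum_univ_eq_sum_range
    (fun j => ch (t * (g n j / P M (n + 1))) / (c n + 1))]
  refine Finset.sum_congr rfl fun j _ => ?_
  simp only [PMF.uniformOfFintype_apply, Fintype.card_fin, ENNReal.toReal_inv,
    ENNReal.toReal_natCast, Complex.real_smul]
  push_cast
  rw [mul_comm, ← div_eq_mul_inv]

lemma integral_head (M : ℕ → ℕ) (g : ℕ → ℕ → ℕ) (c : ℕ → ℕ) (N : ℕ) (t : ℝ) :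
    ∫ ω, ch (t * ∑ n ∈ Finset.range N, (g n (ω n) : ℝ) / P M (n + 1)) ∂(Gen.PP c) =
      ∏ n ∈ Finset.range N, ph M g c n t := by
  have h1 : ∀ ω : Gen.Dig c,
      ch (t * ∑ n ∈ Finset.range N, (g n (ω n) : ℝ) / P M (n + 1)) =
      (fun y : (∀ i : (Finset.range N), Fin (c i + 1)) =>
        ∏ i : (Finset.range N), ch (t * ((g i (y i) : ℝ) / P M (i + 1))))
        ((Finset.range N).restrict ω) := by
    intro ω
    rw [Finset.mul_sum, ch_sum]
    simp only [Finset.restrict]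
    rw [Finset.prod_coe_sort (Finset.range N)
      (fun i => ch (t * ((g i (ω i) : ℝ) / P M (i + 1))))]
  rw [integral_congr_ae (Eventually.of_forall h1)]
  unfold Gen.PP
  refine (integral_restrict_infinitePi
    (μ := fun n => (PMF.uniformOfFintype (Fin (c n + 1))).toMeasure) (s := Finset.range N)
    (f := fun y : (∀ i : (Finset.range N), Fin (c i + 1)) =>
        ∏ i : (Finset.range N), ch (t * ((g i (y i) : ℝ) / P M (i + 1))))
    (Measurable.of_discrete.aestronglyMeasurable)).trans ?_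
  rw [integral_fintype_prod_eq_prod
    (f := fun (i : Finset.range N) (j : Fin (c i + 1)) =>
      ch (t * ((g i j : ℝ) / P M (i + 1))))]
  simp_rw [integral_fac]
  exact Finset.prod_coe_sort (Finset.range N) (fun n => ph M g c n t)

lemma tendsto_prod_ph (hM : ∀ n, 2 ≤ M n) (h : ∀ n j, g n j < M n) (t : ℝ) :
    Tendsto (fun N => ∏ n ∈ Finset.range N, ph M g c n t) atTop
      (𝓝 (∫ ω, ch (t * Y M g c ω) ∂(Gen.PP c))) := by
  have := prob_PP c
  simp_rw [← integral_head]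
  refine tendsto_integral_of_dominated_convergence (fun _ => (1 : ℝ)) (fun N => ?_)
    (integrable_const _) (fun N => Eventually.of_forall fun ω => (norm_ch _).le)
    (Eventually.of_forall fun ω => ?_)
  · apply Continuous.aestronglyMeasurable
    refine continuous_ch.comp (continuous_const.mul (continuous_finsetSum _ fun n _ => ?_))
    exact (continuous_of_discreteTopology (f := fun j : Fin (c n + 1) =>
      (g n j : ℝ) / P M (n + 1))).comp (continuous_apply n)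
  · refine (continuous_ch.tendsto _).comp (Tendsto.const_mul t ?_)
    exact (Gen.summable_digits hM (d := fun n => g n (ω n))
      (fun n => h n _)).hasSum.tendsto_sum_nat

lemma norm_ph (M : ℕ → ℕ) (g : ℕ → ℕ → ℕ) (c : ℕ → ℕ) (n : ℕ) (t : ℝ) : ‖ph M g c n t‖ =
    ‖∑ j ∈ Finset.range (c n + 1), ch (t * (g n j / P M (n + 1)))‖ / (c n + 1) := by
  have h : ‖((c n : ℂ) + 1)‖ = (c n : ℝ) + 1 := by exact_mod_cast Complex.norm_natCast (c n + 1)
  rw [ph, norm_div, h]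

lemma norm_ph_le (M : ℕ → ℕ) (g : ℕ → ℕ → ℕ) (c : ℕ → ℕ) (n : ℕ) (t : ℝ) :
    ‖ph M g c n t‖ ≤ 1 := by
  rw [norm_ph, div_le_one (by positivity)]
  simpa using norm_sum_ch_le (Finset.range (c n + 1)) (fun j => t * (g n j / P M (n + 1)))

lemma norm_coef_le (hM : ∀ n, 2 ≤ M n) (h : ∀ n j, g n j < M n) (m L : ℕ) (t : ℝ) :
    ‖∫ ω, ch (t * Y M g c ω) ∂(Gen.PP c)‖ ≤ ∏ i ∈ Finset.range L, ‖ph M g c (m + i) t‖ := by
  refine le_of_tendsto (tendsto_prod_ph hM h t).norm ?_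
  filter_upwards [eventually_ge_atTop (m + L)] with N hN
  have e := Finset.prod_Ico_eq_prod_range (fun i => ‖ph M g c i t‖) m (m + L)
  rw [Nat.add_sub_cancel_left] at e
  rw [norm_prod, ← e]
  refine Finset.prod_le_prod_of_subset_of_le_one (fun i hi => ?_) (fun i _ => norm_nonneg _)
    fun i _ _ => norm_ph_le M g c i t
  rw [Finset.mem_Ico] at hi
  rw [Finset.mem_range]; omega

lemma prod_ph_le {ε : ℝ} (hε : 0 ≤ ε) (m L : ℕ) (t : ℝ)
    (h : ∀ i, ‖ph M g c (m + i) t‖ ≤ psi M (m + i) t + ε) :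
    ∏ i ∈ Finset.range L, ‖ph M g c (m + i) t‖ ≤
      ∏ i ∈ Finset.range L, psi M (m + i) t + L * ε := by
  induction L with
  | zero => simp
  | succ L ih =>
    rw [Finset.prod_range_succ, Finset.prod_range_succ]
    have a1 := norm_ph_le M g c (m + L) t
    have a2 := h L
    have a3 : ∏ i ∈ Finset.range L, psi M (m + i) t ≤ 1 :=
      Finset.prod_le_one (fun i _ => psi_nonneg _ _ _) fun i _ => psi_le _ _ _
    have a4 : 0 ≤ ∏ i ∈ Finset.range L, psi M (m + i) t :=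
      Finset.prod_nonneg fun i _ => psi_nonneg _ _ _
    have a5 : 0 ≤ (L : ℝ) * ε := by positivity
    have a7 := mul_le_mul_of_nonneg_right ih (norm_nonneg (ph M g c (m + L) t))
    have a8 := mul_le_mul_of_nonneg_left a2 a4
    have a9 := mul_le_mul_of_nonneg_left a1 a5
    have a10 := mul_le_mul_of_nonneg_right a3 hε
    push_cast
    nlinarith

lemma tendsto_coef (hM : ∀ n, 2 ≤ M n) (h : ∀ n j, g n j < M n)
    (ha : ∀ ε > 0, ∀ᶠ n in atTop, ∀ t, ‖ph M g c n t‖ ≤ psi M n t + ε) :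
    Tendsto (fun N : ℕ => ∫ ω, ch (N * Y M g c ω) ∂(Gen.PP c)) atTop (𝓝 0) := by
  rw [Metric.tendsto_atTop]
  intro ε hε
  obtain ⟨L, hL⟩ := exists_nat_one_div_lt (half_pos hε)
  have h0 : 0 < ε / (2 * (L + 1)) := by positivity
  obtain ⟨m0, hm0⟩ := eventually_atTop.1 (ha _ h0)
  refine ⟨P M (m0 + L), fun k hk => ?_⟩
  have hex : ∃ m, 2 * k ≤ P M m := ⟨2 * k, (lt_P hM _).le⟩
  classical
  have hm := Nat.find_spec hex
  have hQp := P_pos hM (m0 + L)
  have hlarge : m0 + L + 1 ≤ Nat.find hex := by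
    by_contra hc
    have := P_mono hM (show Nat.find hex ≤ m0 + L by omega)
    omega
  obtain ⟨m, hn⟩ : ∃ m, Nat.find hex = m + (L + 1) := ⟨Nat.find hex - (L + 1), by omega⟩
  have hm' := Nat.find_min hex (show m + L < Nat.find hex by omega)
  rw [hn] at hm
  have b1 := prod_psi_le hM m L k (by exact_mod_cast (not_le.1 hm').le) (by exact_mod_cast hm)
  have b2 := (norm_coef_le (c := c) hM h m (L + 1) k).trans
    (prod_ph_le h0.le m (L + 1) k fun i => hm0 (m + i) (by omega) k)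
  have b3 : ((L + 1 : ℕ) : ℝ) * (ε / (2 * (L + 1))) = ε / 2 := by push_cast; field_simp
  rw [dist_zero_right]
  linarith

lemma exists_del (hM : ∀ n, 2 ≤ M n) (h : ∀ n j, g n j < M n) {k l : ℕ} (hk : ∀ j, 0 < g k j)
    (hl : ∀ j, g l j + 1 < M l) (x : ℝ) (hx : x ∈ Set.Icc (0 : ℝ) 1)
    (hK : x ∉ Set.range (Y M g c)) : ∃ δ > 0, ∀ ω, δ ≤ ‖ch (x - Y M g c ω) - 1‖ := by
  have hc : Continuous (fun ω => ‖ch (x - Y M g c ω) - 1‖) :=
    ((continuous_ch.comp (continuous_const.sub (continuous_Y hM h))).sub continuous_const).norm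
  obtain ⟨ω0, -, h0⟩ := isCompact_univ.exists_isMinOn Set.univ_nonempty hc.continuousOn
  refine ⟨_, ?_, fun ω => h0 (Set.mem_univ ω)⟩
  rw [gt_iff_lt, norm_pos_iff, sub_ne_zero]
  intro h'
  rw [ch, Complex.exp_eq_one_iff] at h'
  obtain ⟨m, hm⟩ := h'
  have h1 : ((x - Y M g c ω0 : ℝ) : ℂ) = (m : ℂ) :=
    mul_left_cancel₀ Complex.two_pi_I_ne_zero (by rw [hm]; ring)
  have h2 : x - Y M g c ω0 = (m : ℝ) := by exact_mod_cast h1
  have hb := Y_bounds hM h hk hl ω0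
  have h3 : (-1 : ℤ) < m := by exact_mod_cast (show (-1 : ℝ) < m by linarith [hx.1, hb.2])
  have h4 : m < (1 : ℤ) := by exact_mod_cast (show (m : ℝ) < 1 by linarith [hx.2, hb.1])
  rw [show m = 0 by omega, Int.cast_zero] at h2
  exact hK ⟨ω0, by linarith⟩

lemma vol_le (hM : ∀ n, 2 ≤ M n) (h : ∀ n j, g n j < M n) (N : ℕ) :
    volume (Set.range (Y M g c)) ≤
      ENNReal.ofReal (∏ i ∈ Finset.range N, ((c i : ℝ) + 1) / M i) := by
  let s : (∀ i : Fin N, Fin (c i + 1)) → ℝ := fun y =>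
    ∑ i : Fin N, (g i (y i) : ℝ) / P M (i + 1)
  have hsub : Set.range (Y M g c) ⊆ ⋃ y, Set.Icc (s y) (s y + 1 / P M N) := by
    rintro _ ⟨ω, rfl⟩
    rw [Set.mem_iUnion]
    refine ⟨fun i => ω i, ?_⟩
    have := Gen.tail_bounds hM (d := fun n => g n (ω n)) (fun n => h n _) N
    rw [← Fin.sum_univ_eq_sum_range (fun n => (g n (ω n) : ℝ) / P M (n + 1))] at this
    exact this
  refine (measure_mono hsub).trans ((measure_iUnion_fintype_le _ _).trans ?_)
  simp only [Real.volume_Icc, add_sub_cancel_left, Finset.sum_const, Finset.card_univ,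
    Fintype.card_pi, Fintype.card_fin, nsmul_eq_mul]
  rw [Fin.prod_univ_eq_prod_range (fun i => c i + 1),
    ← ENNReal.ofReal_natCast, ← ENNReal.ofReal_mul (by positivity), Finset.prod_div_distrib]
  apply le_of_eq
  congr 1
  rw [P]; push_cast; ring

lemma exists_enum (D : Finset ℕ) {c : ℕ} (h : D.card = c + 1) : ∃ g : ℕ → ℕ, (∀ j, g j ∈ D) ∧
    (∀ d ∈ D, ∃ j : Fin (c + 1), g j = d) ∧
      ∀ F : ℕ → ℂ, ∑ j ∈ Finset.range (c + 1), F (g j) = ∑ d ∈ D, F d := by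
  let e := (Finset.equivFinOfCardEq h).symm
  refine ⟨fun j => e (Fin.ofNat (c + 1) j), fun j => (e _).2, fun d hd =>
    ⟨e.symm ⟨d, hd⟩, by simp⟩, fun F => ?_⟩
  rw [← Fin.sum_univ_eq_sum_range (fun j => F (e (Fin.ofNat (c + 1) j))), ← Finset.sum_coe_sort D,
    ← e.sum_comp]
  simp

/-- the best digit set of a given size -/
lemma exists_best {m k : ℕ} (hk : k ≤ m) : ∃ D ⊆ Finset.range m, D.card = k ∧
    ∀ D' ⊆ Finset.range m, D'.card = k → ∀ ε : ℝ,
      (∀ t : ℝ, ‖∑ d ∈ D', ch (t * d)‖ / k ≤ ‖∑ d ∈ Finset.range m, ch t ^ d‖ / m + ε) →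
        ∀ t : ℝ, ‖∑ d ∈ D, ch (t * d)‖ / k ≤ ‖∑ d ∈ Finset.range m, ch t ^ d‖ / m + ε := by
  let u : Finset ℕ → ℝ → ℝ := fun D t =>
    ‖∑ d ∈ D, ch (t * d)‖ / k - ‖∑ d ∈ Finset.range m, ch t ^ d‖ / m
  obtain ⟨D, hD, h⟩ := Finset.exists_min_image ((Finset.range m).powersetCard k)
    (fun D => ⨆ t, u D t) (Finset.powersetCard_nonempty.2 (by rwa [Finset.card_range]))
  obtain ⟨h1, h2⟩ := Finset.mem_powersetCard.1 hD
  refine ⟨D, h1, h2, fun D' h3 h4 ε hε t => ?_⟩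
  have b : BddAbove (Set.range (u D)) := ⟨D.card / k, by
    rintro _ ⟨t, rfl⟩
    have := div_le_div_of_nonneg_right (norm_sum_ch_le D fun d => t * d)
      (Nat.cast_nonneg (α := ℝ) k)
    exact (sub_le_self _ (by positivity)).trans this⟩
  have := (le_ciSup b t).trans ((h D' (Finset.mem_powersetCard.2 ⟨h3, h4⟩)).trans
    (ciSup_le (c := ε) fun t => sub_le_iff_le_add'.2 (hε t)))
  exact sub_le_iff_le_add'.1 this

/-- Digit sets of prescribed sizes that imitate the full digit sets. -/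
lemma exists_sets {M k : ℕ → ℕ} (hM : ∀ n, 2 ≤ M n) (hk : ∀ n, 1 ≤ k n ∧ k n ≤ M n)
    (hf : ∃ᶠ n in atTop, k n < M n)
    (hg : ∀ C : ℝ, ∀ᶠ n in atTop, k n < M n → C * Real.log (M n) ≤ k n) :
    ∃ D : ℕ → Finset ℕ, (∀ n, D n ⊆ Finset.range (M n) ∧ (D n).card = k n) ∧
      (∃ n, ∀ d ∈ D n, 0 < d) ∧ (∃ n, ∀ d ∈ D n, d + 1 < M n) ∧
      ∀ ε > 0, ∀ᶠ n in atTop, ∀ t : ℝ, ‖∑ d ∈ D n, ch (t * d)‖ / k n ≤
        ‖∑ d ∈ Finset.range (M n), ch t ^ d‖ / M n + ε := by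
  choose D h1 h2 h3 using fun n => exists_best (hk n).2
  obtain ⟨p, hp⟩ := hf.exists
  obtain ⟨q, hq, hq'⟩ := frequently_atTop.1 hf (p + 1)
  refine ⟨fun n => if n = p then Finset.Ico 1 (k n + 1) else if n = q then Finset.range (k n)
    else D n, fun n => ?_, ⟨p, fun d hd => ?_⟩, ⟨q, fun d hd => ?_⟩, fun ε hε => ?_⟩
  · beta_reduce
    split_ifs with e1 e2
    · subst e1
      refine ⟨fun d hd => ?_, by simp⟩
      rw [Finset.mem_Ico] at hd
      rw [Finset.mem_range]; omega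
    · exact ⟨Finset.range_subset_range.2 (hk n).2, by simp⟩
    · exact ⟨h1 n, h2 n⟩
  · simp only [if_true, Finset.mem_Ico] at hd
    omega
  · simp only [if_neg (show q ≠ p by omega), if_true, Finset.mem_range] at hd
    omega
  · obtain ⟨C, hC⟩ := exists_sparse hε
    filter_upwards [hg C, eventually_gt_atTop q] with n hn hn'
    rw [if_neg (show n ≠ p by omega), if_neg (show n ≠ q by omega)]
    rcases (hk n).2.lt_or_eq with h | h
    · obtain ⟨D', a1, a2, a3⟩ := hC (M n) (k n) (hM n) (hk n).1 (hk n).2 (hn h)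
      exact h3 n D' a1 a2 ε a3
    · refine h3 n (Finset.range (M n)) subset_rfl (by rw [Finset.card_range, h]) ε fun t => ?_
      rw [h, Finset.sum_congr rfl fun (d : ℕ) _ => show ch (t * d) = ch t ^ d by
        rw [mul_comm, ch_nat_mul]]
      linarith

end Pool.Agent.Lib.MP_c7f57c_an.Thr
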